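import Pool.Agent.Q293.EW.Stm

set_option autoImplicit false

namespace Pool.Agent.Q293.EW

open MeasureTheory ProbabilityTheory Set Filter Topology

lemma weight_zero {w : ℝ → ℝ} (hw : IsWeight w) : w 0 = 0 := by
  have hc : Continuous w := hw.smooth.continuous
  have h1 : ∀ x ∈ Iio (0:ℝ), w x = 0 := by
    intro x hx
    by_contra hne
    have := hw.supp (subset_tsupport w hne)
    linarith [this.1, show x < 0 from hx]
  have h2 : Tendsto w (𝓝[<] 0) (𝓝 (w 0)) := (hc.tendsto 0).mono_left nhdsWithin_le_nhds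
  have h3 : Tendsto w (𝓝[<] 0) (𝓝 0) := by
    apply tendsto_const_nhds.congr'
    filter_upwards [self_mem_nhdsWithin] with x hx
    exact (h1 x hx).symm
  exact tendsto_nhds_unique h2 h3

lemma weight_compact {w : ℝ → ℝ} (hw : IsWeight w) : HasCompactSupport w :=
  HasCompactSupport.of_support_subset_isCompact isCompact_Icc ((subset_tsupport w).trans hw.supp)

lemma weight_bdd {w : ℝ → ℝ} (hw : IsWeight w) : ∃ S : ℝ, 0 < S ∧ ∀ x, w x ≤ S := by
  obtain ⟨C, hC⟩ := (weight_compact hw).exists_bound_of_continuous hw.smooth.continuous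
  refine ⟨max C 1, by positivity, fun x => ?_⟩
  have := hC x
  rw [Real.norm_eq_abs] at this
  exact (le_abs_self _).trans (this.trans (le_max_left _ _))

lemma sum_Ico_eq {w : ℝ → ℝ} (hw : IsWeight w) (N : ℕ) (hN : 1 ≤ N) :
    ∑ n ∈ Finset.Ico 1 N, w ((n:ℝ) / N) = AN w N := by
  unfold AN
  rw [Finset.sum_range_eq_add_Ico _ (by omega : 0 < N)]
  simp [weight_zero hw]

theorem coeff : S_Coeff := by
  intro hR w hw hw2
  obtain ⟨S, hS0, hS⟩ := weight_bdd hw
  obtain ⟨L1, hL1, hR1⟩ := hR w hw.smooth (weight_compact hw)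
  have hsm2 : ContDiff ℝ (⊤ : ℕ∞) (fun x => w x ^ 2) := hw.smooth.pow 2
  have hcs2 : HasCompactSupport (fun x => w x ^ 2) := by
    refine HasCompactSupport.of_support_subset_isCompact (isCompact_Icc (a := (0:ℝ)) (b := 1)) ?_
    intro x hx
    apply hw.supp
    apply subset_tsupport
    intro h0
    apply hx
    simp [h0]
  obtain ⟨L2, hL2, hR2⟩ := hR (fun x => w x ^ 2) hsm2 hcs2
  rw [hw2] at hR2
  rw [hw.one] at hR1
  obtain ⟨N₁, hN₁⟩ := exists_nat_gt (2 * L1)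
  set K1 : ℝ := √(2 * S) with hK1
  have hK1pos : 0 < K1 := Real.sqrt_pos.mpr (by positivity)
  refine ⟨K1 + K1 ^ 5 + 4 * (L2 + 9 * L1), max N₁ 1, by positivity, le_max_right _ _, ?_⟩
  intro N hN
  have hN1 : 1 ≤ N := le_trans (le_max_right _ _) hN
  have hN2 : (N₁:ℝ) ≤ N := by exact_mod_cast le_trans (le_max_left _ _) hN
  have hNpos : (0:ℝ) < N := by exact_mod_cast hN1
  set A := AN w N with hA
  have hA0 := abs_le.mp (hR1 N hN1)
  have hAle : (N:ℝ) / 2 ≤ A := by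
    have : A = ∑ n ∈ Finset.range N, w ((n:ℝ) / N) := rfl
    linarith [hA0.1]
  have hAle2 : A ≤ 2 * N := by
    have : A = ∑ n ∈ Finset.range N, w ((n:ℝ) / N) := rfl
    linarith [hA0.2]
  have hAN : |A - N| ≤ L1 := by
    have : A = ∑ n ∈ Finset.range N, w ((n:ℝ) / N) := rfl
    rw [this]
    simpa using hR1 N hN1
  have hApos : 0 < A := by linarith [half_pos hNpos]
  have hsqA : √A ^ 2 = A := Real.sq_sqrt hApos.le
  have hsqApos : 0 < √A := Real.sqrt_pos.mpr hApos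
  have hth0 : ∀ n, 0 ≤ th w N n := fun n => by unfold th; positivity
  have hth2 : ∀ n, th w N n ^ 2 = w ((n:ℝ) / N) / A := by
    intro n
    rw [th, div_pow, Real.sq_sqrt (hw.nonneg _), Real.sq_sqrt hApos.le]
  have hsN : √(N:ℝ) ^ 2 = N := Real.sq_sqrt hNpos.le
  have hsNpos : 0 < √(N:ℝ) := Real.sqrt_pos.mpr hNpos
  have hthle : ∀ n, th w N n ≤ K1 / √(N:ℝ) := by
    intro n
    apply le_of_sq_le_sq _ (by positivity)
    rw [hth2, div_pow, hsN, hK1, Real.sq_sqrt (by positivity)]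
    rw [div_le_div_iff₀ hApos hNpos]
    have h1 := hS ((n:ℝ) / N)
    have h2 := hw.nonneg ((n:ℝ) / N)
    nlinarith
  refine ⟨hAle, hAle2, ?_, ?_, ?_, ?_⟩
  · intro n _
    rw [abs_of_nonneg (hth0 n)]
    refine (hthle n).trans ?_
    apply div_le_div_of_nonneg_right _ hsNpos.le
    have : 0 ≤ K1 ^ 5 + 4 * (L2 + 9 * L1) := by positivity
    linarith
  · simp_rw [hth2]
    rw [← Finset.sum_div, sum_Ico_eq hw N hN1]
    exact div_self hApos.ne'
  · have h1 : ∀ n ∈ Finset.Ico 1 N, |th w N n| ^ 5 ≤ (K1 / √(N:ℝ)) ^ 5 := by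
      intro n _
      rw [abs_of_nonneg (hth0 n)]
      exact pow_le_pow_left₀ (hth0 n) (hthle n) 5
    have h2 := Finset.sum_le_sum h1
    rw [Finset.sum_const, Nat.card_Ico, nsmul_eq_mul] at h2
    have h3 : ((N - 1 : ℕ) : ℝ) ≤ N := by
      have : N - 1 ≤ N := Nat.sub_le _ _
      exact_mod_cast this
    have h4 : (N:ℝ) ^ (3 / 2 : ℝ) = √(N:ℝ) ^ 3 := by
      rw [Real.sqrt_eq_rpow, ← Real.rpow_natCast, ← Real.rpow_mul hNpos.le]
      norm_num
    calc ∑ n ∈ Finset.Ico 1 N, |th w N n| ^ 5 ≤ ((N - 1 : ℕ) : ℝ) * (K1 / √(N:ℝ)) ^ 5 := h2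
      _ ≤ N * (K1 / √(N:ℝ)) ^ 5 := by gcongr
      _ = √(N:ℝ) ^ 2 * (K1 / √(N:ℝ)) ^ 5 := by rw [hsN]
      _ = K1 ^ 5 / √(N:ℝ) ^ 3 := by field_simp
      _ ≤ (K1 + K1 ^ 5 + 4 * (L2 + 9 * L1)) / √(N:ℝ) ^ 3 := by
        apply div_le_div_of_nonneg_right _ (by positivity)
        have : 0 ≤ K1 + 4 * (L2 + 9 * L1) := by positivity
        linarith
      _ = _ := by rw [h4]
  · have h1 : ∑ n ∈ Finset.Ico 1 N, th w N n ^ 4 =
        (∑ n ∈ Finset.range N, w ((n:ℝ) / N) ^ 2) / A ^ 2 := by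
      have e : ∀ n, th w N n ^ 4 = w ((n:ℝ) / N) ^ 2 / A ^ 2 := by
        intro n
        rw [show th w N n ^ 4 = (th w N n ^ 2) ^ 2 by ring, hth2, div_pow]
      simp_rw [e]
      rw [← Finset.sum_div, Finset.sum_range_eq_add_Ico _ (by omega : 0 < N)]
      simp [weight_zero hw]
    rw [h1]
    set Q := ∑ n ∈ Finset.range N, w ((n:ℝ) / N) ^ 2 with hQ
    have hQ3 : |Q - N * 3| ≤ L2 := hR2 N hN1
    have e2 : Q / A ^ 2 - 3 / N = ((Q - N * 3) * N - 3 * (A - N) * (A + N)) / (A ^ 2 * N) := by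
      field_simp; ring
    rw [e2, abs_div, abs_of_pos (by positivity : (0:ℝ) < A ^ 2 * N), div_le_div_iff₀ (by positivity) (by positivity)]
    have h5 : |(Q - N * 3) * N - 3 * (A - N) * (A + N)| ≤ (L2 + 9 * L1) * N := by
      calc |(Q - N * 3) * N - 3 * (A - N) * (A + N)| ≤
            |(Q - N * 3) * N| + |3 * (A - N) * (A + N)| := abs_sub _ _
        _ = |Q - N * 3| * N + 3 * |A - N| * (A + N) := by
          rw [abs_mul, abs_mul, abs_mul, abs_of_pos hNpos, abs_of_pos (by linarith : 0 < A + N)]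
          norm_num
        _ ≤ L2 * N + 3 * L1 * (3 * N) := by
          gcongr
          linarith
        _ = (L2 + 9 * L1) * N := by ring
    have h6 : (N:ℝ) ^ 2 ≤ 4 * A ^ 2 := by nlinarith
    calc |(Q - N * 3) * N - 3 * (A - N) * (A + N)| * (N:ℝ) ^ 2
        ≤ ((L2 + 9 * L1) * N) * (4 * A ^ 2) := by gcongr
      _ = (4 * (L2 + 9 * L1)) * (A ^ 2 * N) := by ring
      _ ≤ (K1 + K1 ^ 5 + 4 * (L2 + 9 * L1)) * (A ^ 2 * N) := by
        apply mul_le_mul_of_nonneg_right _ (by positivity)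
        have : 0 ≤ K1 + K1 ^ 5 := by positivity
        linarith

end Pool.Agent.Q293.EW
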