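import Pool.Agent.Q293.EW.Stm

set_option autoImplicit false

namespace Pool.Agent.Q293.EW

open MeasureTheory ProbabilityTheory Set Filter Topology

lemma pair_cos (x y : ℝ) : 1 - Real.cos (x - y) ≤ 2 * (1 - Real.cos x) + 2 * (1 - Real.cos y) := by
  have h : ∀ z : ℝ, 1 - Real.cos z = 2 * Real.sin (z / 2) ^ 2 := by
    intro z
    have := Real.cos_two_mul (z / 2)
    rw [show 2 * (z / 2) = z by ring] at this
    have h2 := Real.sin_sq_add_cos_sq (z / 2)
    linarith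
  rw [h, h, h, show (x - y) / 2 = x / 2 - y / 2 by ring, Real.sin_sub]
  set s := Real.sin (x / 2)
  set c := Real.cos (x / 2)
  set s' := Real.sin (y / 2)
  set c' := Real.cos (y / 2)
  have h1 : s ^ 2 + c ^ 2 = 1 := Real.sin_sq_add_cos_sq _
  have h2 : s' ^ 2 + c' ^ 2 = 1 := Real.sin_sq_add_cos_sq _
  have h3 : s ^ 2 * c' ^ 2 ≤ s ^ 2 := by
    have : c' ^ 2 ≤ 1 := by nlinarith [sq_nonneg s']
    nlinarith [sq_nonneg s]
  have h4 : c ^ 2 * s' ^ 2 ≤ s' ^ 2 := by
    have : c ^ 2 ≤ 1 := by nlinarith [sq_nonneg s]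
    nlinarith [sq_nonneg s']
  nlinarith [sq_nonneg (s * c' + c * s')]

lemma sub_cast (a b : ℕ) : (a:ℝ) - b ≤ ((a - b : ℕ) : ℝ) := by
  have h : a ≤ (a - b) + b := by omega
  have h2 : (a:ℝ) ≤ ((a - b : ℕ) : ℝ) + b := by exact_mod_cast h
  linarith

lemma pair_sum (a b p q : ℝ) (hp : 0 ≤ p) (hpq : p < q) (hq : q ≤ 1) (N m : ℕ) (hN : 1 ≤ N)
    (hm : (m:ℝ) ≤ (q - p) * N / 2) (f : ℝ → ℝ) (hf : ∀ x ∈ Icc p q, f x = a * x + b) (v : ℝ) :
    ((q - p) * N / 2 - 3) * (1 - Real.cos (v * a * m / N)) ≤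
      4 * ∑ n ∈ Finset.Ico 1 N, (1 - Real.cos (v * f ((n : ℝ) / N))) := by
  have hNpos : (0:ℝ) < N := by exact_mod_cast hN
  set n1 : ℕ := ⌈p * N⌉₊ + 1 with hn1
  set n2 : ℕ := ⌊q * N⌋₊ - m with hn2
  have hn1' : (n1:ℝ) ≤ p * N + 2 := by
    have := (Nat.ceil_lt_add_one (by positivity : 0 ≤ p * N)).le
    rw [hn1]; push_cast; linarith
  have hq0 : 0 ≤ q := by linarith
  have hfl : (⌊q * N⌋₊ : ℝ) ≤ q * N := Nat.floor_le (by positivity)
  have hfl2 : q * N - 1 < (⌊q * N⌋₊ : ℝ) := by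
    have := Nat.lt_floor_add_one (q * N); linarith
  have hcard : (q - p) * N / 2 - 3 ≤ ((Finset.Ico n1 n2).card : ℝ) := by
    rw [Nat.card_Ico]
    have h1 := sub_cast n2 n1
    have h2 : (⌊q * N⌋₊ : ℝ) - m ≤ (n2:ℝ) := sub_cast _ _
    linarith
  have hmem : ∀ n ∈ Finset.Ico n1 n2, p * N ≤ n ∧ ((n + m : ℕ) : ℝ) ≤ q * N ∧ 1 ≤ n ∧ n + m < N := by
    intro n hn
    rw [Finset.mem_Ico] at hn
    have h1 : n + m < ⌊q * N⌋₊ := by omega
    have h2 : ⌊q * N⌋₊ ≤ N := by
      have : (⌊q * N⌋₊ : ℝ) ≤ N := by nlinarith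
      exact_mod_cast this
    refine ⟨?_, ?_, by omega, by omega⟩
    · have h3 : ⌈p * N⌉₊ ≤ n := by omega
      exact (Nat.le_ceil _).trans (by exact_mod_cast h3)
    · have h4 : ((n + m : ℕ) : ℝ) ≤ (⌊q * N⌋₊ : ℝ) := by exact_mod_cast h1.le
      linarith
  have hnn : ∀ x : ℝ, 0 ≤ 1 - Real.cos x := fun x => by linarith [Real.cos_le_one x]
  have hterm : ∀ n ∈ Finset.Ico n1 n2, 1 - Real.cos (v * a * m / N) ≤
      2 * (1 - Real.cos (v * f (((n + m : ℕ) : ℝ) / N))) +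
      2 * (1 - Real.cos (v * f ((n : ℝ) / N))) := by
    intro n hn
    obtain ⟨h1, h2, h3, h4⟩ := hmem n hn
    have hpc := pair_cos (v * f (((n + m : ℕ) : ℝ) / N)) (v * f ((n : ℝ) / N))
    have hn' : (n:ℝ) ≤ ((n + m : ℕ) : ℝ) := by push_cast; linarith [Nat.cast_nonneg (α := ℝ) m]
    have e1 : f (((n + m : ℕ) : ℝ) / N) = a * (((n + m : ℕ) : ℝ) / N) + b := by
      apply hf
      constructor
      · rw [le_div_iff₀ hNpos]; linarith
      · rw [div_le_iff₀ hNpos]; linarith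
    have e2 : f ((n:ℝ) / N) = a * ((n:ℝ) / N) + b := by
      apply hf
      constructor
      · rw [le_div_iff₀ hNpos]; linarith
      · rw [div_le_iff₀ hNpos]; linarith
    have e3 : v * f (((n + m : ℕ) : ℝ) / N) - v * f ((n : ℝ) / N) = v * a * m / N := by
      rw [e1, e2]; push_cast; ring
    rw [e3] at hpc
    exact hpc
  have hs1 : ∑ n ∈ Finset.Ico n1 n2, (1 - Real.cos (v * f ((n : ℝ) / N))) ≤
      ∑ n ∈ Finset.Ico 1 N, (1 - Real.cos (v * f ((n : ℝ) / N))) := by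
    apply Finset.sum_le_sum_of_subset_of_nonneg
    · intro n hn
      obtain ⟨-, -, h3, h4⟩ := hmem n hn
      rw [Finset.mem_Ico]; omega
    · intro n _ _; exact hnn _
  have hs2 : ∑ n ∈ Finset.Ico n1 n2, (1 - Real.cos (v * f (((n + m : ℕ) : ℝ) / N))) ≤
      ∑ n ∈ Finset.Ico 1 N, (1 - Real.cos (v * f ((n : ℝ) / N))) := by
    rw [← Finset.sum_image (s := Finset.Ico n1 n2) (g := fun n => n + m)
      (f := fun k : ℕ => 1 - Real.cos (v * f ((k : ℝ) / N)))
      (fun x _ y _ h => by simpa using h)]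
    apply Finset.sum_le_sum_of_subset_of_nonneg
    · intro k hk
      rw [Finset.mem_image] at hk
      obtain ⟨n, hn, rfl⟩ := hk
      obtain ⟨-, -, h3, h4⟩ := hmem n hn
      rw [Finset.mem_Ico]; omega
    · intro n _ _; exact hnn _
  calc ((q - p) * N / 2 - 3) * (1 - Real.cos (v * a * m / N))
      ≤ ((Finset.Ico n1 n2).card : ℝ) * (1 - Real.cos (v * a * m / N)) :=
        mul_le_mul_of_nonneg_right hcard (hnn _)
    _ = ∑ _n ∈ Finset.Ico n1 n2, (1 - Real.cos (v * a * m / N)) := by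
        rw [Finset.sum_const, nsmul_eq_mul]
    _ ≤ ∑ n ∈ Finset.Ico n1 n2, (2 * (1 - Real.cos (v * f (((n + m : ℕ) : ℝ) / N))) +
      2 * (1 - Real.cos (v * f ((n : ℝ) / N)))) := Finset.sum_le_sum hterm
    _ = 2 * ∑ n ∈ Finset.Ico n1 n2, (1 - Real.cos (v * f (((n + m : ℕ) : ℝ) / N))) +
      2 * ∑ n ∈ Finset.Ico n1 n2, (1 - Real.cos (v * f ((n : ℝ) / N))) := by
        rw [Finset.sum_add_distrib, Finset.mul_sum, Finset.mul_sum]
    _ ≤ 4 * ∑ n ∈ Finset.Ico 1 N, (1 - Real.cos (v * f ((n : ℝ) / N))) := by linarith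

lemma cos_pos (a b p q : ℝ) (ha : 0 < a) (hp : 0 ≤ p) (hpq : p < q) (hq : q ≤ 1) (N : ℕ)
    (hN : 12 / (q - p) ≤ N) (f : ℝ → ℝ) (hf : ∀ x ∈ Icc p q, f x = a * x + b) (v : ℝ)
    (hv0 : 0 ≤ v) (hv : v ≤ Real.pi / (2 * a) * N) :
    min ((q - p) * (2 / Real.pi ^ 2 * (a * (q - p) / 4) ^ 2) / 16) ((q - p) / 16) * N *
      min (v ^ 2) 1 ≤ ∑ n ∈ Finset.Ico 1 N, (1 - Real.cos (v * f ((n : ℝ) / N))) := by
  have hπ := Real.pi_pos
  set l := q - p with hl
  have hl0 : 0 < l := by rw [hl]; linarith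
  rw [div_le_iff₀ hl0] at hN
  have hNpos : (0:ℝ) < N := by
    by_contra h
    push Not at h
    nlinarith
  have hN1 : 1 ≤ N := by
    have : (0:ℝ) < N := hNpos
    exact_mod_cast this
  have hlN : l * N / 4 ≤ l * N / 2 - 3 := by linarith
  have hmn : 0 ≤ min (v ^ 2) 1 := le_min (sq_nonneg _) zero_le_one
  rcases le_or_gt (v * (a * l)) (2 * Real.pi) with hc | hc
  · set m := ⌊l * N / 2⌋₊ with hm
    have hm1 : (m:ℝ) ≤ l * N / 2 := Nat.floor_le (by positivity)
    have hm2 : l * N / 4 ≤ m := by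
      have := Nat.lt_floor_add_one (l * N / 2)
      rw [← hm] at this
      linarith
    have hps := pair_sum a b p q hp hpq hq N m hN1 hm1 f hf v
    have hz1 : v * a * m / N ≤ Real.pi := by
      rw [div_le_iff₀ hNpos]
      calc v * a * m ≤ v * a * (l * N / 2) := by gcongr
        _ = (v * (a * l)) * (N / 2) := by ring
        _ ≤ (2 * Real.pi) * (N / 2) := by gcongr
        _ = Real.pi * N := by ring
    have hz0 : 0 ≤ v * a * m / N := by positivity
    have hz2 : v * (a * l / 4) ≤ v * a * m / N := by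
      rw [le_div_iff₀ hNpos]
      calc v * (a * l / 4) * N = v * a * (l * N / 4) := by ring
        _ ≤ v * a * m := by gcongr
    have hcos := Real.cos_le_one_sub_mul_cos_sq (x := v * a * m / N)
      (by rw [abs_of_nonneg hz0]; exact hz1)
    have hsq : (v * (a * l / 4)) ^ 2 ≤ (v * a * m / N) ^ 2 := pow_le_pow_left₀ (by positivity) hz2 2
    have h1 : 2 / Real.pi ^ 2 * (a * l / 4) ^ 2 * v ^ 2 ≤ 1 - Real.cos (v * a * m / N) := by
      have : 2 / Real.pi ^ 2 * (v * (a * l / 4)) ^ 2 ≤ 2 / Real.pi ^ 2 * (v * a * m / N) ^ 2 := by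
        gcongr
      calc 2 / Real.pi ^ 2 * (a * l / 4) ^ 2 * v ^ 2 = 2 / Real.pi ^ 2 * (v * (a * l / 4)) ^ 2 := by
            ring
        _ ≤ _ := this
        _ ≤ _ := by linarith
    have h2 : (l * N / 4) * (2 / Real.pi ^ 2 * (a * l / 4) ^ 2 * v ^ 2) ≤
        4 * ∑ n ∈ Finset.Ico 1 N, (1 - Real.cos (v * f ((n : ℝ) / N))) := by
      refine le_trans ?_ hps
      gcongr
      linarith [show 0 ≤ l * N / 4 by positivity]
    calc min (l * (2 / Real.pi ^ 2 * (a * l / 4) ^ 2) / 16) (l / 16) * N * min (v ^ 2) 1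
        ≤ (l * (2 / Real.pi ^ 2 * (a * l / 4) ^ 2) / 16) * N * v ^ 2 := by
          gcongr
          · exact min_le_left _ _
          · exact min_le_left _ _
      _ ≤ _ := by linarith
  · have hvpos : 0 < v := by
      rcases hv0.lt_or_eq with h | h
      · exact h
      · rw [← h] at hc; linarith
    set m := ⌊Real.pi * N / (v * a)⌋₊ with hm
    have hx2 : 2 ≤ Real.pi * N / (v * a) := by
      rw [le_div_iff₀ (by positivity)]
      have := mul_le_mul_of_nonneg_right hv ha.le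
      calc 2 * (v * a) ≤ 2 * (Real.pi / (2 * a) * N * a) := by linarith
        _ = Real.pi * N := by field_simp
    have hm1 : (m:ℝ) ≤ Real.pi * N / (v * a) := Nat.floor_le (by positivity)
    have hm2 : Real.pi * N / (v * a) / 2 ≤ m := by
      have := Nat.lt_floor_add_one (Real.pi * N / (v * a))
      rw [← hm] at this
      linarith
    have hm3 : (m:ℝ) ≤ l * N / 2 := by
      refine hm1.trans ?_
      rw [div_le_iff₀ (by positivity)]
      have := mul_le_mul_of_nonneg_right hc.le hNpos.le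
      linarith
    have hps := pair_sum a b p q hp hpq hq N m hN1 hm3 f hf v
    have hz1 : v * a * m / N ≤ Real.pi := by
      rw [div_le_iff₀ hNpos]
      rw [le_div_iff₀ (by positivity)] at hm1
      linarith
    have hz2 : Real.pi / 2 ≤ v * a * m / N := by
      rw [le_div_iff₀ hNpos]
      rw [div_div, div_le_iff₀ (by positivity)] at hm2
      linarith
    have hcos : Real.cos (v * a * m / N) ≤ 0 :=
      Real.cos_nonpos_of_pi_div_two_le_of_le hz2 (by linarith)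
    have h2 : (l * N / 4) * 1 ≤
        4 * ∑ n ∈ Finset.Ico 1 N, (1 - Real.cos (v * f ((n : ℝ) / N))) := by
      refine le_trans ?_ hps
      apply mul_le_mul hlN (by linarith) zero_le_one
      linarith [show 0 ≤ l * N / 4 by positivity]
    calc min (l * (2 / Real.pi ^ 2 * (a * l / 4) ^ 2) / 16) (l / 16) * N * min (v ^ 2) 1
        ≤ (l / 16) * N * 1 := by
          gcongr
          · exact min_le_right _ _
          · exact min_le_right _ _
      _ ≤ _ := by linarith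

theorem cosj : S_Cos := by
  intro a b p q ha hp hpq hq
  have hl0 : 0 < q - p := by linarith
  have hπ := Real.pi_pos
  refine ⟨Real.pi / (2 * a),
    min ((q - p) * (2 / Real.pi ^ 2 * (a * (q - p) / 4) ^ 2) / 16) ((q - p) / 16),
    ⌈12 / (q - p)⌉₊, by positivity, by positivity, ?_⟩
  intro N hN f hf v hv
  have hN' : 12 / (q - p) ≤ N := (Nat.le_ceil _).trans (by exact_mod_cast hN)
  rcases le_total 0 v with h | h
  · exact cos_pos a b p q ha hp hpq hq N hN' f hf v h (by rwa [abs_of_nonneg h] at hv)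
  · have := cos_pos a b p q ha hp hpq hq N hN' f hf (-v) (by linarith)
      (by rwa [abs_of_nonpos h] at hv)
    simpa [neg_mul, Real.cos_neg] using this

end Pool.Agent.Q293.EW
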