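import Pool.Agent.Q293.EW.Stm

/-! # Gaussian moments and the Fourier transform of the Hermite functions -/

set_option autoImplicit false

namespace Pool.Agent.Q293.EW

open MeasureTheory ProbabilityTheory Set Filter Topology

lemma ph_cont : Continuous ph := by unfold ph; fun_prop

lemma ph_nn (x : ℝ) : 0 ≤ ph x := by unfold ph; positivity

lemma ph_pow_int (k : ℕ) : Integrable (fun x : ℝ => x ^ k * ph x) := by
  have h := integrable_rpow_mul_exp_neg_mul_sq (b := 1 / 2) (by norm_num) (s := (k : ℝ))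
      (by have := Nat.cast_nonneg (α := ℝ) k; linarith)
  have h2 := h.const_mul ((√(2 * Real.pi))⁻¹)
  refine h2.congr (Eventually.of_forall fun x => ?_)
  simp only [Real.rpow_natCast]
  unfold ph
  rw [show -x ^ 2 / 2 = -(1 / 2) * x ^ 2 by ring]
  ring

lemma ph_deriv (x : ℝ) : HasDerivAt ph (-x * ph x) x := by
  unfold ph
  have h1 : HasDerivAt (fun x : ℝ => -x ^ 2 / 2) (-x) x := by
    have := ((hasDerivAt_pow 2 x).neg).div_const 2
    refine this.congr_deriv ?_
    push_cast
    ring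
  have h2 := (h1.exp).const_mul ((√(2 * Real.pi))⁻¹)
  refine h2.congr_deriv ?_
  ring

/-- the Gaussian transform of a function -/
noncomputable def gt (P : ℝ → ℝ) (t : ℝ) : ℂ :=
  ∫ x, Complex.exp (((t * x : ℝ) : ℂ) * Complex.I) * ((P x * ph x : ℝ) : ℂ)

lemma gt_int (P : ℝ → ℝ) (t : ℝ) (h : Integrable (fun x => P x * ph x)) :
    Integrable (fun x => Complex.exp (((t * x : ℝ) : ℂ) * Complex.I) * ((P x * ph x : ℝ) : ℂ)) := by
  apply h.ofReal.bdd_mul (c := 1)
  · apply Continuous.aestronglyMeasurable; fun_prop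
  · refine Filter.Eventually.of_forall fun v => ?_
    rw [Complex.norm_exp_ofReal_mul_I]

lemma gt_one (t : ℝ) : gt (fun _ => 1) t = Complex.exp (-((t : ℂ) ^ 2 / 2)) := by
  have h1 : charFun (gaussianReal 0 1) t = Complex.exp (-((t : ℂ) ^ 2 / 2)) := by
    rw [charFun_gaussianReal]
    congr 1
    simp
  rw [← h1, charFun_apply_real, integral_gaussianReal_eq_integral_smul (by norm_num)]
  unfold gt
  congr 1
  funext x
  have : gaussianPDFReal 0 1 x = ph x := by simp [ph, gaussianPDFReal]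
  rw [this, Complex.real_smul]
  push_cast
  ring

lemma gt_step (P P' : ℝ → ℝ) (hP : ∀ x, HasDerivAt P (P' x) x)
    (h1 : Integrable (fun x => P x * ph x)) (h2 : Integrable (fun x => (x * P x - P' x) * ph x))
    (t : ℝ) : gt (fun x => x * P x - P' x) t = (t : ℂ) * Complex.I * gt P t := by
  have hu : ∀ x : ℝ, HasDerivAt (fun x : ℝ => Complex.exp (((t * x : ℝ) : ℂ) * Complex.I))
      ((t : ℂ) * Complex.I * Complex.exp (((t * x : ℝ) : ℂ) * Complex.I)) x := by
    intro x
    have e1 : HasDerivAt (fun x : ℝ => ((t * x : ℝ) : ℂ) * Complex.I) ((t : ℂ) * Complex.I) x := by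
      have e2 : HasDerivAt (fun x : ℝ => (t * x : ℝ)) t x := by
        simpa using (hasDerivAt_id x).const_mul t
      exact (e2.ofReal_comp).mul_const Complex.I
    refine (e1.cexp).congr_deriv ?_
    ring
  have hv : ∀ x : ℝ, HasDerivAt (fun x : ℝ => ((-(P x * ph x) : ℝ) : ℂ))
      (((x * P x - P' x) * ph x : ℝ) : ℂ) x := by
    intro x
    have e1 := ((hP x).mul (ph_deriv x)).neg
    have e2 := e1.ofReal_comp
    refine e2.congr_deriv ?_
    congr 1
    ring
  have h1' : Integrable (fun x => -(P x * ph x)) := h1.neg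
  have i1 := gt_int _ t h2
  have i2 := gt_int P t h1
  have hib := integral_mul_deriv_eq_deriv_mul_of_integrable
    (u := fun x : ℝ => Complex.exp (((t * x : ℝ) : ℂ) * Complex.I))
    (v := fun x : ℝ => ((-(P x * ph x) : ℝ) : ℂ))
    (u' := fun x : ℝ => (t : ℂ) * Complex.I * Complex.exp (((t * x : ℝ) : ℂ) * Complex.I))
    (v' := fun x : ℝ => (((x * P x - P' x) * ph x : ℝ) : ℂ))
    (fun x _ => hu x) (fun x _ => hv x) i1
    (by
      have := (i2.const_mul ((t : ℂ) * Complex.I)).neg
      refine this.congr (Eventually.of_forall fun x => ?_)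
      simp only [Pi.neg_apply, Pi.mul_apply]
      push_cast
      ring)
    (by
      have := i2.neg
      refine this.congr (Eventually.of_forall fun x => ?_)
      simp only [Pi.neg_apply, Pi.mul_apply]
      push_cast
      ring)
  unfold gt
  rw [hib, ← integral_const_mul, ← integral_neg]
  congr 1
  funext x
  push_cast
  ring

/-- the fourth Hermite polynomial -/
noncomputable def H4 (x : ℝ) : ℝ := x ^ 4 - 6 * x ^ 2 + 3

lemma poly_int (a b c d e : ℝ) : Integrable (fun x : ℝ =>
    (a * x ^ 4 + b * x ^ 3 + c * x ^ 2 + d * x + e) * ph x) := by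
  have h := (((((ph_pow_int 4).const_mul a).add ((ph_pow_int 3).const_mul b)).add
    ((ph_pow_int 2).const_mul c)).add ((ph_pow_int 1).const_mul d)).add ((ph_pow_int 0).const_mul e)
  refine h.congr (Eventually.of_forall fun x => ?_)
  simp only [Pi.add_apply]
  ring

lemma gt_H4 (t : ℝ) : gt H4 t = (t : ℂ) ^ 4 * Complex.exp (-((t : ℂ) ^ 2 / 2)) := by
  have s1 := gt_step (fun _ => 1) (fun _ => 0) (fun x => hasDerivAt_const x 1)
    (by simpa using poly_int 0 0 0 0 1) (by simpa using poly_int 0 0 0 1 0) t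
  have e1 : (fun x : ℝ => x * 1 - 0) = fun x => x := by funext x; ring
  rw [e1] at s1
  have s2 := gt_step (fun x => x) (fun _ => 1) (fun x => hasDerivAt_id x)
    (by simpa using poly_int 0 0 0 1 0)
    ((poly_int 0 0 1 0 (-1)).congr (Eventually.of_forall fun x => by simp only; ring)) t
  have s3 := gt_step (fun x => x * x - 1) (fun x => 2 * x) (fun x => by
      have := ((hasDerivAt_id x).mul (hasDerivAt_id x)).sub_const 1
      refine this.congr_deriv ?_
      simp only [id]
      ring)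
    ((poly_int 0 0 1 0 (-1)).congr (Eventually.of_forall fun x => by simp only; ring))
    ((poly_int 0 1 0 (-3) 0).congr (Eventually.of_forall fun x => by simp only; ring)) t
  have s4 := gt_step (fun x => x * (x * x - 1) - 2 * x) (fun x => 3 * x ^ 2 - 3) (fun x => by
      have h1 := ((hasDerivAt_id x).mul (((hasDerivAt_id x).mul (hasDerivAt_id x)).sub_const 1)).sub
        ((hasDerivAt_id x).const_mul 2)
      refine h1.congr_deriv ?_
      simp only [id, Pi.mul_apply]
      ring)
    ((poly_int 0 1 0 (-3) 0).congr (Eventually.of_forall fun x => by simp only; ring))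
    ((poly_int 1 0 (-6) 0 3).congr (Eventually.of_forall fun x => by simp only; ring)) t
  have e4 : (fun x : ℝ => x * (x * (x * x - 1) - 2 * x) - (3 * x ^ 2 - 3)) = H4 := by
    funext x; unfold H4; ring
  rw [e4] at s4
  rw [s4, s3, s2, s1, gt_one]
  have hI : Complex.I ^ 4 = 1 := Complex.I_pow_four
  linear_combination ((t:ℂ) ^ 4 * Complex.exp (-((t : ℂ) ^ 2 / 2))) * hI

lemma gt_zero_re (P : ℝ → ℝ) : gt P 0 = ((∫ x, P x * ph x : ℝ) : ℂ) := by
  unfold gt
  rw [← integral_complex_ofReal]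
  congr 1
  funext x
  simp

lemma int_ph : ∫ x, ph x = 1 := by
  have h : ph = gaussianPDFReal 0 1 := by
    funext x
    simp [ph, gaussianPDFReal]
  rw [h]
  exact integral_gaussianPDFReal_eq_one 0 one_ne_zero

lemma int_sq_ph : ∫ x, x ^ 2 * ph x = 1 := by
  have s2 := gt_step (fun x => x) (fun _ => 1) (fun x => hasDerivAt_id x)
    (by simpa using poly_int 0 0 0 1 0)
    ((poly_int 0 0 1 0 (-1)).congr (Eventually.of_forall fun x => by simp only; ring)) 0
  rw [gt_zero_re] at s2
  simp only [Complex.ofReal_zero, zero_mul] at s2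
  have h : ∫ x, (x * x - 1) * ph x = 0 := by exact_mod_cast s2
  have h2 : ∫ x, (x * x - 1) * ph x = (∫ x, x ^ 2 * ph x) - ∫ x, ph x := by
    rw [← integral_sub (ph_pow_int 2) (by simpa using ph_pow_int 0)]
    congr 1
    funext x
    ring
  rw [h2, int_ph] at h
  linarith

lemma int_H4_ph : ∫ x, H4 x * ph x = 0 := by
  have h := gt_H4 0
  rw [gt_zero_re] at h
  have h2 : (((∫ x, H4 x * ph x) : ℝ) : ℂ) = 0 := by rw [h]; simp
  exact_mod_cast h2

lemma int_four_ph : ∫ x, (x ^ 4 + 3) * ph x = 6 := by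
  have h1 := int_H4_ph
  have h2 : ∫ x, H4 x * ph x = (∫ x, (x ^ 4 + 3) * ph x) - 6 * ∫ x, x ^ 2 * ph x := by
    rw [← integral_const_mul, ← integral_sub]
    · congr 1
      funext x
      unfold H4
      ring
    · exact (poly_int 1 0 0 0 3).congr (Eventually.of_forall fun x => by simp only; ring)
    · exact (ph_pow_int 2).const_mul 6
  rw [h2, int_sq_ph] at h1
  linarith

lemma int_Iic_H4 (a : ℝ) : ∫ x in Iic a, H4 x * ph x = -((a ^ 3 - 3 * a) * ph a) := by
  have hd : ∀ x : ℝ, HasDerivAt (fun x => -((x ^ 3 - 3 * x) * ph x)) (H4 x * ph x) x := by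
    intro x
    have h1 := ((((hasDerivAt_pow 3 x).sub ((hasDerivAt_id x).const_mul 3))).mul (ph_deriv x)).neg
    refine h1.congr_deriv ?_
    unfold H4
    simp only [Pi.sub_apply, id]
    push_cast
    ring
  have hi : Integrable (fun x => H4 x * ph x) :=
    (poly_int 1 0 (-6) 0 3).congr (Eventually.of_forall fun x => by simp only [H4]; ring)
  have hi2 : Integrable (fun x => -((x ^ 3 - 3 * x) * ph x)) :=
    (poly_int 0 (-1) 0 3 0).congr (Eventually.of_forall fun x => by simp only; ring)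
  have ht := tendsto_zero_of_hasDerivAt_of_integrableOn_Iic (a := a) (fun x _ => hd x)
    hi.integrableOn hi2.integrableOn
  rw [integral_Iic_of_hasDerivAt_of_tendsto' (fun x _ => hd x) hi.integrableOn ht, sub_zero]

lemma ph_bounds (x : ℝ) : ph x ≤ 1 ∧ x ^ 2 * ph x ≤ 2 ∧ x ^ 4 * ph x ≤ 8 := by
  have h1 : (√(2 * Real.pi))⁻¹ ≤ 1 := by
    apply inv_le_one_of_one_le₀
    rw [Real.one_le_sqrt]
    have := Real.pi_gt_three
    linarith
  have h2 : 1 + x ^ 2 / 2 + (x ^ 2 / 2) ^ 2 / 2 ≤ Real.exp (x ^ 2 / 2) :=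
    Real.quadratic_le_exp_of_nonneg (by positivity)
  have h4 : Real.exp (-x ^ 2 / 2) * Real.exp (x ^ 2 / 2) = 1 := by
    rw [← Real.exp_add]; simp [show -x ^ 2 / 2 + x ^ 2 / 2 = 0 by ring]
  have key : ∀ y : ℝ, 0 ≤ y → ∀ c : ℝ, y ≤ c * Real.exp (x ^ 2 / 2) → y * ph x ≤ c := by
    intro y hy c hyc
    have hc : 0 ≤ c * Real.exp (x ^ 2 / 2) := hy.trans hyc
    have hc0 : 0 ≤ c := by
      by_contra hneg
      push Not at hneg
      have := mul_neg_of_neg_of_pos hneg (Real.exp_pos (x ^ 2 / 2))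
      linarith
    have h5 : y * Real.exp (-x ^ 2 / 2) ≤ c := by
      calc y * Real.exp (-x ^ 2 / 2) ≤ (c * Real.exp (x ^ 2 / 2)) * Real.exp (-x ^ 2 / 2) := by gcongr
        _ = c * (Real.exp (-x ^ 2 / 2) * Real.exp (x ^ 2 / 2)) := by ring
        _ = c := by rw [h4, mul_one]
    calc y * ph x = (√(2 * Real.pi))⁻¹ * (y * Real.exp (-x ^ 2 / 2)) := by unfold ph; ring
      _ ≤ 1 * c := mul_le_mul h1 h5 (by positivity) zero_le_one
      _ = c := one_mul c
  refine ⟨?_, key (x ^ 2) (by positivity) 2 (by nlinarith [sq_nonneg (x ^ 2)]),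
    key (x ^ 4) (by positivity) 8 (by nlinarith [sq_nonneg x])⟩
  have := key 1 zero_le_one 1 (by nlinarith [sq_nonneg (x ^ 2), sq_nonneg x])
  simpa using this

end Pool.Agent.Q293.EW
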