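import Pool.Agent.Q293.EW.EssPair
import Pool.Agent.Q293.EW.Herm

/-! # Esseen's smoothing inequality for the corrected normal law -/

set_option autoImplicit false

namespace Pool.Agent.Q293.EW

open MeasureTheory ProbabilityTheory Set Filter Topology

/-- the measure with density `p` -/
noncomputable def dm (p : ℝ → ℝ) : Measure ℝ := volume.withDensity (fun x => ENNReal.ofReal (p x))

lemma dm_apply (p : ℝ → ℝ) (hp : Integrable p) (hp0 : ∀ x, 0 ≤ p x) (s : Set ℝ)
    (hs : MeasurableSet s) : dm p s = ENNReal.ofReal (∫ x in s, p x) := by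
  unfold dm
  rw [withDensity_apply _ hs, ofReal_integral_eq_lintegral_ofReal hp.integrableOn
    (Eventually.of_forall fun x => hp0 x)]

lemma dm_finite (p : ℝ → ℝ) (hp : Integrable p) (hp0 : ∀ x, 0 ≤ p x) : IsFiniteMeasure (dm p) :=
  ⟨by rw [dm_apply p hp hp0 univ MeasurableSet.univ]; exact ENNReal.ofReal_lt_top⟩

lemma dm_integral (p : ℝ → ℝ) (hpm : Measurable p) (hp0 : ∀ x, 0 ≤ p x) (f : ℝ → ℂ) :
    ∫ x, f x ∂(dm p) = ∫ x, f x * ((p x : ℝ) : ℂ) := by
  unfold dm
  rw [integral_withDensity_eq_integral_toReal_smul (by fun_prop)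
    (Eventually.of_forall fun x => ENNReal.ofReal_lt_top)]
  congr 1
  funext x
  rw [ENNReal.toReal_ofReal (hp0 x), Complex.real_smul]
  ring

/-- Esseen's inequality for the comparison of `ν + p dx` with `g dx` -/
lemma ess_mix (ν : Measure ℝ) [IsProbabilityMeasure ν] (p g : ℝ → ℝ) (hpc : Continuous p)
    (hgc : Continuous g) (hp : Integrable p) (hg : Integrable g) (hp0 : ∀ x, 0 ≤ p x)
    (hg0 : ∀ x, 0 ≤ g x) (A L : ℝ) (hA : 0 ≤ A) (hpA : ∫ x, p x = A) (hgA : ∫ x, g x = 1 + A)
    (hL : 0 < L) (hgL : ∀ x, g x ≤ L) (R : ℝ) (b : ℝ → ℝ) (hR : 0 < R) (hb : Continuous b)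
    (h : ∀ t, 0 < t → t ≤ R → ‖charFun ν t +
      (∫ x, Complex.exp (((t * x : ℝ) : ℂ) * Complex.I) * ((p x : ℝ) : ℂ)) -
      (∫ x, Complex.exp (((t * x : ℝ) : ℂ) * Complex.I) * ((g x : ℝ) : ℂ))‖ ≤ t * b t) (x : ℝ) :
    |ν.real (Iic x) + (∫ y in Iic x, p y) - ∫ y in Iic x, g y| ≤
      2 / Real.pi * (∫ t in (0:ℝ)..R, b t) + 24 * L / (Real.pi * R) := by
  have hA1 : 0 < 1 + A := by linarith
  have hpi := Real.pi_pos
  have hfp := dm_finite p hp hp0
  have hfg := dm_finite g hg hg0
  set κ : ENNReal := ENNReal.ofReal (1 / (1 + A)) with hκ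
  have hκr : κ.toReal = 1 / (1 + A) := ENNReal.toReal_ofReal (by positivity)
  have hκ' : κ * ENNReal.ofReal (1 + A) = 1 := by
    rw [hκ, ← ENNReal.ofReal_mul (by positivity), one_div, inv_mul_cancel₀ hA1.ne']
    exact ENNReal.ofReal_one
  set μ' : Measure ℝ := κ • (ν + dm p) with hμ'
  set ν' : Measure ℝ := κ • dm g with hν'
  have p1 : IsProbabilityMeasure μ' := by
    constructor
    rw [hμ', Measure.smul_apply, Measure.add_apply, measure_univ,
      dm_apply p hp hp0 univ MeasurableSet.univ, setIntegral_univ, hpA, smul_eq_mul,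
      ← ENNReal.ofReal_one, ← ENNReal.ofReal_add zero_le_one hA, ENNReal.ofReal_one]
    exact hκ'
  have p2 : IsProbabilityMeasure ν' := by
    constructor
    rw [hν', Measure.smul_apply, dm_apply g hg hg0 univ MeasurableSet.univ, setIntegral_univ, hgA,
      smul_eq_mul]
    exact hκ'
  have r1 : ∀ s : Set ℝ, MeasurableSet s →
      μ'.real s = 1 / (1 + A) * (ν.real s + ∫ y in s, p y) := by
    intro s hs
    rw [hμ', measureReal_def, Measure.smul_apply, Measure.add_apply, smul_eq_mul,
      ENNReal.toReal_mul, hκr, ENNReal.toReal_add (measure_ne_top _ _) (measure_ne_top _ _),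
      dm_apply p hp hp0 s hs, ENNReal.toReal_ofReal (setIntegral_nonneg hs fun y _ => hp0 y)]
    rfl
  have r2 : ∀ s : Set ℝ, MeasurableSet s → ν'.real s = 1 / (1 + A) * ∫ y in s, g y := by
    intro s hs
    rw [hν', measureReal_def, Measure.smul_apply, smul_eq_mul,
      ENNReal.toReal_mul, hκr,
      dm_apply g hg hg0 s hs, ENNReal.toReal_ofReal (setIntegral_nonneg hs fun y _ => hg0 y)]
  have hexp : ∀ t x : ℝ, Complex.exp ((t : ℂ) * x * Complex.I) =
      Complex.exp (((t * x : ℝ) : ℂ) * Complex.I) := by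
    intro t x; push_cast; rfl
  have hbe : ∀ (m : Measure ℝ) [IsFiniteMeasure m] (t : ℝ),
      Integrable (fun x : ℝ => Complex.exp (((t * x : ℝ) : ℂ) * Complex.I)) m := by
    intro m _ t
    apply Integrable.of_bound (C := 1)
    · apply Continuous.aestronglyMeasurable; fun_prop
    · exact Eventually.of_forall fun z => by rw [Complex.norm_exp_ofReal_mul_I]
  have c1 : ∀ t, charFun μ' t = ((1 / (1 + A) : ℝ) : ℂ) * (charFun ν t +
      ∫ x, Complex.exp (((t * x : ℝ) : ℂ) * Complex.I) * ((p x : ℝ) : ℂ)) := by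
    intro t
    rw [charFun_apply_real, charFun_apply_real]
    simp_rw [hexp]
    rw [hμ', integral_smul_measure, integral_add_measure (hbe ν t) (hbe (dm p) t), hκr,
      dm_integral p hpc.measurable hp0, Complex.real_smul]
  have c2 : ∀ t, charFun ν' t = ((1 / (1 + A) : ℝ) : ℂ) *
      ∫ x, Complex.exp (((t * x : ℝ) : ℂ) * Complex.I) * ((g x : ℝ) : ℂ) := by
    intro t
    rw [charFun_apply_real]
    simp_rw [hexp]
    rw [hν', integral_smul_measure, hκr,
      dm_integral g hgc.measurable hg0, Complex.real_smul]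
  have hLip : ∀ a c : ℝ, a ≤ c → ν'.real (Iic c) - ν'.real (Iic a) ≤ L / (1 + A) * (c - a) := by
    intro a c hac
    rw [r2 _ measurableSet_Iic, r2 _ measurableSet_Iic, ← mul_sub,
      intervalIntegral.integral_Iic_sub_Iic hg.integrableOn hg.integrableOn]
    have h1 : ∫ y in a..c, g y ≤ ∫ _ in a..c, L :=
      intervalIntegral.integral_mono_on hac (hgc.intervalIntegrable _ _) (by simp)
        (fun y _ => hgL y)
    rw [intervalIntegral.integral_const, smul_eq_mul] at h1
    calc 1 / (1 + A) * ∫ y in a..c, g y ≤ 1 / (1 + A) * ((c - a) * L) := by gcongr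
      _ = L / (1 + A) * (c - a) := by ring
  have hE := essPair μ' ν' R (L / (1 + A)) (fun t => b t / (1 + A)) hR (by positivity) hLip
    (hb.div_const _) (by
      intro t ht htR
      rw [c1, c2, ← mul_sub, norm_mul, Complex.norm_real, Real.norm_eq_abs,
        abs_of_pos (by positivity)]
      have := h t ht htR
      calc 1 / (1 + A) * _ ≤ 1 / (1 + A) * (t * b t) := by gcongr
        _ = t * (b t / (1 + A)) := by ring) x
  rw [r1 _ measurableSet_Iic, r2 _ measurableSet_Iic, ← mul_sub, abs_mul,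
    abs_of_pos (by positivity : (0:ℝ) < 1 / (1 + A)), intervalIntegral.integral_div] at hE
  have h2 := mul_le_mul_of_nonneg_left hE hA1.le
  calc _ = (1 + A) * (1 / (1 + A) * |ν.real (Iic x) + (∫ y in Iic x, p y) - ∫ y in Iic x, g y|) := by
        field_simp
    _ ≤ _ := h2
    _ = _ := by field_simp

theorem ess : S_Ess := by
  have hpi := Real.pi_pos
  have hpi3 := Real.pi_gt_three
  refine ⟨312, by norm_num, ?_⟩
  intro ν _ c R b hc hR hb h x
  have hn2 : ∀ x : ℝ, 0 ≤ x ^ 2 * ph x := fun x => mul_nonneg (by positivity) (ph_nn x)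
  have hn4 : ∀ x : ℝ, 0 ≤ (x ^ 4 + 3) * ph x := fun x => mul_nonneg (by positivity) (ph_nn x)
  have hphc := ph_cont
  have i0 : Integrable ph := by simpa using ph_pow_int 0
  have i2 : Integrable (fun x => x ^ 2 * ph x) := ph_pow_int 2
  have i4 : Integrable (fun x => (x ^ 4 + 3) * ph x) :=
    (poly_int 1 0 0 0 3).congr (Eventually.of_forall fun x => by simp only; ring)
  have hgt : ∀ t : ℝ, gt (fun _ => 1) t + (c : ℂ) * gt H4 t = ((gc c t : ℝ) : ℂ) := by
    intro t
    rw [gt_one, gt_H4, gc]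
    push_cast
    rw [show -(t:ℂ) ^ 2 / 2 = -((t:ℂ) ^ 2 / 2) by ring]
    ring
  -- the common conclusion
  have key : ∀ p g : ℝ → ℝ, Continuous p → Continuous g → Integrable p → Integrable g →
      (∀ x, 0 ≤ p x) → (∀ x, 0 ≤ g x) → (∫ x, p x = 6 * |c|) → (∫ x, g x = 1 + 6 * |c|) →
      (∀ x, g x ≤ 13) → (∀ x, g x - p x = (1 + c * H4 x) * ph x) →
      |ν.real (Iic x) - Gc c x| ≤ 312 * ((∫ t in (0:ℝ)..R, b t) + 1 / R) := by
    intro p g hpc hgc hp hg hp0 hg0 hpA hgA hgL hgp
    have hdiff : ∀ t : ℝ, (∫ x, Complex.exp (((t * x : ℝ) : ℂ) * Complex.I) * ((g x : ℝ) : ℂ)) -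
        (∫ x, Complex.exp (((t * x : ℝ) : ℂ) * Complex.I) * ((p x : ℝ) : ℂ)) =
        ((gc c t : ℝ) : ℂ) := by
      intro t
      have ig : Integrable (fun x => Complex.exp (((t * x : ℝ) : ℂ) * Complex.I) * ((g x : ℝ) : ℂ)) := by
        apply hg.ofReal.bdd_mul (c := 1)
        · apply Continuous.aestronglyMeasurable; fun_prop
        · exact Eventually.of_forall fun v => by rw [Complex.norm_exp_ofReal_mul_I]
      have ip : Integrable (fun x => Complex.exp (((t * x : ℝ) : ℂ) * Complex.I) * ((p x : ℝ) : ℂ)) := by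
        apply hp.ofReal.bdd_mul (c := 1)
        · apply Continuous.aestronglyMeasurable; fun_prop
        · exact Eventually.of_forall fun v => by rw [Complex.norm_exp_ofReal_mul_I]
      rw [← integral_sub ig ip, ← hgt t]
      unfold gt
      rw [← integral_const_mul, ← integral_add]
      · congr 1
        funext y
        have := hgp y
        have e : ((g y : ℝ) : ℂ) = ((p y + (1 + c * H4 y) * ph y : ℝ) : ℂ) := by
          rw [← this]; congr 1; ring
        rw [e]
        push_cast
        ring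
      · exact gt_int _ t (by simpa using i0)
      · exact (gt_int H4 t ((poly_int 1 0 (-6) 0 3).congr (Eventually.of_forall fun x => by
          simp only [H4]; ring))).const_mul _
    have hE := ess_mix ν p g hpc hgc hp hg hp0 hg0 (6 * |c|) 13 (by positivity) hpA hgA
      (by norm_num) hgL R b hR hb (by
        intro t ht htR
        have := h t ht htR
        rw [← hdiff t] at this
        rw [show charFun ν t +
          (∫ x, Complex.exp (((t * x : ℝ) : ℂ) * Complex.I) * ((p x : ℝ) : ℂ)) -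
          (∫ x, Complex.exp (((t * x : ℝ) : ℂ) * Complex.I) * ((g x : ℝ) : ℂ)) = charFun ν t -
          ((∫ x, Complex.exp (((t * x : ℝ) : ℂ) * Complex.I) * ((g x : ℝ) : ℂ)) -
          (∫ x, Complex.exp (((t * x : ℝ) : ℂ) * Complex.I) * ((p x : ℝ) : ℂ))) by ring]
        exact this) x
    have hcdf : (∫ y in Iic x, g y) - (∫ y in Iic x, p y) = Gc c x := by
      rw [← integral_sub hg.integrableOn hp.integrableOn]
      simp_rw [hgp]
      have e : (fun y => (1 + c * H4 y) * ph y) = fun y => ph y + c * (H4 y * ph y) := by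
        funext y; ring
      rw [e, integral_add i0.integrableOn, integral_const_mul, int_Iic_H4]
      · unfold Gc; ring
      · exact (((poly_int 1 0 (-6) 0 3).congr (Eventually.of_forall fun x => by
          simp only [H4]; ring)).const_mul c).integrableOn
    have e : ν.real (Iic x) + (∫ y in Iic x, p y) - ∫ y in Iic x, g y =
        ν.real (Iic x) - Gc c x := by rw [← hcdf]; ring
    rw [e] at hE
    refine hE.trans ?_
    have hI : 0 ≤ ∫ t in (0:ℝ)..R, b t := by
      apply intervalIntegral.integral_nonneg_of_ae_restrict hR.le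
      rw [Filter.EventuallyLE, ae_restrict_iff' measurableSet_Icc]
      have h0 : ∀ᵐ t : ℝ, t ≠ 0 := by simp [ae_iff]
      filter_upwards [h0] with t ht0 ht
      have ht1 : 0 < t := lt_of_le_of_ne ht.1 (Ne.symm ht0)
      have h1 := (norm_nonneg _).trans (h t ht1 ht.2)
      exact nonneg_of_mul_nonneg_right h1 ht1
    have h1 : 2 / Real.pi * (∫ t in (0:ℝ)..R, b t) ≤ 312 * ∫ t in (0:ℝ)..R, b t := by
      apply mul_le_mul_of_nonneg_right _ hI
      rw [div_le_iff₀ hpi]; linarith
    have h2 : 24 * 13 / (Real.pi * R) ≤ 312 * (1 / R) := by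
      rw [mul_one_div, div_le_div_iff₀ (by positivity) hR]
      nlinarith
    linarith
  rcases le_total 0 c with h0 | h0
  · have hac : |c| = c := abs_of_nonneg h0
    have hc1 : c ≤ 1 := by rw [← hac]; exact hc
    refine key (fun x => 6 * c * (x ^ 2 * ph x)) (fun x => ph x + c * ((x ^ 4 + 3) * ph x))
      (by fun_prop) (by fun_prop) (i2.const_mul _) (i0.add (i4.const_mul _))
      (fun x => by have := hn2 x; positivity)
      (fun x => by have := hn4 x; have := ph_nn x; positivity) ?_ ?_ ?_ ?_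
    · rw [integral_const_mul, int_sq_ph, hac, mul_one]
    · rw [integral_add i0 (i4.const_mul _), integral_const_mul, int_ph, int_four_ph, hac]; ring
    · intro x
      obtain ⟨h1, h2, h3⟩ := ph_bounds x
      have h4 : c * ((x ^ 4 + 3) * ph x) ≤ 1 * ((x ^ 4 + 3) * ph x) :=
        mul_le_mul_of_nonneg_right hc1 (hn4 x)
      linarith
    · intro x
      unfold H4
      ring
  · have hac : |c| = -c := abs_of_nonpos h0
    have hc1 : -c ≤ 1 := by rw [← hac]; exact hc
    have hc2 : 0 ≤ -c := by linarith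
    refine key (fun x => -c * ((x ^ 4 + 3) * ph x)) (fun x => ph x + 6 * -c * (x ^ 2 * ph x))
      (by fun_prop) (by fun_prop) (i4.const_mul _) (i0.add (i2.const_mul _))
      (fun x => mul_nonneg hc2 (hn4 x))
      (fun x => add_nonneg (ph_nn x) (mul_nonneg (by linarith) (hn2 x))) ?_ ?_ ?_ ?_
    · rw [integral_const_mul, int_four_ph, hac]; ring
    · rw [integral_add i0 (i2.const_mul _), integral_const_mul, int_ph, int_sq_ph, hac]; ring
    · intro x
      obtain ⟨h1, h2, h3⟩ := ph_bounds x
      have h4 : -c * (x ^ 2 * ph x) ≤ 1 * (x ^ 2 * ph x) :=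
        mul_le_mul_of_nonneg_right hc1 (hn2 x)
      linarith
    · intro x
      unfold H4
      ring

end Pool.Agent.Q293.EW
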