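import Mathlib

/-! # Weighted sums with smooth weights: the Edgeworth corrected rate `N^(-3/2)` (MP_8414c7_pr)

Statements of the lemma jobs.  `be μ` is the fifth absolute moment, `m4 μ` the fourth moment. -/

set_option autoImplicit false

namespace Pool.Agent.Q293.EW

open MeasureTheory ProbabilityTheory Set Filter Topology

/-- weighting functions: real `C^∞` functions with support in `[0,1]`, nonnegative, integral one -/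
structure IsWeight (w : ℝ → ℝ) : Prop where
  smooth : ContDiff ℝ (⊤ : ℕ∞) w
  supp : tsupport w ⊆ Icc 0 1
  nonneg : ∀ x, 0 ≤ w x
  one : ∫ x in (0:ℝ)..1, w x = 1

/-- `Ā_N` -/
noncomputable def AN (w : ℝ → ℝ) (N : ℕ) : ℝ := ∑ n ∈ Finset.range N, w ((n : ℝ) / N)

/-- the coefficients of the weighted normalised sum -/
noncomputable def th (w : ℝ → ℝ) (N n : ℕ) : ℝ := √(w ((n : ℝ) / N)) / √(AN w N)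

/-- the moment conditions on the law of `X₁` -/
structure Mom (μ : Measure ℝ) : Prop where
  int5 : Integrable (fun x : ℝ => |x| ^ 5) μ
  m1 : ∫ x, x ∂μ = 0
  m2 : ∫ x, x ^ 2 ∂μ = 1
  m3 : ∫ x, x ^ 3 ∂μ = 0

/-- fifth absolute moment -/
noncomputable def be (μ : Measure ℝ) : ℝ := ∫ x, |x| ^ 5 ∂μ

/-- fourth moment -/
noncomputable def m4 (μ : Measure ℝ) : ℝ := ∫ x, x ^ 4 ∂μ

/-- the standard normal density -/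
noncomputable def ph (x : ℝ) : ℝ := (√(2 * Real.pi))⁻¹ * Real.exp (-x ^ 2 / 2)

/-- the corrected normal distribution function with correction coefficient `c` -/
noncomputable def Gc (c x : ℝ) : ℝ := (∫ t in Iic x, ph t) - c * (x ^ 3 - 3 * x) * ph x

/-- its Fourier-Stieltjes transform -/
noncomputable def gc (c t : ℝ) : ℝ := (1 + c * t ^ 4) * Real.exp (-t ^ 2 / 2)

/-- JOB ESS: Esseen's smoothing inequality for the corrected normal law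
(adapt `Pool.Agent.Q285.MM.Ess`, which has the case `c = 0`). -/
def S_Ess : Prop := ∃ K : ℝ, 0 < K ∧ ∀ (ν : Measure ℝ) [IsProbabilityMeasure ν] (c R : ℝ)
  (b : ℝ → ℝ), |c| ≤ 1 → 0 < R → Continuous b →
  (∀ t, 0 < t → t ≤ R → ‖charFun ν t - ((gc c t : ℝ) : ℂ)‖ ≤ t * b t) →
  ∀ x : ℝ, |ν.real (Iic x) - Gc c x| ≤ K * ((∫ t in (0:ℝ)..R, b t) + 1 / R)

/-- JOB LOG: the logarithm of the characteristic function near `0` -/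
def S_Log : Prop := ∃ c₀ K : ℝ, 0 < c₀ ∧ 0 < K ∧ ∀ (μ : Measure ℝ) [IsProbabilityMeasure μ],
  Mom μ → 1 ≤ be μ → m4 μ ≤ be μ ^ (2 / 3 : ℝ) → ∀ u : ℝ, |u| ^ 3 * be μ ≤ c₀ → ∃ ρ : ℂ,
    charFun μ u = Complex.exp (-(u:ℂ) ^ 2 / 2 + (m4 μ - 3 : ℝ) * (u:ℂ) ^ 4 / 24 + ρ) ∧
    ‖ρ‖ ≤ K * be μ * |u| ^ 5

/-- JOB SMALL: the product for small `t`; `δ = be μ / N^(3/2)` -/
def S_Small : Prop := S_Log → ∀ K₀ : ℝ, 0 < K₀ → ∃ c₀ K : ℝ, 0 < c₀ ∧ 0 < K ∧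
  ∀ (μ : Measure ℝ) [IsProbabilityMeasure μ], Mom μ → 1 ≤ be μ → m4 μ ≤ be μ ^ (2 / 3 : ℝ) →
  ∀ (s : Finset ℕ) (θ : ℕ → ℝ) (N : ℕ), 1 ≤ N →
    (∀ n ∈ s, |θ n| ≤ K₀ / √(N:ℝ)) → (∑ n ∈ s, θ n ^ 2 = 1) →
    (∑ n ∈ s, |θ n| ^ 5 ≤ K₀ / (N:ℝ) ^ (3 / 2 : ℝ)) →
    |∑ n ∈ s, θ n ^ 4 - 3 / N| ≤ K₀ / (N:ℝ) ^ 2 →
    ∀ δ : ℝ, δ = be μ / (N:ℝ) ^ (3 / 2 : ℝ) → δ ≤ 1 → ∀ t : ℝ, |t| ^ 3 * δ ≤ c₀ →
    ‖∏ n ∈ s, charFun μ (θ n * t) - ((gc ((m4 μ - 3) / (8 * N)) t : ℝ) : ℂ)‖ ≤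
      K * δ * (t ^ 4 + t ^ 10) * Real.exp (-t ^ 2 / 4)

/-- JOB MID: decay of the product in the middle range -/
def S_Mid : Prop := ∀ η c : ℝ, 0 < η → 0 < c → ∃ c' : ℝ, 0 < c' ∧
  ∀ (μ : Measure ℝ) [IsProbabilityMeasure μ], Mom μ → 1 ≤ be μ →
  ∀ (s : Finset ℕ) (f : ℕ → ℝ) (M : ℝ), 0 < M →
    (∀ v : ℝ, |v| ≤ η * M → c * M * min (v ^ 2) 1 ≤ ∑ n ∈ s, (1 - Real.cos (v * f n))) →
    ∀ v : ℝ, |v| ≤ c' * M / be μ ^ (1 / 3 : ℝ) →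
    ‖∏ n ∈ s, charFun μ (f n * v)‖ ≤
      Real.exp (-(c' * M * min (v ^ 2) (be μ ^ (-(2 / 3) : ℝ))))

/-- JOB COS: sums of `1 - cos` along an arithmetic progression -/
def S_Cos : Prop := ∀ a b p q : ℝ, 0 < a → 0 ≤ p → p < q → q ≤ 1 →
  ∃ (η c : ℝ) (N₀ : ℕ), 0 < η ∧ 0 < c ∧ ∀ N : ℕ, N₀ ≤ N → ∀ f : ℝ → ℝ,
    (∀ x ∈ Icc p q, f x = a * x + b) → ∀ v : ℝ, |v| ≤ η * N →
    c * N * min (v ^ 2) 1 ≤ ∑ n ∈ Finset.Ico 1 N, (1 - Real.cos (v * f ((n : ℝ) / N)))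

/-- JOB WEIGHT: the weight -/
def S_Weight : Prop := ∃ (w : ℝ → ℝ) (a b p q : ℝ), IsWeight w ∧
  (∫ x in (0:ℝ)..1, w x ^ 2) = 3 ∧ 0 < a ∧ 0 ≤ p ∧ p < q ∧ q ≤ 1 ∧
  ∀ x ∈ Icc p q, √(w x) = a * x + b

/-- JOB RIEM: Riemann sums -/
def S_Riem : Prop := ∀ w : ℝ → ℝ, ContDiff ℝ (⊤ : ℕ∞) w → HasCompactSupport w →
  ∃ L : ℝ, 0 < L ∧ ∀ N : ℕ, 1 ≤ N →
    |∑ n ∈ Finset.range N, w ((n : ℝ) / N) - N * ∫ x in (0:ℝ)..1, w x| ≤ L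

/-- JOB COEFF: the sums of powers of the coefficients -/
def S_Coeff : Prop := S_Riem → ∀ w : ℝ → ℝ, IsWeight w → (∫ x in (0:ℝ)..1, w x ^ 2) = 3 →
  ∃ (K₀ : ℝ) (N₀ : ℕ), 0 < K₀ ∧ 1 ≤ N₀ ∧ ∀ N : ℕ, N₀ ≤ N →
    (N:ℝ) / 2 ≤ AN w N ∧ AN w N ≤ 2 * N ∧
    (∀ n ∈ Finset.Ico 1 N, |th w N n| ≤ K₀ / √(N:ℝ)) ∧
    (∑ n ∈ Finset.Ico 1 N, th w N n ^ 2 = 1) ∧
    (∑ n ∈ Finset.Ico 1 N, |th w N n| ^ 5 ≤ K₀ / (N:ℝ) ^ (3 / 2 : ℝ)) ∧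
    |∑ n ∈ Finset.Ico 1 N, th w N n ^ 4 - 3 / N| ≤ K₀ / (N:ℝ) ^ 2

/-- JOB LYAP: `1 ≤ be μ` and `m4 μ ≤ be μ ^ (2/3)` -/
def S_Lyap : Prop := ∀ (μ : Measure ℝ) [IsProbabilityMeasure μ], Mom μ →
  1 ≤ be μ ∧ m4 μ ≤ be μ ^ (2 / 3 : ℝ)

/-- the theorem for laws -/
def S_Law : Prop := ∃ C : ℝ, 0 < C ∧ ∃ w : ℝ → ℝ, IsWeight w ∧
  ∀ (μ : Measure ℝ) [IsProbabilityMeasure μ], Mom μ →
  ∀ (N : ℕ) (ν : Measure ℝ) [IsProbabilityMeasure ν], 2 ≤ N → 0 < AN w N →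
    (∀ t : ℝ, charFun ν t = ∏ n ∈ Finset.Ico 1 N, charFun μ (th w N n * t)) →
    ∀ x : ℝ, |ν.real (Iic x) - Gc ((m4 μ - 3) / (8 * N)) x| ≤ C * be μ / (N:ℝ) ^ (3 / 2 : ℝ)

/-- JOB PROB: the characteristic function of the weighted sum of independent variables -/
def S_Prob.{u} : Prop := ∀ {Ω : Type u} [MeasurableSpace Ω] (P : Measure Ω) [IsProbabilityMeasure P]
  (X : ℕ → Ω → ℝ), (∀ n, Measurable (X n)) → iIndepFun X P →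
  (∀ n, IdentDistrib (X n) (X 0) P P) → ∀ (s : Finset ℕ) (θ : ℕ → ℝ) (t : ℝ),
  charFun (P.map (fun ω => ∑ n ∈ s, θ n * X n ω)) t = ∏ n ∈ s, charFun (P.map (X 0)) (θ n * t)

end Pool.Agent.Q293.EW
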