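import Pool.Agent.Q285.MM.Ess
import Pool.Agent.Q293.EW.Stm

/-! # Esseen's smoothing inequality for a pair of laws, the second with a Lipschitz distribution
function.  Adapted from `Pool.Agent.Q285.MM.Ess` (helper285), which has the case of the normal law. -/

set_option autoImplicit false

namespace Pool.Agent.Q293.EW

open MeasureTheory ProbabilityTheory Set Filter Topology
open Q285MM (v v_nonneg v_cont v_even v_le v_integrable GG CC meas_F GG_diff CC_eq CC_cont GG_tendsto smooth_lower)

/-- the difference of the two characteristic functions -/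
noncomputable def ww (μ ν : Measure ℝ) (t : ℝ) : ℂ := charFun μ t - charFun ν t

/-- the integrand of the inversion integral -/
noncomputable def FF (μ ν : Measure ℝ) (R t : ℝ) : ℂ :=
  ((1 / Real.pi * ((1 - t / R) / t) : ℝ) : ℂ) * (starRingEnd ℂ) (ww μ ν t)

/-- the inversion integral -/
noncomputable def HH (μ ν : Measure ℝ) (R x : ℝ) : ℂ :=
  ∫ t in Ioc (0:ℝ) R, Complex.exp (((t * x : ℝ) : ℂ) * Complex.I) * FF μ ν R t

lemma ww_cont (μ ν : Measure ℝ) [IsProbabilityMeasure μ] [IsProbabilityMeasure ν] : Continuous (ww μ ν) := by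
  unfold ww
  exact continuous_charFun.sub continuous_charFun

lemma FF_bound (μ ν : Measure ℝ) [IsProbabilityMeasure μ] [IsProbabilityMeasure ν] {R : ℝ} (hR : 0 < R) {b : ℝ → ℝ}
    (hb : ∀ t, 0 < t → t ≤ R → ‖ww μ ν t‖ ≤ t * b t) (t : ℝ) (ht : t ∈ Ioc 0 R) :
    ‖FF μ ν R t‖ ≤ 1 / Real.pi * b t := by
  have hpi := Real.pi_pos
  unfold FF
  rw [norm_mul, RCLike.norm_conj, Complex.norm_real, Real.norm_eq_abs]
  have h2 : 0 ≤ t / R := div_nonneg ht.1.le hR.le
  have h3 : t / R ≤ 1 := (div_le_one hR).mpr ht.2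
  have h4 : 0 ≤ (1 - t / R) / t := div_nonneg (by linarith) ht.1.le
  rw [abs_of_nonneg (by positivity)]
  have h5 : (1 - t / R) / t ≤ 1 / t := by
    apply div_le_div_of_nonneg_right _ ht.1.le
    linarith
  calc 1 / Real.pi * ((1 - t / R) / t) * ‖ww μ ν t‖ ≤ 1 / Real.pi * (1 / t) * (t * b t) := by
        refine mul_le_mul (mul_le_mul_of_nonneg_left h5 (by positivity)) (hb t ht.1 ht.2)
          (norm_nonneg _) ?_
        have := ht.1
        positivity
    _ = 1 / Real.pi * b t := by
        have := ht.1.ne'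
        field_simp

lemma FF_int (μ ν : Measure ℝ) [IsProbabilityMeasure μ] [IsProbabilityMeasure ν] {R : ℝ} (hR : 0 < R) {b : ℝ → ℝ}
    (hbc : Continuous b) (hb : ∀ t, 0 < t → t ≤ R → ‖ww μ ν t‖ ≤ t * b t) :
    IntegrableOn (FF μ ν R) (Ioc 0 R) := by
  have h1 : IntegrableOn (fun t => 1 / Real.pi * b t) (Ioc 0 R) :=
    ((continuous_const.mul hbc).integrableOn_Icc (a := 0) (b := R)).mono_set Ioc_subset_Icc_self
  refine Integrable.mono' h1 ?_ ?_
  · apply Measurable.aestronglyMeasurable
    unfold FF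
    have := (ww_cont μ ν).measurable
    apply Measurable.mul
    · apply Complex.measurable_ofReal.comp
      fun_prop
    · exact (Complex.continuous_conj.measurable).comp this
  · rw [ae_restrict_iff' measurableSet_Ioc]
    exact Eventually.of_forall fun t ht => FF_bound μ ν hR hb t ht

lemma HHi_int (μ ν : Measure ℝ) [IsProbabilityMeasure μ] [IsProbabilityMeasure ν] {R : ℝ} (hR : 0 < R) {b : ℝ → ℝ}
    (hbc : Continuous b) (hb : ∀ t, 0 < t → t ≤ R → ‖ww μ ν t‖ ≤ t * b t) (x : ℝ) :
    IntegrableOn (fun t : ℝ => Complex.exp (((t * x : ℝ) : ℂ) * Complex.I) * FF μ ν R t) (Ioc 0 R) := by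
  apply (FF_int μ ν hR hbc hb).bdd_mul (c := 1)
  · apply Continuous.aestronglyMeasurable; fun_prop
  · refine Filter.Eventually.of_forall fun v => ?_
    rw [Complex.norm_exp_ofReal_mul_I]

lemma HH_bound (μ ν : Measure ℝ) [IsProbabilityMeasure μ] [IsProbabilityMeasure ν] {R : ℝ} (hR : 0 < R) {b : ℝ → ℝ}
    (hbc : Continuous b) (hb : ∀ t, 0 < t → t ≤ R → ‖ww μ ν t‖ ≤ t * b t) (x : ℝ) :
    ‖HH μ ν R x‖ ≤ 1 / Real.pi * ∫ t in (0:ℝ)..R, b t := by
  have h1 : IntegrableOn (fun t => 1 / Real.pi * b t) (Ioc 0 R) :=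
    ((continuous_const.mul hbc).integrableOn_Icc (a := 0) (b := R)).mono_set Ioc_subset_Icc_self
  rw [← intervalIntegral.integral_const_mul, intervalIntegral.integral_of_le hR.le]
  unfold HH
  refine norm_integral_le_of_norm_le h1 ?_
  rw [ae_restrict_iff' measurableSet_Ioc]
  refine Eventually.of_forall fun t ht => ?_
  rw [norm_mul, Complex.norm_exp_ofReal_mul_I, one_mul]
  exact FF_bound μ ν hR hb t ht

lemma main_id (μ ν : Measure ℝ) [IsProbabilityMeasure μ] [IsProbabilityMeasure ν] {R : ℝ} (hR : 0 < R) {b : ℝ → ℝ}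
    (hbc : Continuous b) (hb : ∀ t, 0 < t → t ≤ R → ‖ww μ ν t‖ ≤ t * b t) (a c : ℝ) :
    (GG μ R c - GG ν R c) - (GG μ R a - GG ν R a) =
      (HH μ ν R c).im - (HH μ ν R a).im := by
  have e1 : (GG μ R c - GG ν R c) - (GG μ R a - GG ν R a) =
      (GG μ R c - GG μ R a) - (GG ν R c - GG ν R a) := by ring
  rw [e1, GG_diff μ hR, GG_diff ν hR, ← mul_sub]
  have hcc : ∀ (ν : Measure ℝ) [IsProbabilityMeasure ν],
      Continuous (fun t : ℝ => (1 - t / R) * ∫ s in a..c, CC ν t s) := by
    intro ν _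
    have h0 : Continuous (fun p : ℝ × ℝ => CC ν p.1 p.2) := by
      simp_rw [CC_eq]
      have h1 : Continuous (charFun ν) := continuous_charFun
      have h2 : Continuous (fun t => (charFun ν t).re) := Complex.continuous_re.comp h1
      have h3 : Continuous (fun t => (charFun ν t).im) := Complex.continuous_im.comp h1
      apply Continuous.add
      · exact (h2.comp continuous_fst).mul (by fun_prop)
      · exact (h3.comp continuous_fst).mul (by fun_prop)
    apply Continuous.mul (by fun_prop)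
    apply intervalIntegral.continuous_parametric_intervalIntegral_of_continuous'
    exact h0
  rw [← intervalIntegral.integral_sub ((hcc μ).intervalIntegrable _ _)
    ((hcc ν).intervalIntegrable _ _), ← intervalIntegral.integral_const_mul,
    intervalIntegral.integral_of_le hR.le]
  rw [← Complex.sub_im]
  unfold HH
  rw [← integral_sub (HHi_int μ ν hR hbc hb c) (HHi_int μ ν hR hbc hb a)]
  have h2 := integral_im (((HHi_int μ ν hR hbc hb c).sub (HHi_int μ ν hR hbc hb a)))
  simp only [RCLike.im_to_complex, Pi.sub_apply] at h2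
  rw [← h2]
  apply setIntegral_congr_fun measurableSet_Ioc
  intro t ht
  simp only
  have ht0 := ht.1.ne'
  have hpi := Real.pi_ne_zero
  -- inner integrals
  have h3 : (∫ s in a..c, CC μ t s) - ∫ s in a..c, CC ν t s =
      ∫ s in a..c, ((ww μ ν t).re * Real.cos (t * s) + (ww μ ν t).im * Real.sin (t * s)) := by
    rw [← intervalIntegral.integral_sub]
    · congr 1
      ext s
      rw [CC_eq, CC_eq]
      unfold ww
      rw [Complex.sub_re, Complex.sub_im]
      ring
    · exact (CC_cont μ t).intervalIntegrable _ _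
    · exact (CC_cont ν t).intervalIntegrable _ _
  have h4 : ∫ s in a..c, ((ww μ ν t).re * Real.cos (t * s) + (ww μ ν t).im * Real.sin (t * s)) =
      ((ww μ ν t).re * Real.sin (t * c) - (ww μ ν t).im * Real.cos (t * c)) / t -
      ((ww μ ν t).re * Real.sin (t * a) - (ww μ ν t).im * Real.cos (t * a)) / t := by
    have h5 : ∀ s ∈ Set.uIcc a c, HasDerivAt
        (fun s => ((ww μ ν t).re * Real.sin (t * s) - (ww μ ν t).im * Real.cos (t * s)) / t)
        ((ww μ ν t).re * Real.cos (t * s) + (ww μ ν t).im * Real.sin (t * s)) s := by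
      intro s _
      have e1 : HasDerivAt (fun s : ℝ => t * s) t s := by
        simpa using (hasDerivAt_id s).const_mul t
      have e2 : HasDerivAt (fun s : ℝ => Real.sin (t * s)) (Real.cos (t * s) * t) s := e1.sin
      have e3 : HasDerivAt (fun s : ℝ => Real.cos (t * s)) (-Real.sin (t * s) * t) s := e1.cos
      have e5 := ((e2.const_mul (ww μ ν t).re).sub (e3.const_mul (ww μ ν t).im)).div_const t
      refine e5.congr_deriv ?_
      field_simp
      ring
    rw [intervalIntegral.integral_eq_sub_of_hasDerivAt h5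
      (Continuous.intervalIntegrable (by fun_prop) _ _)]
  rw [← mul_sub, h3, h4]
  unfold FF
  simp only [Complex.sub_im, Complex.mul_im, Complex.mul_re, Complex.exp_ofReal_mul_I_re,
    Complex.exp_ofReal_mul_I_im, Complex.ofReal_re, Complex.ofReal_im, Complex.conj_re,
    Complex.conj_im, zero_mul, sub_zero, add_zero]
  field_simp
  ring

lemma HH_tendsto (μ ν : Measure ℝ) [IsProbabilityMeasure μ] [IsProbabilityMeasure ν] {R : ℝ} :
    Tendsto (HH μ ν R) atBot (𝓝 0) := by
  have h1 := Real.tendsto_integral_exp_smul_cocompact (indicator (Ioc 0 R) (FF μ ν R))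
  have h2 : Tendsto (fun x : ℝ => x * (-(2 * Real.pi)⁻¹)) atBot (cocompact ℝ) := by
    have hpi := Real.pi_pos
    have h3 : Tendsto (fun x : ℝ => x * (-(2 * Real.pi)⁻¹)) atBot atTop :=
      tendsto_id.atBot_mul_const_of_neg (by simp only [Left.neg_neg_iff]; positivity)
    exact h3.mono_right (by rw [cocompact_eq_atBot_atTop]; exact le_sup_right)
  have h4 := h1.comp h2
  refine h4.congr fun x => ?_
  simp only [Function.comp]
  unfold HH
  rw [← integral_indicator measurableSet_Ioc]
  congr 1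
  ext t
  by_cases ht : t ∈ Ioc 0 R
  · rw [indicator_of_mem ht, indicator_of_mem ht]
    rw [Circle.smul_def, Real.fourierChar_apply, smul_eq_mul]
    congr 2
    have hpi := Real.pi_ne_zero
    push_cast
    field_simp
  · rw [indicator_of_notMem ht, indicator_of_notMem ht, smul_zero]

lemma GG_bound (μ ν : Measure ℝ) [IsProbabilityMeasure μ] [IsProbabilityMeasure ν] {R : ℝ} (hR : 0 < R) {b : ℝ → ℝ}
    (hbc : Continuous b) (hb : ∀ t, 0 < t → t ≤ R → ‖ww μ ν t‖ ≤ t * b t) (x : ℝ) :
    |GG μ R x - GG ν R x| ≤ 1 / Real.pi * ∫ t in (0:ℝ)..R, b t := by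
  have h1 : ∀ a, GG μ R x - GG ν R x - (HH μ ν R x).im =
      GG μ R a - GG ν R a - (HH μ ν R a).im := by
    intro a
    have := main_id μ ν hR hbc hb a x
    linarith
  have h2 : Tendsto (fun a => GG μ R a - GG ν R a - (HH μ ν R a).im) atBot (𝓝 0) := by
    have h3 := ((GG_tendsto μ hR).sub (GG_tendsto ν hR)).sub
      ((Complex.continuous_im.tendsto 0).comp (HH_tendsto μ ν (R := R)))
    simpa using h3
  have h3 : GG μ R x - GG ν R x - (HH μ ν R x).im = 0 := by
    apply tendsto_nhds_unique _ h2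
    refine Tendsto.congr (fun a => h1 a) tendsto_const_nhds
  have h4 : GG μ R x - GG ν R x = (HH μ ν R x).im := by linarith
  rw [h4]
  exact (Complex.abs_im_le_norm _).trans (HH_bound μ ν hR hbc hb x)

lemma key_step (μ ν : Measure ℝ) [IsProbabilityMeasure μ] [IsProbabilityMeasure ν] {R B S m : ℝ} (hR : 0 < R)
    (hm0 : 0 < m) (hLip : ∀ a c : ℝ, a ≤ c → ν.real (Iic c) - ν.real (Iic a) ≤ m * (c - a))
    (hG : ∀ x, |GG μ R x - GG ν R x| ≤ B)
    (hS : ∀ x, |μ.real (Iic x) - ν.real (Iic x)| ≤ S) (x0 d : ℝ) (hd : 0 < d)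
    (hx0 : |μ.real (Iic x0) - ν.real (Iic x0)| = d) :
    d / 2 - 4 * m / (Real.pi * R) - 8 * m * S / (Real.pi * R * d) ≤ B := by
  have hpi := Real.pi_pos
  set h : ℝ := d / (2 * m) with hh
  have hh0 : 0 < h := by positivity
  have hmh : m * h = d / 2 := by rw [hh]; field_simp
  have hmF := meas_F μ
  have hmP : Measurable (fun x : ℝ => ν.real (Iic x)) := meas_F ν
  have hval : d / 2 * (1 - 4 / (Real.pi * R * h)) - S * (4 / (Real.pi * R * h)) =
      d / 2 - 4 * m / (Real.pi * R) - 8 * m * S / (Real.pi * R * d) := by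
    rw [hh]
    field_simp
    ring
  have hint : ∀ x, ∫ y, (μ.real (Iic (x - y)) - ν.real (Iic (x - y))) * v R y =
      GG μ R x - GG ν R x := by
    intro x
    unfold GG
    rw [← integral_sub]
    · congr 1
      ext y
      ring
    · apply (v_integrable hR).bdd_mul (c := 1)
      · exact (hmF.comp (measurable_const.sub measurable_id)).aestronglyMeasurable
      · refine Eventually.of_forall fun y => ?_
        rw [Real.norm_of_nonneg measureReal_nonneg]
        exact measureReal_le_one
    · apply (v_integrable hR).bdd_mul (c := 1)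
      · exact (hmP.comp (measurable_const.sub measurable_id)).aestronglyMeasurable
      · refine Eventually.of_forall fun y => ?_
        rw [Real.norm_of_nonneg measureReal_nonneg]
        exact measureReal_le_one
  have hmono : ∀ a c : ℝ, a ≤ c → μ.real (Iic a) ≤ μ.real (Iic c) := fun a c hac =>
    measureReal_mono (Iic_subset_Iic.mpr hac)
  rcases le_or_gt 0 (μ.real (Iic x0) - ν.real (Iic x0)) with hs | hs
  · rw [abs_of_nonneg hs] at hx0
    have h1 := smooth_lower (R := R) (h := h) (d := d) (c := m) (S := S) hR hh0 hd.le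
      (fun y => μ.real (Iic (x0 + h - y)) - ν.real (Iic (x0 + h - y)))
      ((hmF.comp (measurable_const.sub measurable_id)).sub
        (hmP.comp (measurable_const.sub measurable_id)))
      (fun y => hS _) (fun y hy => by
        have hy' := abs_le.mp hy
        have e1 := hmono x0 (x0 + h - y) (by linarith)
        have e2 := hLip x0 (x0 + h - y) (by linarith)
        have e3 : m * (x0 + h - y - x0) = d / 2 - m * y := by
          rw [← hmh]; ring
        linarith)
    rw [hval, hint] at h1
    exact h1.trans ((le_abs_self _).trans (hG _))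
  · rw [abs_of_neg hs] at hx0
    have h1 := smooth_lower (R := R) (h := h) (d := d) (c := -m) (S := S) hR hh0 hd.le
      (fun y => -(μ.real (Iic (x0 - h - y)) - ν.real (Iic (x0 - h - y))))
      (((hmF.comp (measurable_const.sub measurable_id)).sub
        (hmP.comp (measurable_const.sub measurable_id))).neg)
      (fun y => by rw [abs_neg]; exact hS _) (fun y hy => by
        have hy' := abs_le.mp hy
        have e1 := hmono (x0 - h - y) x0 (by linarith)
        have e2 := hLip (x0 - h - y) x0 (by linarith)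
        have e3 : m * (x0 - (x0 - h - y)) = d / 2 + m * y := by
          rw [← hmh]; ring
        linarith)
    have h2 : ∫ y, -(μ.real (Iic (x0 - h - y)) - ν.real (Iic (x0 - h - y))) * v R y =
        -∫ y, (μ.real (Iic (x0 - h - y)) - ν.real (Iic (x0 - h - y))) * v R y := by
      rw [← integral_neg]
      congr 1; ext y; ring
    rw [hval, h2, hint] at h1
    exact h1.trans ((neg_le_abs _).trans (hG _))

/-- Esseen's smoothing inequality for a pair of laws. -/
theorem essPair (μ ν : Measure ℝ) [IsProbabilityMeasure μ] [IsProbabilityMeasure ν] (R m : ℝ)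
    (b : ℝ → ℝ) (hR : 0 < R) (hm0 : 0 < m)
    (hLip : ∀ a c : ℝ, a ≤ c → ν.real (Iic c) - ν.real (Iic a) ≤ m * (c - a))
    (hbc : Continuous b) (hb' : ∀ t, 0 < t → t ≤ R → ‖charFun μ t - charFun ν t‖ ≤ t * b t)
    (x : ℝ) : |μ.real (Iic x) - ν.real (Iic x)| ≤
      2 / Real.pi * (∫ t in (0:ℝ)..R, b t) + 24 * m / (Real.pi * R) := by
  have hpi := Real.pi_pos
  set I : ℝ := ∫ t in (0:ℝ)..R, b t with hI
  have hI0 : 0 ≤ 1 / Real.pi * I := (norm_nonneg _).trans (HH_bound μ ν hR hbc hb' 0)
  have hG := GG_bound μ ν hR hbc hb'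
  rw [← hI] at hG
  have hD1 : ∀ y, |μ.real (Iic y) - ν.real (Iic y)| ≤ 1 := by
    intro y
    have h1 : 0 ≤ μ.real (Iic y) := measureReal_nonneg
    have h2 : μ.real (Iic y) ≤ 1 := measureReal_le_one
    have h3 : 0 ≤ ν.real (Iic y) := measureReal_nonneg
    have h4 : ν.real (Iic y) ≤ 1 := measureReal_le_one
    rw [abs_le]
    constructor <;> linarith
  have hbdd : BddAbove (range (fun y => |μ.real (Iic y) - ν.real (Iic y)|)) :=
    ⟨1, by rintro _ ⟨y, rfl⟩; exact hD1 y⟩
  set S : ℝ := ⨆ y, |μ.real (Iic y) - ν.real (Iic y)| with hS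
  have hSx : ∀ y, |μ.real (Iic y) - ν.real (Iic y)| ≤ S := fun y => le_ciSup hbdd y
  have hT : 2 / Real.pi * I + 24 * m / (Real.pi * R) =
      2 * (1 / Real.pi * I) + 24 * m / (Real.pi * R) := by ring
  rw [hT]
  refine (hSx x).trans ?_
  have hS0 : 0 ≤ S := (abs_nonneg _).trans (hSx 0)
  rcases hS0.eq_or_lt with h0 | hSpos
  · rw [← h0]
    positivity
  have hκ : ∀ θ : ℝ, θ ∈ Ioo (0:ℝ) 1 → θ * S / 2 - 8 * m / (Real.pi * R * θ) ≤
      1 / Real.pi * I + 4 * m / (Real.pi * R) := by
    intro θ hθ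
    have h1 : θ * S < S := by nlinarith [hθ.2]
    obtain ⟨x0, hx0⟩ := exists_lt_of_lt_ciSup h1
    have hθS : 0 < θ * S := mul_pos hθ.1 hSpos
    have hd0 : 0 < |μ.real (Iic x0) - ν.real (Iic x0)| := hθS.trans hx0
    have h2 := key_step μ ν hR hm0 hLip hG hSx x0 _ hd0 rfl
    set d := |μ.real (Iic x0) - ν.real (Iic x0)|
    have h3 : 8 * m * S / (Real.pi * R * d) ≤ 8 * m / (Real.pi * R * θ) := by
      rw [div_le_div_iff₀ (by positivity) (by have := hθ.1; positivity)]
      have : θ * S ≤ d := hx0.le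
      have h5 : 0 ≤ 8 * m * (Real.pi * R) := by positivity
      nlinarith [mul_le_mul_of_nonneg_left this h5]
    linarith
  have hlim : Tendsto (fun θ : ℝ => θ * S / 2 - 8 * m / (Real.pi * R * θ)) (𝓝[<] 1)
      (𝓝 (1 * S / 2 - 8 * m / (Real.pi * R * 1))) := by
    apply tendsto_nhdsWithin_of_tendsto_nhds
    apply Tendsto.sub
    · exact (tendsto_id.mul_const S).div_const 2
    · apply Tendsto.div tendsto_const_nhds (tendsto_id.const_mul _)
      positivity
  have h6 := le_of_tendsto hlim (by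
    filter_upwards [Ioo_mem_nhdsLT (show (0:ℝ) < 1 by norm_num)] with θ hθ
    exact hκ θ hθ)
  rw [mul_one, one_mul] at h6
  have h7 : 24 * m / (Real.pi * R) = 2 * (4 * m / (Real.pi * R)) + 2 * (8 * m / (Real.pi * R)) := by
    ring
  rw [h7]
  linarith

end Pool.Agent.Q293.EW
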