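import Pool.Agent.Q293.EW.Stm

set_option autoImplicit false

namespace Pool.Agent.Q293.EW

open MeasureTheory ProbabilityTheory Set Filter Topology

lemma gint (n : ℕ) (b : ℝ) (hb : 0 < b) : ∃ C : ℝ, 0 ≤ C ∧ ∀ R : ℝ, 0 ≤ R →
    ∫ t in (0:ℝ)..R, t ^ n * Real.exp (-b * t ^ 2) ≤ C := by
  have hint : Integrable (fun t : ℝ => t ^ n * Real.exp (-b * t ^ 2)) := by
    have := integrable_rpow_mul_exp_neg_mul_sq hb (s := (n : ℝ))
      (by have := Nat.cast_nonneg (α := ℝ) n; linarith)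
    simpa using this
  refine ⟨∫ t in Ioi (0:ℝ), t ^ n * Real.exp (-b * t ^ 2), ?_, ?_⟩
  · exact setIntegral_nonneg measurableSet_Ioi fun t ht => by
      have : (0:ℝ) < t := ht
      positivity
  · intro R hR
    rw [intervalIntegral.integral_of_le hR]
    apply setIntegral_mono_set hint.integrableOn
    · filter_upwards [ae_restrict_mem measurableSet_Ioi] with t ht
      have : (0:ℝ) < t := ht
      positivity
    · exact (Ioc_subset_Ioi_self).eventuallyLE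

lemma ph_integral : Integrable ph ∧ ∫ x, ph x = 1 := by
  have h : ph = gaussianPDFReal 0 1 := by
    funext x
    simp [ph, gaussianPDFReal]
  rw [h]
  exact ⟨integrable_gaussianPDFReal 0 1, integral_gaussianPDFReal_eq_one 0 one_ne_zero⟩

lemma ph_nonneg (x : ℝ) : 0 ≤ ph x := by unfold ph; positivity

lemma he3_le (x : ℝ) : |(x ^ 3 - 3 * x) * ph x| ≤ 8 := by
  rw [abs_mul, abs_of_nonneg (ph_nonneg x)]
  have h1 : (√(2 * Real.pi))⁻¹ ≤ 1 := by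
    apply inv_le_one_of_one_le₀
    rw [Real.one_le_sqrt]
    have := Real.pi_gt_three
    linarith
  have h2 : 1 + x ^ 2 / 2 + (x ^ 2 / 2) ^ 2 / 2 ≤ Real.exp (x ^ 2 / 2) :=
    Real.quadratic_le_exp_of_nonneg (by positivity)
  have h3 : |x ^ 3 - 3 * x| ≤ 8 * (1 + x ^ 2 / 2 + (x ^ 2 / 2) ^ 2 / 2) := by
    rw [abs_le]
    constructor
    · nlinarith [sq_nonneg (x ^ 2 + x), sq_nonneg (x ^ 2 - x), sq_nonneg (x - 1), sq_nonneg (x + 1),
        sq_nonneg (x ^ 2 - 1), sq_nonneg x, sq_nonneg (x ^ 2)]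
    · nlinarith [sq_nonneg (x ^ 2 + x), sq_nonneg (x ^ 2 - x), sq_nonneg (x - 1), sq_nonneg (x + 1),
        sq_nonneg (x ^ 2 - 1), sq_nonneg x, sq_nonneg (x ^ 2)]
  have h4 : Real.exp (-x ^ 2 / 2) * Real.exp (x ^ 2 / 2) = 1 := by
    rw [← Real.exp_add]; simp [show -x ^ 2 / 2 + x ^ 2 / 2 = 0 by ring]
  have h5 : |x ^ 3 - 3 * x| * Real.exp (-x ^ 2 / 2) ≤ 8 := by
    calc |x ^ 3 - 3 * x| * Real.exp (-x ^ 2 / 2)
        ≤ (8 * Real.exp (x ^ 2 / 2)) * Real.exp (-x ^ 2 / 2) := by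
          gcongr
          linarith
      _ = 8 * (Real.exp (-x ^ 2 / 2) * Real.exp (x ^ 2 / 2)) := by ring
      _ = 8 := by rw [h4]; norm_num
  calc |x ^ 3 - 3 * x| * ph x = (√(2 * Real.pi))⁻¹ * (|x ^ 3 - 3 * x| * Real.exp (-x ^ 2 / 2)) := by
        unfold ph; ring
    _ ≤ 1 * 8 := by gcongr
    _ = 8 := by norm_num

lemma trivial_bd (ν : Measure ℝ) [IsProbabilityMeasure ν] (c x : ℝ) :
    |ν.real (Iic x) - Gc c x| ≤ 2 + 8 * |c| := by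
  have h1 : 0 ≤ ν.real (Iic x) := measureReal_nonneg
  have h2 : ν.real (Iic x) ≤ 1 := measureReal_le_one
  have h3 : 0 ≤ ∫ t in Iic x, ph t := setIntegral_nonneg measurableSet_Iic fun t _ => ph_nonneg t
  have h4 : ∫ t in Iic x, ph t ≤ 1 := by
    rw [← ph_integral.2]
    exact setIntegral_le_integral ph_integral.1 (Eventually.of_forall ph_nonneg)
  have h5 : |c * (x ^ 3 - 3 * x) * ph x| ≤ 8 * |c| := by
    rw [mul_assoc, abs_mul, mul_comm]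
    exact mul_le_mul_of_nonneg_right (he3_le x) (abs_nonneg c)
  unfold Gc
  rw [abs_le] at h5 ⊢
  constructor <;> linarith [h5.1, h5.2]

lemma pow_exp_le (c y : ℝ) (hc : 0 < c) (hy : 0 ≤ y) : y ^ 5 * Real.exp (-(c * y)) ≤ 120 / c ^ 5 := by
  have h1 : (c * y) ^ 5 / (Nat.factorial 5 : ℕ) ≤ Real.exp (c * y) :=
    Real.pow_div_factorial_le_exp (c * y) (by positivity) 5
  have h2 : Real.exp (-(c * y)) * Real.exp (c * y) = 1 := by
    rw [← Real.exp_add]; simp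
  rw [le_div_iff₀ (by positivity)]
  have h3 : ((Nat.factorial 5 : ℕ) : ℝ) = 120 := by norm_num [Nat.factorial]
  rw [h3, div_le_iff₀ (by norm_num)] at h1
  calc y ^ 5 * Real.exp (-(c * y)) * c ^ 5 = (c * y) ^ 5 * Real.exp (-(c * y)) := by ring
    _ ≤ (Real.exp (c * y) * 120) * Real.exp (-(c * y)) := by gcongr
    _ = 120 * (Real.exp (-(c * y)) * Real.exp (c * y)) := by ring
    _ = 120 := by rw [h2]; ring


/-- the case of a large Lyapunov ratio or a small number of terms -/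
lemma law_triv (hLy : S_Lyap) (δ₀ : ℝ) (hδ₀ : 0 < δ₀) (hδ₁ : δ₀ ≤ 1) (μ : Measure ℝ)
    [IsProbabilityMeasure μ] (hμ : Mom μ) (N : ℕ) (hN : 1 ≤ N) (ν : Measure ℝ)
    [IsProbabilityMeasure ν] (h : δ₀ ≤ be μ / (N:ℝ) ^ (3 / 2 : ℝ)) (x : ℝ) :
    |ν.real (Iic x) - Gc ((m4 μ - 3) / (8 * N)) x| ≤
      (10 / δ₀) * (be μ / (N:ℝ) ^ (3 / 2 : ℝ)) := by
  obtain ⟨hb1, hb2⟩ := hLy μ hμ
  have hN0 : (0:ℝ) < N := by exact_mod_cast hN
  have hm4 : 0 ≤ m4 μ := integral_nonneg fun x => by positivity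
  set δ := be μ / (N:ℝ) ^ (3 / 2 : ℝ) with hδ
  have hb : 0 < be μ := by linarith
  have hδpos : 0 < δ := by positivity
  have hδ23 : δ ^ (2 / 3 : ℝ) = be μ ^ (2 / 3 : ℝ) / N := by
    rw [hδ, Real.div_rpow hb.le (by positivity), ← Real.rpow_mul hN0.le]
    norm_num
  have hb3 : 1 ≤ be μ ^ (2 / 3 : ℝ) := Real.one_le_rpow hb1 (by norm_num)
  have hc : |(m4 μ - 3) / (8 * N)| ≤ δ ^ (2 / 3 : ℝ) / 2 := by
    rw [hδ23, abs_div, abs_of_pos (by positivity : (0:ℝ) < 8 * N), div_le_iff₀ (by positivity)]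
    have : |m4 μ - 3| ≤ 4 * be μ ^ (2 / 3 : ℝ) := by
      rw [abs_le]; constructor <;> linarith
    calc |m4 μ - 3| ≤ 4 * be μ ^ (2 / 3 : ℝ) := this
      _ = be μ ^ (2 / 3 : ℝ) / N / 2 * (8 * N) := by field_simp; ring
  have hd1 : δ ^ (2 / 3 : ℝ) ≤ 1 + δ := by
    rcases le_total δ 1 with h1 | h1
    · have := Real.rpow_le_one hδpos.le h1 (by norm_num : (0:ℝ) ≤ 2 / 3)
      linarith
    · have : δ ^ (2 / 3 : ℝ) ≤ δ ^ (1 : ℝ) := Real.rpow_le_rpow_of_exponent_le h1 (by norm_num)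
      rw [Real.rpow_one] at this
      linarith
  have hd2 : 1 ≤ δ / δ₀ := by rw [le_div_iff₀ hδ₀]; linarith
  have hd3 : δ ≤ δ / δ₀ := by
    rw [le_div_iff₀ hδ₀]; nlinarith
  have := trivial_bd ν ((m4 μ - 3) / (8 * N)) x
  have h10 : 10 / δ₀ * δ = 10 * (δ / δ₀) := by ring
  rw [h10]
  linarith

lemma vbound (β N A t δ c' : ℝ) (hβ : 1 ≤ β) (hN : 0 < N) (hA : N / 2 ≤ A) (hA0 : 0 < A)
    (hc' : 0 < c') (hδ : δ = β / N ^ (3 / 2 : ℝ)) (ht : 0 < t) (htR : t ≤ c' / (2 * δ)) :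
    t / √A ≤ c' * N / β ^ (1 / 3 : ℝ) := by
  have hb : 0 < β := by linarith
  have h1 : β ^ (1 / 3 : ℝ) ≤ β := by
    have : β ^ (1 / 3 : ℝ) ≤ β ^ (1 : ℝ) := Real.rpow_le_rpow_of_exponent_le hβ (by norm_num)
    rwa [Real.rpow_one] at this
  have h2 : c' * N / β ≤ c' * N / β ^ (1 / 3 : ℝ) := by gcongr
  refine le_trans ?_ h2
  apply le_of_sq_le_sq _ (by positivity)
  rw [div_pow, Real.sq_sqrt hA0.le]
  have h3 : t ^ 2 ≤ (c' / (2 * δ)) ^ 2 := by gcongr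
  have h4 : (c' / (2 * δ)) ^ 2 = c' ^ 2 / 4 * (N ^ 3 / β ^ 2) := by
    have e2 : (N ^ (3 / 2 : ℝ)) ^ 2 = N ^ 3 := by
      rw [← Real.rpow_natCast, ← Real.rpow_mul hN.le, ← Real.rpow_natCast]; norm_num
    rw [hδ, div_pow, mul_pow, div_pow, e2]
    field_simp
    ring
  calc t ^ 2 / A ≤ (c' / (2 * δ)) ^ 2 / (N / 2) := by gcongr
    _ = (c' ^ 2 / 2) * (N ^ 2 / β ^ 2) := by rw [h4]; field_simp; ring
    _ ≤ c' ^ 2 * (N ^ 2 / β ^ 2) := by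
      apply mul_le_mul_of_nonneg_right _ (by positivity)
      linarith [pow_pos hc' 2]
    _ = (c' * N / β) ^ 2 := by ring

lemma expbound (β N A t c' v y : ℝ) (hA : A ≤ 2 * N) (hA0 : 0 < A) (hc' : 0 < c')
    (hv2 : v ^ 2 = t ^ 2 / A) (hy : y = N * β ^ (-(2 / 3) : ℝ)) :
    Real.exp (-(c' * N * min (v ^ 2) (β ^ (-(2 / 3) : ℝ)))) ≤
          Real.exp (-(c' / 2) * t ^ 2) + Real.exp (-(c' * y)) := by
  rcases le_total (v ^ 2) (β ^ (-(2 / 3) : ℝ)) with hle | hle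
  · rw [min_eq_left hle]
    have h5 : t ^ 2 / 2 ≤ N * v ^ 2 := by
      rw [hv2, ← mul_div_assoc, div_le_div_iff₀ (by norm_num) hA0]
      have := mul_le_mul_of_nonneg_left hA (sq_nonneg t)
      linarith
    have h6 : Real.exp (-(c' * N * v ^ 2)) ≤ Real.exp (-(c' / 2) * t ^ 2) := by
      apply Real.exp_le_exp.mpr
      have := mul_le_mul_of_nonneg_left h5 hc'.le
      linarith
    have h7 := Real.exp_pos (-(c' * y))
    linarith
  · rw [min_eq_right hle]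
    have h6 : Real.exp (-(c' * N * β ^ (-(2 / 3) : ℝ))) = Real.exp (-(c' * y)) := by
      rw [hy]; ring_nf
    rw [h6]
    have h7 := Real.exp_pos (-(c' / 2) * t ^ 2)
    linarith

lemma j6lem (c' δ y : ℝ) (hc' : 0 < c') (hδpos : 0 < δ) (hy0 : 0 < y) (hy1 : 1 ≤ y)
    (hδy : δ ^ 2 * y ^ 3 = 1) :
    Real.exp (-(c' * y)) * ((c' / (2 * δ)) ^ 3 / 3) ≤ (c' ^ 3 / 24) * (120 / c' ^ 5) := by
  have k1 : (c' / (2 * δ)) ^ 3 / 3 = (c' ^ 3 / 24) * (1 / δ ^ 3) := by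
    field_simp; ring
  have k2 : 1 / δ ^ 3 ≤ y ^ 5 := by
    have k3 : 1 / δ ≤ y ^ 2 := by
      rw [div_le_iff₀ hδpos]
      by_contra hlt
      push Not at hlt
      have k4 : (y ^ 2 * δ) ^ 2 < 1 := pow_lt_one₀ (by positivity) hlt (by norm_num)
      have k5 : (y ^ 2 * δ) ^ 2 = y * (δ ^ 2 * y ^ 3) := by ring
      rw [k5, hδy] at k4
      linarith
    have k6 : 1 / δ ^ 3 = 1 / δ * y ^ 3 := by
      rw [div_mul_eq_mul_div, one_mul, div_eq_div_iff (by positivity) (by positivity)]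
      calc 1 * δ = δ * (δ ^ 2 * y ^ 3) := by rw [hδy]; ring
        _ = y ^ 3 * δ ^ 3 := by ring
    rw [k6]
    calc 1 / δ * y ^ 3 ≤ y ^ 2 * y ^ 3 := by gcongr
      _ = y ^ 5 := by ring
  rw [k1]
  calc Real.exp (-(c' * y)) * (c' ^ 3 / 24 * (1 / δ ^ 3))
      = (c' ^ 3 / 24) * ((1 / δ ^ 3) * Real.exp (-(c' * y))) := by ring
    _ ≤ (c' ^ 3 / 24) * (y ^ 5 * Real.exp (-(c' * y))) := by gcongr
    _ ≤ (c' ^ 3 / 24) * (120 / c' ^ 5) := by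
      apply mul_le_mul_of_nonneg_left (pow_exp_le c' y hc' hy0.le) (by positivity)

lemma gcbound (cc t : ℝ) (hcabs : |cc| ≤ 1) :
    ‖((gc cc t : ℝ) : ℂ)‖ ≤ (1 + t ^ 4) * Real.exp (-(1 / 2) * t ^ 2) := by
  rw [Complex.norm_real, Real.norm_eq_abs, gc, abs_mul, abs_of_pos (Real.exp_pos _),
    show -t ^ 2 / 2 = -(1 / 2) * t ^ 2 by ring]
  apply mul_le_mul_of_nonneg_right _ (Real.exp_pos _).le
  calc |1 + cc * t ^ 4| ≤ |1| + |cc * t ^ 4| := abs_add_le _ _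
    _ = 1 + |cc| * t ^ 4 := by
      rw [abs_one, abs_mul, abs_of_nonneg (by positivity : (0:ℝ) ≤ t ^ 4)]
    _ ≤ 1 + 1 * t ^ 4 := by gcongr
    _ = 1 + t ^ 4 := by ring

/-- the bounding function -/
noncomputable def bfn (KS δ c₀ c' y t : ℝ) : ℝ := KS * δ * (t ^ 3 * Real.exp (-(1 / 4) * t ^ 2)) +
    KS * δ * (t ^ 9 * Real.exp (-(1 / 4) * t ^ 2)) +
    (δ / c₀) * (t ^ 2 * Real.exp (-(c' / 2) * t ^ 2)) +
    (δ / c₀) * (t ^ 2 * Real.exp (-(1 / 2) * t ^ 2)) +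
    (δ / c₀) * (t ^ 6 * Real.exp (-(1 / 2) * t ^ 2)) +
    (δ / c₀) * Real.exp (-(c' * y)) * t ^ 2

lemma bfn_cont (KS δ c₀ c' y : ℝ) : Continuous (bfn KS δ c₀ c' y) := by
  unfold bfn; fun_prop

lemma bfn_int (KS δ c₀ c' y R G1 G2 G3 G4 G5 G6 : ℝ) (hKS : 0 < KS) (hδ : 0 < δ) (hc₀ : 0 < c₀)
    (j1 : ∫ t in (0:ℝ)..R, t ^ 3 * Real.exp (-(1 / 4) * t ^ 2) ≤ G1)
    (j2 : ∫ t in (0:ℝ)..R, t ^ 9 * Real.exp (-(1 / 4) * t ^ 2) ≤ G2)
    (j3 : ∫ t in (0:ℝ)..R, t ^ 2 * Real.exp (-(c' / 2) * t ^ 2) ≤ G3)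
    (j4 : ∫ t in (0:ℝ)..R, t ^ 2 * Real.exp (-(1 / 2) * t ^ 2) ≤ G4)
    (j5 : ∫ t in (0:ℝ)..R, t ^ 6 * Real.exp (-(1 / 2) * t ^ 2) ≤ G5)
    (j6 : Real.exp (-(c' * y)) * (R ^ 3 / 3) ≤ G6) :
    ∫ t in (0:ℝ)..R, bfn KS δ c₀ c' y t ≤ (KS * (G1 + G2) + (G3 + G4 + G5 + G6) / c₀) * δ := by
  have hc1 : Continuous fun t : ℝ => KS * δ * (t ^ 3 * Real.exp (-(1 / 4) * t ^ 2)) := by fun_prop
  have hc2 : Continuous fun t : ℝ => KS * δ * (t ^ 9 * Real.exp (-(1 / 4) * t ^ 2)) := by fun_prop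
  have hc3 : Continuous fun t : ℝ => (δ / c₀) * (t ^ 2 * Real.exp (-(c' / 2) * t ^ 2)) := by
    fun_prop
  have hc4 : Continuous fun t : ℝ => (δ / c₀) * (t ^ 2 * Real.exp (-(1 / 2) * t ^ 2)) := by
    fun_prop
  have hc5 : Continuous fun t : ℝ => (δ / c₀) * (t ^ 6 * Real.exp (-(1 / 2) * t ^ 2)) := by
    fun_prop
  have hc6 : Continuous fun t : ℝ => (δ / c₀) * Real.exp (-(c' * y)) * t ^ 2 := by fun_prop
  have hsum : ∫ t in (0:ℝ)..R, bfn KS δ c₀ c' y t =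
      KS * δ * (∫ t in (0:ℝ)..R, t ^ 3 * Real.exp (-(1 / 4) * t ^ 2)) +
      KS * δ * (∫ t in (0:ℝ)..R, t ^ 9 * Real.exp (-(1 / 4) * t ^ 2)) +
      (δ / c₀) * (∫ t in (0:ℝ)..R, t ^ 2 * Real.exp (-(c' / 2) * t ^ 2)) +
      (δ / c₀) * (∫ t in (0:ℝ)..R, t ^ 2 * Real.exp (-(1 / 2) * t ^ 2)) +
      (δ / c₀) * (∫ t in (0:ℝ)..R, t ^ 6 * Real.exp (-(1 / 2) * t ^ 2)) +
      (δ / c₀) * (Real.exp (-(c' * y)) * (R ^ 3 / 3)) := by
    unfold bfn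
    rw [intervalIntegral.integral_add (by apply Continuous.intervalIntegrable; fun_prop)
      (hc6.intervalIntegrable _ _)]
    rw [intervalIntegral.integral_add (by apply Continuous.intervalIntegrable; fun_prop)
      (hc5.intervalIntegrable _ _)]
    rw [intervalIntegral.integral_add (by apply Continuous.intervalIntegrable; fun_prop)
      (hc4.intervalIntegrable _ _)]
    rw [intervalIntegral.integral_add (by apply Continuous.intervalIntegrable; fun_prop)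
      (hc3.intervalIntegrable _ _)]
    rw [intervalIntegral.integral_add (by apply Continuous.intervalIntegrable; fun_prop)
      (hc2.intervalIntegrable _ _)]
    simp only [intervalIntegral.integral_const_mul, integral_pow]
    ring
  rw [hsum]
  have hKBd : (KS * (G1 + G2) + (G3 + G4 + G5 + G6) / c₀) * δ =
      KS * δ * G1 + KS * δ * G2 + (δ / c₀) * G3 + (δ / c₀) * G4 +
      (δ / c₀) * G5 + (δ / c₀) * G6 := by
    field_simp; ring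
  rw [hKBd]
  gcongr

theorem law (hE : S_Ess) (hL : S_Log) (hS : S_Small) (hM : S_Mid) (hC : S_Cos) (hW : S_Weight)
    (hR : S_Riem) (hCo : S_Coeff) (hLy : S_Lyap) : S_Law := by
  obtain ⟨KE, hKE, hE⟩ := hE
  obtain ⟨w, a, b, p, q, hw, hw2, ha, hp, hpq, hq, hwf⟩ := hW
  obtain ⟨K₀, N₁, hK₀, hN₁, hCo⟩ := hCo hR w hw hw2
  obtain ⟨c₀, KS, hc₀, hKS, hS⟩ := hS hL K₀ hK₀
  obtain ⟨η, c, N₂, hη, hc, hC⟩ := hC a b p q ha hp hpq hq
  obtain ⟨c', hc', hM⟩ := hM η c hη hc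
  obtain ⟨G1, hG1, hG1'⟩ := gint 3 (1 / 4) (by norm_num)
  obtain ⟨G2, hG2, hG2'⟩ := gint 9 (1 / 4) (by norm_num)
  obtain ⟨G3, hG3, hG3'⟩ := gint 2 (c' / 2) (by positivity)
  obtain ⟨G4, hG4, hG4'⟩ := gint 2 (1 / 2) (by norm_num)
  obtain ⟨G5, hG5, hG5'⟩ := gint 6 (1 / 2) (by norm_num)
  set N₀ : ℕ := max N₁ N₂ with hN₀
  have hN₀1 : 1 ≤ N₀ := le_trans hN₁ (le_max_left _ _)
  have hN₀' : (1:ℝ) ≤ N₀ := by exact_mod_cast hN₀1
  set δ₀ : ℝ := 1 / (N₀:ℝ) ^ (3 / 2 : ℝ) with hδ₀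
  have hδ₀pos : 0 < δ₀ := by positivity
  have hδ₀1 : δ₀ ≤ 1 := by
    rw [hδ₀, div_le_one (by positivity)]
    exact Real.one_le_rpow hN₀' (by norm_num)
  set KB : ℝ := KS * (G1 + G2) + (G3 + G4 + G5 + (c' ^ 3 / 24) * (120 / c' ^ 5)) / c₀ with hKB
  have hKBnn : 0 ≤ KB := by positivity
  refine ⟨10 / δ₀ + KE * (KB + 2 / c'), by positivity, w, hw, ?_⟩
  intro μ _ hμ N ν _ hN2 hAN hν x
  obtain ⟨hb1, hb2⟩ := hLy μ hμ
  have hb : 0 < be μ := by linarith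
  have hN1 : 1 ≤ N := by omega
  have hNpos : (0:ℝ) < N := by exact_mod_cast hN1
  have hN1' : (1:ℝ) ≤ N := by exact_mod_cast hN1
  set δ := be μ / (N:ℝ) ^ (3 / 2 : ℝ) with hδ
  have hδpos : 0 < δ := by positivity
  have hgoal : (10 / δ₀ + KE * (KB + 2 / c')) * be μ / (N:ℝ) ^ (3 / 2 : ℝ) =
      10 / δ₀ * δ + KE * (KB + 2 / c') * δ := by rw [hδ]; ring
  rw [hgoal]
  by_cases hcase : δ₀ ≤ δ ∧ (N < N₀ ∨ 1 < δ)
  · have h1 := law_triv hLy δ₀ hδ₀pos hδ₀1 μ hμ N hN1 ν hcase.1 x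
    have h2 : 0 ≤ KE * (KB + 2 / c') * δ := by positivity
    rw [← hδ] at h1
    linarith
  have hNN : N₀ ≤ N := by
    by_contra hlt
    push Not at hlt
    apply hcase
    refine ⟨?_, Or.inl hlt⟩
    rw [hδ₀, hδ]
    have : (N:ℝ) ^ (3 / 2 : ℝ) ≤ (N₀:ℝ) ^ (3 / 2 : ℝ) :=
      Real.rpow_le_rpow hNpos.le (by exact_mod_cast hlt.le) (by norm_num)
    gcongr
  have hδ1 : δ ≤ 1 := by
    by_contra hlt
    push Not at hlt
    exact hcase ⟨by linarith, Or.inr hlt⟩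
  obtain ⟨hA1, hA2, hth1, hth2, hth5, hth4⟩ := hCo N (le_trans (le_max_left _ _) hNN)
  have hCN := hC N (le_trans (le_max_right _ _) hNN) (fun x => √(w x)) hwf
  have hm4 : 0 ≤ m4 μ := integral_nonneg fun x => by positivity
  -- powers of `δ`
  have hδ23 : δ ^ (2 / 3 : ℝ) = be μ ^ (2 / 3 : ℝ) / N := by
    rw [hδ, Real.div_rpow hb.le (by positivity), ← Real.rpow_mul hNpos.le]
    norm_num
  have hb3 : 1 ≤ be μ ^ (2 / 3 : ℝ) := Real.one_le_rpow hb1 (by norm_num)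
  set cc : ℝ := (m4 μ - 3) / (8 * N) with hcc
  have hcabs : |cc| ≤ 1 := by
    have h1 : |cc| ≤ δ ^ (2 / 3 : ℝ) / 2 := by
      rw [hcc, hδ23, abs_div, abs_of_pos (by positivity : (0:ℝ) < 8 * N),
        div_le_iff₀ (by positivity)]
      have : |m4 μ - 3| ≤ 4 * be μ ^ (2 / 3 : ℝ) := by
        rw [abs_le]; constructor <;> linarith
      calc |m4 μ - 3| ≤ 4 * be μ ^ (2 / 3 : ℝ) := this
        _ = be μ ^ (2 / 3 : ℝ) / N / 2 * (8 * N) := by field_simp; ring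
    have h2 : δ ^ (2 / 3 : ℝ) ≤ 1 := Real.rpow_le_one hδpos.le hδ1 (by norm_num)
    linarith
  set y : ℝ := N * be μ ^ (-(2 / 3) : ℝ) with hy
  have hy0 : 0 < y := by positivity
  have hδy : δ ^ 2 * y ^ 3 = 1 := by
    have e1 : (be μ ^ (-(2 / 3) : ℝ)) ^ 3 = be μ ^ (-2 : ℝ) := by
      rw [← Real.rpow_natCast, ← Real.rpow_mul hb.le]; norm_num
    have e2 : ((N:ℝ) ^ (3 / 2 : ℝ)) ^ 2 = (N:ℝ) ^ 3 := by
      rw [← Real.rpow_natCast, ← Real.rpow_mul hNpos.le, ← Real.rpow_natCast]; norm_num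
    have e3 : be μ ^ (-2 : ℝ) = (be μ ^ 2)⁻¹ := by
      rw [Real.rpow_neg hb.le]; norm_num
    rw [hδ, hy, mul_pow, e1, div_pow, e2, e3]
    field_simp
  have hy1 : 1 ≤ y := by
    by_contra hlt
    push Not at hlt
    have h1 : y ^ 3 < 1 := pow_lt_one₀ hy0.le hlt (by norm_num)
    have h2 : δ ^ 2 ≤ 1 := pow_le_one₀ hδpos.le hδ1
    have h3 := mul_le_mul_of_nonneg_right h2 (pow_pos hy0 3).le
    linarith
  set R : ℝ := c' / (2 * δ) with hRdef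
  have hRpos : 0 < R := by positivity
  have hbfc : Continuous (bfn KS δ c₀ c' y) := bfn_cont KS δ c₀ c' y
  have hmain : ∀ t : ℝ, 0 < t → t ≤ R → ‖charFun ν t - ((gc cc t : ℝ) : ℂ)‖ ≤
      t * bfn KS δ c₀ c' y t := by
    intro t ht htR
    have hn1 : 0 ≤ KS * δ * (t ^ 3 * Real.exp (-(1 / 4) * t ^ 2)) := by positivity
    have hn2 : 0 ≤ KS * δ * (t ^ 9 * Real.exp (-(1 / 4) * t ^ 2)) := by positivity
    have hn3 : 0 ≤ (δ / c₀) * (t ^ 2 * Real.exp (-(c' / 2) * t ^ 2)) := by positivity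
    have hn4 : 0 ≤ (δ / c₀) * (t ^ 2 * Real.exp (-(1 / 2) * t ^ 2)) := by positivity
    have hn5 : 0 ≤ (δ / c₀) * (t ^ 6 * Real.exp (-(1 / 2) * t ^ 2)) := by positivity
    have hn6 : 0 ≤ (δ / c₀) * Real.exp (-(c' * y)) * t ^ 2 := by positivity
    rw [hν t]
    by_cases hsm : |t| ^ 3 * δ ≤ c₀
    · have h1 := hS μ hμ hb1 hb2 (Finset.Ico 1 N) (th w N) N hN1 hth1 hth2 hth5 hth4 δ hδ hδ1 t hsm
      refine h1.trans ?_
      have e1 : KS * δ * (t ^ 4 + t ^ 10) * Real.exp (-t ^ 2 / 4) =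
          t * (KS * δ * (t ^ 3 * Real.exp (-(1 / 4) * t ^ 2)) +
            KS * δ * (t ^ 9 * Real.exp (-(1 / 4) * t ^ 2))) := by
        rw [show -t ^ 2 / 4 = -(1 / 4) * t ^ 2 by ring]; ring
      rw [e1]
      apply mul_le_mul_of_nonneg_left _ ht.le
      simp only [bfn]
      linarith
    · push Not at hsm
      rw [abs_of_pos ht] at hsm
      have hone : 1 ≤ t ^ 3 * (δ / c₀) := by
        rw [← mul_div_assoc, le_div_iff₀ hc₀]; linarith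
      -- the product
      have hsq : √(AN w N) ^ 2 = AN w N := Real.sq_sqrt hAN.le
      have hsqpos : 0 < √(AN w N) := Real.sqrt_pos.mpr hAN
      set v : ℝ := t / √(AN w N) with hv
      have hvpos : 0 < v := by positivity
      have hv2 : v ^ 2 = t ^ 2 / AN w N := by rw [hv, div_pow, hsq]
      have hprod : ∏ n ∈ Finset.Ico 1 N, charFun μ (th w N n * t) =
          ∏ n ∈ Finset.Ico 1 N, charFun μ (√(w ((n:ℝ) / N)) * v) := by
        refine Finset.prod_congr rfl fun n _ => ?_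
        congr 1
        rw [th, hv]; ring
      have hvle : |v| ≤ c' * N / be μ ^ (1 / 3 : ℝ) := by
        rw [abs_of_pos hvpos]
        exact vbound (be μ) N (AN w N) t δ c' hb1 hNpos hA1 hAN hc' hδ ht htR
      have h2 := hM μ hμ hb1 (Finset.Ico 1 N) (fun n => √(w ((n:ℝ) / N))) N hNpos
        (fun v hv => hCN v hv) v hvle
      have h3 := gcbound cc t hcabs
      have h4 := expbound (be μ) N (AN w N) t c' v y hA2 hAN hc' hv2 hy
      have h5 : ‖∏ n ∈ Finset.Ico 1 N, charFun μ (th w N n * t) - ((gc cc t : ℝ) : ℂ)‖ ≤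
          Real.exp (-(c' / 2) * t ^ 2) + Real.exp (-(c' * y)) +
            (1 + t ^ 4) * Real.exp (-(1 / 2) * t ^ 2) := by
        rw [hprod]
        refine (norm_sub_le _ _).trans ?_
        linarith
      set Q : ℝ := Real.exp (-(c' / 2) * t ^ 2) + Real.exp (-(c' * y)) +
            (1 + t ^ 4) * Real.exp (-(1 / 2) * t ^ 2) with hQ
      have hQ0 : 0 ≤ Q := by positivity
      calc ‖∏ n ∈ Finset.Ico 1 N, charFun μ (th w N n * t) - ((gc cc t : ℝ) : ℂ)‖ ≤ Q := h5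
        _ = 1 * Q := by ring
        _ ≤ (t ^ 3 * (δ / c₀)) * Q := by gcongr
        _ = t * ((δ / c₀) * (t ^ 2 * Real.exp (-(c' / 2) * t ^ 2)) +
            (δ / c₀) * (t ^ 2 * Real.exp (-(1 / 2) * t ^ 2)) +
            (δ / c₀) * (t ^ 6 * Real.exp (-(1 / 2) * t ^ 2)) +
            (δ / c₀) * Real.exp (-(c' * y)) * t ^ 2) := by rw [hQ]; ring
        _ ≤ t * bfn KS δ c₀ c' y t := by
          apply mul_le_mul_of_nonneg_left _ ht.le
          simp only [bfn]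
          linarith
  have hEss := hE ν cc R (bfn KS δ c₀ c' y) hcabs hRpos hbfc hmain x
  refine hEss.trans ?_
  have hint := bfn_int KS δ c₀ c' y R G1 G2 G3 G4 G5 _ hKS hδpos hc₀ (hG1' R hRpos.le)
    (hG2' R hRpos.le) (hG3' R hRpos.le) (hG4' R hRpos.le) (hG5' R hRpos.le)
    (j6lem c' δ y hc' hδpos hy0 hy1 hδy)
  rw [← hKB] at hint
  have h1R : 1 / R = 2 / c' * δ := by rw [hRdef]; field_simp
  rw [h1R]
  have : 0 ≤ 10 / δ₀ * δ := by positivity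
  calc KE * ((∫ t in (0:ℝ)..R, bfn KS δ c₀ c' y t) + 2 / c' * δ)
      ≤ KE * (KB * δ + 2 / c' * δ) := by gcongr
    _ = KE * (KB + 2 / c') * δ := by ring
    _ ≤ 10 / δ₀ * δ + KE * (KB + 2 / c') * δ := by linarith

end Pool.Agent.Q293.EW
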