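import Pool.Agent.Q293.EW.Lyap

set_option autoImplicit false

namespace Pool.Agent.Q293.EW

open MeasureTheory ProbabilityTheory Set Filter Topology

lemma normSq_charFun (μ : Measure ℝ) [IsProbabilityMeasure μ] (u : ℝ) :
    ‖charFun μ u‖ ^ 2 = ∫ z, Real.cos (u * (z.1 - z.2)) ∂(μ.prod μ) := by
  have h1 : charFun μ u * charFun μ (-u) =
      ∫ z, Complex.exp (((u * (z.1 - z.2) : ℝ) : ℂ) * Complex.I) ∂(μ.prod μ) := by
    rw [charFun_apply_real, charFun_apply_real, ← integral_prod_mul]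
    congr 1
    funext z
    rw [← Complex.exp_add]
    congr 1
    push_cast
    ring
  have h2 : charFun μ u * charFun μ (-u) = ((‖charFun μ u‖ ^ 2 : ℝ) : ℂ) := by
    rw [charFun_neg, Complex.mul_conj, Complex.normSq_eq_norm_sq]
  have h3 : Integrable (fun z : ℝ × ℝ =>
      Complex.exp (((u * (z.1 - z.2) : ℝ) : ℂ) * Complex.I)) (μ.prod μ) := by
    apply Integrable.mono' (g := fun _ => (1:ℝ)) (integrable_const 1)
      (by apply Continuous.aestronglyMeasurable; fun_prop)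
    refine Eventually.of_forall fun z => ?_
    rw [Complex.norm_exp_ofReal_mul_I]
  have h4 := congrArg Complex.re h1
  rw [h2, Complex.ofReal_re] at h4
  rw [h4]
  have h5 := integral_re h3
  simp only [RCLike.re_to_complex] at h5
  rw [← h5]
  congr 1
  funext z
  rw [Complex.exp_ofReal_mul_I_re]

lemma int_diff (μ : Measure ℝ) [IsProbabilityMeasure μ] (hμ : Mom μ) :
    Integrable (fun z : ℝ × ℝ => (z.1 - z.2) ^ 2) (μ.prod μ) ∧
    Integrable (fun z : ℝ × ℝ => |z.1 - z.2| ^ 5) (μ.prod μ) ∧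
    ∫ z, (z.1 - z.2) ^ 2 ∂(μ.prod μ) = 2 ∧
    ∫ z, |z.1 - z.2| ^ 5 ∂(μ.prod μ) ≤ 32 * be μ := by
  have i1 := int_pow μ hμ 1 (by norm_num)
  have i2 := int_pow μ hμ 2 (by norm_num)
  have i5 := hμ.int5
  simp only [pow_one] at i1
  have j2a : Integrable (fun z : ℝ × ℝ => z.1 ^ 2) (μ.prod μ) := i2.comp_fst μ
  have j2b : Integrable (fun z : ℝ × ℝ => z.2 ^ 2) (μ.prod μ) := i2.comp_snd μ
  have j5a : Integrable (fun z : ℝ × ℝ => |z.1| ^ 5) (μ.prod μ) := i5.comp_fst μ
  have j5b : Integrable (fun z : ℝ × ℝ => |z.2| ^ 5) (μ.prod μ) := i5.comp_snd μ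
  have j11 : Integrable (fun z : ℝ × ℝ => z.1 * z.2) (μ.prod μ) := i1.mul_prod i1
  have e2 : (fun z : ℝ × ℝ => (z.1 - z.2) ^ 2) = fun z => (z.1 ^ 2 - 2 * (z.1 * z.2)) + z.2 ^ 2 := by
    funext z; ring
  have hI2 : Integrable (fun z : ℝ × ℝ => (z.1 - z.2) ^ 2) (μ.prod μ) := by
    rw [e2]; exact (j2a.sub (j11.const_mul 2)).add j2b
  have hpt : ∀ z : ℝ × ℝ, |z.1 - z.2| ^ 5 ≤ 16 * |z.1| ^ 5 + 16 * |z.2| ^ 5 := by
    intro z
    have h1 : |z.1 - z.2| ≤ |z.1| + |z.2| := abs_sub _ _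
    have h2 : |z.1 - z.2| ^ 5 ≤ (|z.1| + |z.2|) ^ 5 := pow_le_pow_left₀ (abs_nonneg _) h1 5
    have h3 := add_pow_le (abs_nonneg z.1) (abs_nonneg z.2) 5
    norm_num at h3
    linarith
  have hI5 : Integrable (fun z : ℝ × ℝ => |z.1 - z.2| ^ 5) (μ.prod μ) := by
    apply ((j5a.const_mul 16).add (j5b.const_mul 16)).mono'
      (by apply Continuous.aestronglyMeasurable; fun_prop)
    refine Eventually.of_forall fun z => ?_
    rw [Real.norm_eq_abs, abs_of_nonneg (by positivity)]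
    exact hpt z
  refine ⟨hI2, hI5, ?_, ?_⟩
  · have j2c : Integrable (fun z : ℝ × ℝ => z.1 ^ 2 - 2 * (z.1 * z.2)) (μ.prod μ) :=
      j2a.sub (j11.const_mul 2)
    rw [e2, integral_add j2c j2b, integral_sub j2a (j11.const_mul 2),
      integral_const_mul, integral_prod_mul (fun x : ℝ => x) (fun y : ℝ => y),
      integral_fun_fst (fun x : ℝ => x ^ 2), integral_fun_snd (fun x : ℝ => x ^ 2), hμ.m1, hμ.m2]
    simp
    norm_num
  · have h := integral_mono hI5 ((j5a.const_mul 16).add (j5b.const_mul 16)) hpt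
    refine h.trans ?_
    rw [integral_add' (j5a.const_mul 16) (j5b.const_mul 16), integral_const_mul, integral_const_mul,
      integral_fun_fst (fun x : ℝ => |x| ^ 5), integral_fun_snd (fun x : ℝ => |x| ^ 5)]
    simp only [probReal_univ, one_smul]
    unfold be
    linarith

theorem mid : S_Mid := by
  intro η c hη hc
  refine ⟨min (η / 4) (3 * c / 64), by positivity, ?_⟩
  intro μ _ hμ hb1 s f M hM hcos v hv
  have hb : 0 < be μ := by linarith
  set c' := min (η / 4) (3 * c / 64) with hc'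
  have hc'pos : 0 < c' := by positivity
  set l := be μ ^ (1 / 3 : ℝ) with hl
  have hl0 : 0 < l := by positivity
  have hl3 : l ^ 3 = be μ := by
    rw [hl, ← Real.rpow_natCast, ← Real.rpow_mul hb.le]; norm_num
  have hl2 : be μ ^ (-(2 / 3) : ℝ) = 1 / l ^ 2 := by
    rw [hl, ← Real.rpow_natCast, ← Real.rpow_mul hb.le, one_div, ← Real.rpow_neg hb.le]; norm_num
  obtain ⟨hI2, hI5, hv2, hv5⟩ := int_diff μ hμ
  set K := 4 * l with hK
  have hK0 : 0 < K := by positivity
  set m := min (v ^ 2) (1 / K ^ 2) with hm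
  have hm0 : 0 ≤ m := le_min (sq_nonneg _) (by positivity)
  have hnn : ∀ x : ℝ, 0 ≤ 1 - Real.cos x := fun x => by linarith [Real.cos_le_one x]
  -- the pointwise bound
  have hpt : ∀ z : ℝ × ℝ, c * M * m * ((z.1 - z.2) ^ 2 - |z.1 - z.2| ^ 5 / K ^ 3) ≤
      ∑ n ∈ s, (1 - Real.cos (f n * v * (z.1 - z.2))) := by
    intro z
    set Y := z.1 - z.2 with hY
    have hsn : 0 ≤ ∑ n ∈ s, (1 - Real.cos (f n * v * Y)) := Finset.sum_nonneg fun n _ => hnn _
    rcases le_or_gt |Y| K with h1 | h1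
    · have h2 : |v * Y| ≤ η * M := by
        rw [abs_mul]
        calc |v| * |Y| ≤ (c' * M / l) * K := by gcongr
          _ = 4 * c' * M := by rw [hK]; field_simp
          _ ≤ 4 * (η / 4) * M := by gcongr; exact min_le_left _ _
          _ = η * M := by ring
      have h3 := hcos (v * Y) h2
      have h4 : m * Y ^ 2 ≤ min ((v * Y) ^ 2) 1 := by
        apply le_min
        · rw [mul_pow]
          exact mul_le_mul_of_nonneg_right (min_le_left _ _) (sq_nonneg _)
        · calc m * Y ^ 2 ≤ (1 / K ^ 2) * K ^ 2 := by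
                apply mul_le_mul (min_le_right _ _) _ (sq_nonneg _) (by positivity)
                rw [← sq_abs]; gcongr
            _ = 1 := by field_simp
      have h5 : ∑ n ∈ s, (1 - Real.cos (v * Y * f n)) = ∑ n ∈ s, (1 - Real.cos (f n * v * Y)) := by
        refine Finset.sum_congr rfl fun n _ => ?_
        rw [show v * Y * f n = f n * v * Y by ring]
      rw [h5] at h3
      refine le_trans ?_ h3
      calc c * M * m * (Y ^ 2 - |Y| ^ 5 / K ^ 3) ≤ c * M * m * Y ^ 2 := by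
            gcongr
            have : 0 ≤ |Y| ^ 5 / K ^ 3 := by positivity
            linarith
        _ = c * M * (m * Y ^ 2) := by ring
        _ ≤ c * M * min ((v * Y) ^ 2) 1 := by gcongr
    · have h2 : Y ^ 2 - |Y| ^ 5 / K ^ 3 ≤ 0 := by
        rw [sub_nonpos, le_div_iff₀ (by positivity), ← sq_abs]
        have : K ^ 3 ≤ |Y| ^ 3 := by gcongr
        calc |Y| ^ 2 * K ^ 3 ≤ |Y| ^ 2 * |Y| ^ 3 := by gcongr
          _ = |Y| ^ 5 := by ring
      have h3 : c * M * m * (Y ^ 2 - |Y| ^ 5 / K ^ 3) ≤ 0 :=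
        mul_nonpos_of_nonneg_of_nonpos (by positivity) h2
      linarith
  have hic : ∀ n, Integrable (fun z : ℝ × ℝ => 1 - Real.cos (f n * v * (z.1 - z.2))) (μ.prod μ) := by
    intro n
    apply Integrable.mono' (g := fun _ => (2:ℝ)) (integrable_const 2)
      (by apply Continuous.aestronglyMeasurable; fun_prop)
    refine Eventually.of_forall fun z => ?_
    rw [Real.norm_eq_abs, abs_of_nonneg (hnn _)]
    linarith [Real.neg_one_le_cos (f n * v * (z.1 - z.2))]
  have hint : c * M * m * (3 / 2) ≤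
      ∑ n ∈ s, ∫ z, (1 - Real.cos (f n * v * (z.1 - z.2))) ∂(μ.prod μ) := by
    rw [← integral_finsetSum s (fun n _ => hic n)]
    have h1 := integral_mono ((hI2.sub (hI5.div_const (K ^ 3))).const_mul (c * M * m))
      (integrable_finsetSum s (fun n _ => hic n)) hpt
    refine le_trans ?_ h1
    rw [integral_const_mul, integral_sub' hI2 (hI5.div_const (K ^ 3)), integral_div, hv2]
    have hK3 : K ^ 3 = 64 * be μ := by rw [hK, mul_pow, hl3]; norm_num
    have h2 : (∫ z, |z.1 - z.2| ^ 5 ∂(μ.prod μ)) / K ^ 3 ≤ 1 / 2 := by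
      rw [div_le_iff₀ (by positivity), hK3]
      linarith
    apply mul_le_mul_of_nonneg_left _ (by positivity)
    linarith
  have hone : ∀ n, ‖charFun μ (f n * v)‖ ^ 2 ≤
      Real.exp (-∫ z, (1 - Real.cos (f n * v * (z.1 - z.2))) ∂(μ.prod μ)) := by
    intro n
    have h1 : ∫ z, (1 - Real.cos (f n * v * (z.1 - z.2))) ∂(μ.prod μ) =
        1 - ‖charFun μ (f n * v)‖ ^ 2 := by
      rw [normSq_charFun, integral_sub (integrable_const 1)]
      · simp
      · have := (integrable_const (μ := μ.prod μ) (1:ℝ)).sub (hic n)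
        refine this.congr (Eventually.of_forall fun z => ?_)
        simp
    rw [h1]
    have := Real.add_one_le_exp (-(1 - ‖charFun μ (f n * v)‖ ^ 2))
    linarith
  have hprod : ‖∏ n ∈ s, charFun μ (f n * v)‖ ^ 2 ≤ Real.exp (-(c * M * m * (3 / 2))) := by
    rw [norm_prod, ← Finset.prod_pow]
    calc ∏ n ∈ s, ‖charFun μ (f n * v)‖ ^ 2 ≤
          ∏ n ∈ s, Real.exp (-∫ z, (1 - Real.cos (f n * v * (z.1 - z.2))) ∂(μ.prod μ)) :=
        Finset.prod_le_prod (fun n _ => by positivity) (fun n _ => hone n)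
      _ = Real.exp (-∑ n ∈ s, ∫ z, (1 - Real.cos (f n * v * (z.1 - z.2))) ∂(μ.prod μ)) := by
        rw [← Real.exp_sum, Finset.sum_neg_distrib]
      _ ≤ _ := Real.exp_le_exp.mpr (by linarith)
  have hfin : c' * M * min (v ^ 2) (be μ ^ (-(2 / 3) : ℝ)) ≤ c * M * m * (3 / 2) / 2 := by
    have h1 : min (v ^ 2) (be μ ^ (-(2 / 3) : ℝ)) ≤ 16 * m := by
      rw [hl2, hm, hK]
      rcases le_total (v ^ 2) (1 / (4 * l) ^ 2) with h | h
      · rw [min_eq_left h]
        have := min_le_left (v ^ 2) (1 / l ^ 2)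
        linarith [sq_nonneg v]
      · rw [min_eq_right h]
        have := min_le_right (v ^ 2) (1 / l ^ 2)
        have e : 16 * (1 / (4 * l) ^ 2) = 1 / l ^ 2 := by field_simp; ring
        linarith
    calc c' * M * min (v ^ 2) (be μ ^ (-(2 / 3) : ℝ)) ≤ (3 * c / 64) * M * (16 * m) := by
          gcongr
          exact min_le_right _ _
      _ = c * M * m * (3 / 2) / 2 := by ring
  apply le_of_sq_le_sq _ (Real.exp_pos _).le
  refine hprod.trans ?_
  rw [← Real.exp_nat_mul]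
  apply Real.exp_le_exp.mpr
  push_cast
  linarith

end Pool.Agent.Q293.EW
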