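import Pool.Agent.Q293.EW.Stm

set_option autoImplicit false

namespace Pool.Agent.Q293.EW

open MeasureTheory ProbabilityTheory Set Filter Topology

theorem probj.{u} : S_Prob.{u} := by
  intro Ω _ P _ X mX hindep hid s θ t
  have h1 : iIndepFun (fun n ω => θ n * X n ω) P :=
    hindep.comp (fun n x => θ n * x) (fun n => by fun_prop)
  have h2 := (h1.restrict s).charFun_map_fun_finsetSum_eq_prod
    (s := s) (fun n _ => ((mX n).const_mul (θ n)).aemeasurable)
  have h3 := congrFun h2 t
  rw [h3, Finset.prod_apply]
  refine Finset.prod_congr rfl fun n _ => ?_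
  have h4 := charFun_map_mul_comp (μ := P) (f := X n) (mX n).aemeasurable (θ n) t
  rw [h4, (hid n).map_eq]

end Pool.Agent.Q293.EW
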