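import Pool.Agent.Q293.EW.Stm

set_option autoImplicit false

namespace Pool.Agent.Q293.EW

open MeasureTheory ProbabilityTheory Set Filter Topology

theorem riem : S_Riem := by
  intro w hw hcs
  obtain ⟨C, hC⟩ := hw.lipschitzWith_of_hasCompactSupport hcs (by simp)
  have hcont : Continuous w := hw.continuous
  refine ⟨C + 1, by positivity, ?_⟩
  intro N hN
  have hNpos : (0:ℝ) < N := by exact_mod_cast hN
  have hadj : ∑ k ∈ Finset.range N, ∫ x in ((k:ℝ) / N)..(((k + 1 : ℕ) : ℝ) / N), w x =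
      ∫ x in (0:ℝ)..1, w x := by
    have := intervalIntegral.sum_integral_adjacent_intervals (μ := volume) (f := w)
      (a := fun k : ℕ => (k:ℝ) / N) (n := N) (fun k _ => hcont.intervalIntegrable _ _)
    simp only [Nat.cast_zero, zero_div] at this
    rw [div_self hNpos.ne'] at this
    exact this
  have hdiff : ∀ k ∈ Finset.range N,
      |w ((k:ℝ) / N) - N * ∫ x in ((k:ℝ) / N)..(((k + 1 : ℕ) : ℝ) / N), w x| ≤ C / N := by
    intro k _
    have hle : (k:ℝ) / N ≤ ((k + 1 : ℕ) : ℝ) / N := by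
      apply div_le_div_of_nonneg_right _ hNpos.le
      push_cast; linarith
    have hlen : ((k + 1 : ℕ) : ℝ) / N - (k:ℝ) / N = 1 / N := by push_cast; ring
    have hconst : w ((k:ℝ) / N) = N * ∫ _ in ((k:ℝ) / N)..(((k + 1 : ℕ) : ℝ) / N), w ((k:ℝ) / N) := by
      rw [intervalIntegral.integral_const, hlen]
      simp only [smul_eq_mul]
      field_simp
    have h1 : w ((k:ℝ) / N) - N * ∫ x in ((k:ℝ) / N)..(((k + 1 : ℕ) : ℝ) / N), w x =
        N * ∫ x in ((k:ℝ) / N)..(((k + 1 : ℕ) : ℝ) / N), (w ((k:ℝ) / N) - w x) := by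
      rw [intervalIntegral.integral_sub (by simp) (hcont.intervalIntegrable _ _), mul_sub,
        ← hconst]
    rw [h1, abs_mul, abs_of_pos hNpos]
    have h2 : |∫ x in ((k:ℝ) / N)..(((k + 1 : ℕ) : ℝ) / N), (w ((k:ℝ) / N) - w x)| ≤
        (C / N) * |((k + 1 : ℕ) : ℝ) / N - (k:ℝ) / N| := by
      rw [← Real.norm_eq_abs]
      apply intervalIntegral.norm_integral_le_of_norm_le_const
      intro x hx
      rw [uIoc_of_le hle] at hx
      have h3 := hC.dist_le_mul ((k:ℝ) / N) x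
      rw [← dist_eq_norm]
      refine h3.trans ?_
      rw [div_eq_mul_inv (C:ℝ)]
      apply mul_le_mul_of_nonneg_left _ (NNReal.coe_nonneg C)
      rw [Real.dist_eq, abs_le]
      rw [one_div] at hlen
      have hx1 := hx.1
      have hx2 := hx.2
      generalize (k:ℝ) / N = p at hlen hx1 hx2 ⊢
      generalize ((k + 1 : ℕ) : ℝ) / N = q at hlen hx2
      generalize (N:ℝ)⁻¹ = r at hlen ⊢
      constructor <;> linarith
    rw [hlen, abs_of_pos (by positivity : (0:ℝ) < 1 / N)] at h2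
    calc (N:ℝ) * |∫ x in ((k:ℝ) / N)..(((k + 1 : ℕ) : ℝ) / N), (w ((k:ℝ) / N) - w x)|
        ≤ N * (C / N * (1 / N)) := by gcongr
      _ = C / N := by field_simp
  rw [← hadj, Finset.mul_sum, ← Finset.sum_sub_distrib]
  calc |∑ k ∈ Finset.range N, (w ((k:ℝ) / N) -
        N * ∫ x in ((k:ℝ) / N)..(((k + 1 : ℕ) : ℝ) / N), w x)|
      ≤ ∑ k ∈ Finset.range N, |w ((k:ℝ) / N) -
        N * ∫ x in ((k:ℝ) / N)..(((k + 1 : ℕ) : ℝ) / N), w x| := Finset.abs_sum_le_sum_abs _ _
    _ ≤ ∑ _k ∈ Finset.range N, (C:ℝ) / N := Finset.sum_le_sum hdiff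
    _ = C := by rw [Finset.sum_const, Finset.card_range, nsmul_eq_mul]; field_simp
    _ ≤ C + 1 := by linarith

end Pool.Agent.Q293.EW
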