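import Pool.Agent.Q293.EW.Stm

set_option autoImplicit false

namespace Pool.Agent.Q293.EW

open MeasureTheory ProbabilityTheory Set Filter Topology

/-- the bump -/
noncomputable def Bp : ContDiffBump (1 / 2 : ℝ) := ⟨1 / 3, 5 / 12, by norm_num, by norm_num⟩

lemma Bp_one {x : ℝ} (h1 : 1 / 6 ≤ x) (h2 : x ≤ 5 / 6) : Bp x = 1 := by
  apply Bp.one_of_mem_closedBall
  show x ∈ Metric.closedBall (1 / 2 : ℝ) (1 / 3)
  rw [Real.closedBall_eq_Icc]
  constructor <;> linarith

lemma Bp_ne {x : ℝ} (h : Bp x ≠ 0) : 1 / 12 < x ∧ x < 11 / 12 := by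
  have : x ∈ Function.support Bp := h
  rw [Bp.support_eq] at this
  have h2 : x ∈ Metric.ball (1 / 2 : ℝ) (5 / 12) := this
  rw [Real.ball_eq_Ioo] at h2
  constructor <;> linarith [h2.1, h2.2]

/-- the unnormalised weight -/
noncomputable def g1 (x : ℝ) : ℝ := Bp x * (1 + x) ^ 2

lemma g1_cont : Continuous g1 := by
  unfold g1
  exact Bp.continuous.mul (by fun_prop)

lemma g1_nonneg (x : ℝ) : 0 ≤ g1 x := mul_nonneg Bp.nonneg (sq_nonneg _)

lemma g1_ne {x : ℝ} (h : g1 x ≠ 0) : 1 / 12 < x ∧ x < 11 / 12 := by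
  apply Bp_ne
  intro h0
  apply h
  simp [g1, h0]

lemma g1_zero {x : ℝ} (h : 1 ≤ x) : g1 x = 0 := by
  by_contra hne
  have := g1_ne hne
  linarith [this.2]

lemma g1_le (x : ℝ) : g1 x ≤ 4 := by
  by_cases h : g1 x = 0
  · rw [h]; norm_num
  · obtain ⟨h1, h2⟩ := g1_ne h
    unfold g1
    have h3 : (1 + x) ^ 2 ≤ 4 := by nlinarith
    calc Bp x * (1 + x) ^ 2 ≤ 1 * 4 := mul_le_mul Bp.le_one h3 (sq_nonneg _) zero_le_one
      _ = 4 := by norm_num

/-- the mass -/
noncomputable def I1 : ℝ := ∫ x in (0:ℝ)..1, g1 x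

lemma I1_lb : 3 / 2 ≤ I1 := by
  unfold I1
  have h1 : ∫ x in (0:ℝ)..1, g1 x = (∫ x in (0:ℝ)..(1/6), g1 x) + (∫ x in (1/6:ℝ)..(5/6), g1 x) +
      (∫ x in (5/6:ℝ)..1, g1 x) := by
    rw [intervalIntegral.integral_add_adjacent_intervals (g1_cont.intervalIntegrable _ _)
      (g1_cont.intervalIntegrable _ _), intervalIntegral.integral_add_adjacent_intervals
      (g1_cont.intervalIntegrable _ _) (g1_cont.intervalIntegrable _ _)]
  have h2 : 0 ≤ ∫ x in (0:ℝ)..(1/6), g1 x :=
    intervalIntegral.integral_nonneg (by norm_num) fun x _ => g1_nonneg x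
  have h3 : 0 ≤ ∫ x in (5/6:ℝ)..1, g1 x :=
    intervalIntegral.integral_nonneg (by norm_num) fun x _ => g1_nonneg x
  have h4 : ∫ x in (1/6:ℝ)..(5/6), g1 x = ∫ x in (1/6:ℝ)..(5/6), (1 + x) ^ 2 := by
    apply intervalIntegral.integral_congr
    intro x hx
    rw [uIcc_of_le (by norm_num)] at hx
    show Bp x * (1 + x) ^ 2 = (1 + x) ^ 2
    rw [Bp_one hx.1 hx.2, one_mul]
  have h5 : ∫ x in (1/6:ℝ)..(5/6), (1 + x) ^ 2 = 988 / 648 := by
    rw [intervalIntegral.integral_comp_add_left (fun x : ℝ => x ^ 2) 1, integral_pow]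
    norm_num
  rw [h1, h4, h5]
  linarith

lemma I1_pos : 0 < I1 := by linarith [I1_lb]

/-- the normalised weight -/
noncomputable def w1 (x : ℝ) : ℝ := g1 x / I1

lemma w1_cont : Continuous w1 := g1_cont.div_const _

lemma w1_int : ∫ x in (0:ℝ)..1, w1 x = 1 := by
  unfold w1
  rw [intervalIntegral.integral_div]
  exact div_self I1_pos.ne'

lemma w1_nonneg (x : ℝ) : 0 ≤ w1 x := div_nonneg (g1_nonneg x) I1_pos.le

/-- the dilation factor -/
noncomputable def lam : ℝ := (∫ x in (0:ℝ)..1, w1 x ^ 2) / 3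

lemma lam_lt : lam < 1 := by
  have h : ∫ x in (0:ℝ)..1, w1 x ^ 2 ≤ ∫ x in (0:ℝ)..1, (4 / I1) * w1 x := by
    apply intervalIntegral.integral_mono_on (by norm_num)
      ((w1_cont.pow 2).intervalIntegrable _ _) ((w1_cont.const_mul _).intervalIntegrable _ _)
    intro x _
    rw [sq]
    apply mul_le_mul_of_nonneg_right _ (w1_nonneg x)
    exact div_le_div_of_nonneg_right (g1_le x) I1_pos.le
  rw [intervalIntegral.integral_const_mul, w1_int] at h
  have h2 : 4 / I1 < 3 := by
    rw [div_lt_iff₀ I1_pos]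
    linarith [I1_lb]
  unfold lam
  linarith

lemma lam_pos : 0 < lam := by
  have h : 0 ≤ ∫ x in (0:ℝ)..1, (w1 x - 1) ^ 2 :=
    intervalIntegral.integral_nonneg (by norm_num) fun x _ => sq_nonneg _
  have h2 : ∫ x in (0:ℝ)..1, (w1 x - 1) ^ 2 =
      (∫ x in (0:ℝ)..1, w1 x ^ 2) - 2 * (∫ x in (0:ℝ)..1, w1 x) + 1 := by
    have e : (fun x => (w1 x - 1) ^ 2) = fun x => (w1 x ^ 2 - 2 * w1 x) + 1 := by
      funext x; ring
    rw [e, intervalIntegral.integral_add, intervalIntegral.integral_sub,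
      intervalIntegral.integral_const_mul]
    · simp
    · exact (w1_cont.pow 2).intervalIntegrable _ _
    · exact (w1_cont.const_mul _).intervalIntegrable _ _
    · exact ((w1_cont.pow 2).sub (w1_cont.const_mul _)).intervalIntegrable _ _
    · simp
  rw [h2, w1_int] at h
  unfold lam
  linarith

/-- an integral over `[0,1]` of a function vanishing beyond `1`, dilated -/
lemma dil_int (h : ℝ → ℝ) (hc : Continuous h) (hz : ∀ x, 1 ≤ x → h x = 0) :
    ∫ x in (0:ℝ)..1, h (x / lam) = lam * ∫ x in (0:ℝ)..1, h x := by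
  rw [intervalIntegral.integral_comp_div _ lam_pos.ne', smul_eq_mul, zero_div]
  congr 1
  have h1 : 1 ≤ 1 / lam := by
    rw [le_div_iff₀ lam_pos]; linarith [lam_lt]
  rw [← intervalIntegral.integral_add_adjacent_intervals (hc.intervalIntegrable 0 1)
    (hc.intervalIntegrable 1 (1 / lam))]
  have h2 : ∫ x in (1:ℝ)..(1 / lam), h x = 0 := by
    rw [intervalIntegral.integral_congr (g := fun _ => (0:ℝ))]
    · simp
    · intro x hx
      rw [uIcc_of_le h1] at hx
      exact hz x hx.1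
  rw [h2, add_zero]

theorem weight : S_Weight := by
  have hl := lam_pos
  have hl1 := lam_lt
  have hI := I1_pos
  set D := √(lam * I1) with hD
  have hDpos : 0 < D := Real.sqrt_pos.mpr (by positivity)
  refine ⟨fun x => (1 / lam) * w1 (x / lam), 1 / (lam * D), 1 / D, lam / 6, 5 * lam / 6, ?_, ?_,
    by positivity, by positivity, by linarith, by linarith, ?_⟩
  · constructor
    · have h1 : ContDiff ℝ (⊤ : ℕ∞) (fun x : ℝ => Bp (x / lam)) :=
        Bp.contDiff.comp (contDiff_id.div_const lam)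
      have h2 : ContDiff ℝ (⊤ : ℕ∞) (fun x : ℝ => (1 + x / lam) ^ 2) :=
        (contDiff_const.add (contDiff_id.div_const lam)).pow 2
      have h3 := ((h1.mul h2).div_const I1).const_smul (1 / lam)
      exact h3
    · apply closure_minimal _ isClosed_Icc
      intro x hx
      have h1 : g1 (x / lam) ≠ 0 := by
        intro h0
        apply hx
        simp [w1, h0]
      obtain ⟨h2, h3⟩ := g1_ne h1
      rw [lt_div_iff₀ hl] at h2
      rw [div_lt_iff₀ hl] at h3
      constructor <;> linarith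
    · intro x
      have := w1_nonneg (x / lam)
      positivity
    · rw [intervalIntegral.integral_const_mul, dil_int w1 w1_cont (fun x hx => by simp [w1, g1_zero hx]),
        w1_int]
      field_simp
  · have e : (fun x => ((1 / lam) * w1 (x / lam)) ^ 2) =
        fun x => (1 / lam ^ 2) * (fun y => w1 y ^ 2) (x / lam) := by
      funext x; simp only; ring
    simp only at e ⊢
    rw [e, intervalIntegral.integral_const_mul,
      dil_int (fun y => w1 y ^ 2) (w1_cont.pow 2) (fun x hx => by simp [w1, g1_zero hx])]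
    have h3 : ∫ x in (0:ℝ)..1, w1 x ^ 2 = 3 * lam := by unfold lam; ring
    rw [h3]
    field_simp
  · intro x hx
    have h1 : Bp (x / lam) = 1 := by
      apply Bp_one
      · rw [le_div_iff₀ hl]; linarith [hx.1]
      · rw [div_le_iff₀ hl]; linarith [hx.2]
    have hx0 : 0 ≤ x := by linarith [hx.1]
    show √((1 / lam) * (Bp (x / lam) * (1 + x / lam) ^ 2 / I1)) = _
    rw [h1, one_mul]
    have h2 : (1 / lam) * ((1 + x / lam) ^ 2 / I1) = ((1 + x / lam) / D) ^ 2 := by
      rw [div_pow, hD, Real.sq_sqrt (by positivity)]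
      field_simp
    rw [h2, Real.sqrt_sq (by positivity)]
    field_simp
    ring

end Pool.Agent.Q293.EW
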