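import Pool.Agent.Q293.EW.Ess
import Pool.Agent.Q293.EW.Law
import Pool.Agent.Q293.EW.Mid
import Pool.Agent.Q293.EW.CosJ
import Pool.Agent.Q293.EW.Weight
import Pool.Agent.Q293.EW.Riem
import Pool.Agent.Q293.EW.Coeff
import Pool.Agent.Q293.EW.ProbJ

/-! # The theorem for random variables, from the theorem for laws -/

set_option autoImplicit false

namespace Pool.Agent.Q293.EW

open MeasureTheory ProbabilityTheory Set Filter Topology

/-- the corrected normal distribution function `𝒢`, `m` being the fourth moment -/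
noncomputable def GGc (m : ℝ) (N : ℕ) (x : ℝ) : ℝ :=
  1 / √(2 * Real.pi) * (∫ t in Iic x, Real.exp (-t ^ 2 / 2)) -
    (m - 3) / (8 * √(2 * Real.pi) * N) * (x ^ 3 - 3 * x) * Real.exp (-x ^ 2 / 2)

/-- the weighted normalised sum `S_N = Ā_N^(-1/2) ∑_{n=1}^{N-1} √(w(n/N)) X_n` -/
noncomputable def SN {Ω : Type*} (w : ℝ → ℝ) (X : ℕ → Ω → ℝ) (N : ℕ) (ω : Ω) : ℝ :=
  1 / √(AN w N) * ∑ n ∈ Finset.Ico 1 N, √(w ((n : ℝ) / N)) * X n ω

lemma GGc_eq (m : ℝ) (N : ℕ) (hN : 1 ≤ N) (x : ℝ) : GGc m N x = Gc ((m - 3) / (8 * N)) x := by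
  have hpi := Real.pi_pos
  have hN' : (0:ℝ) < N := by exact_mod_cast hN
  have hs : 0 < √(2 * Real.pi) := Real.sqrt_pos.mpr (by positivity)
  unfold GGc Gc ph
  rw [integral_const_mul]
  field_simp

theorem rv_of_law.{u} (h : S_Law) : ∃ C : ℝ, 0 < C ∧ ∃ w : ℝ → ℝ, IsWeight w ∧
    ∀ {Ω : Type u} [MeasurableSpace Ω] (P : Measure Ω) [IsProbabilityMeasure P] (X : ℕ → Ω → ℝ),
    (∀ n, 1 ≤ n → Measurable (X n)) → iIndepFun (fun n : ℕ => X (n + 1)) P →
    (∀ n, 1 ≤ n → IdentDistrib (X n) (X 1) P P) →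
    Integrable (fun ω => |X 1 ω| ^ 5) P → ∫ ω, X 1 ω ∂P = 0 → ∫ ω, X 1 ω ^ 2 ∂P = 1 →
    ∫ ω, X 1 ω ^ 3 ∂P = 0 → ∀ N : ℕ, 2 ≤ N → 0 < AN w N → ∀ x : ℝ,
      |P.real {ω | SN w X N ω ≤ x} - GGc (∫ ω, |X 1 ω| ^ 4 ∂P) N x| ≤
        C * (∫ ω, |X 1 ω| ^ 5 ∂P) / (N:ℝ) ^ (3 / 2 : ℝ) := by
  obtain ⟨C, hC, w, hw, H⟩ := h
  refine ⟨C, hC, w, hw, ?_⟩
  intro Ω _ P _ X hX hind hid h5 h1 h2 h3 N hN hA x
  have hX1 : Measurable (X 1) := hX 1 le_rfl
  set μ : Measure ℝ := P.map (X 1) with hμ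
  have hprob : IsProbabilityMeasure μ := Measure.isProbabilityMeasure_map hX1.aemeasurable
  have hmap : ∀ f : ℝ → ℝ, Continuous f → ∫ y, f y ∂μ = ∫ ω, f (X 1 ω) ∂P := by
    intro f hf
    rw [hμ, integral_map hX1.aemeasurable hf.aestronglyMeasurable]
  have hMom : Mom μ := by
    refine ⟨?_, ?_, ?_, ?_⟩
    · rw [hμ, integrable_map_measure (by fun_prop) hX1.aemeasurable]
      exact h5
    · rw [hmap (fun y => y) (by fun_prop)]; exact h1
    · rw [hmap (fun y => y ^ 2) (by fun_prop)]; exact h2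
    · rw [hmap (fun y => y ^ 3) (by fun_prop)]; exact h3
  have hbe : be μ = ∫ ω, |X 1 ω| ^ 5 ∂P := hmap (fun y => |y| ^ 5) (by fun_prop)
  have hm4 : m4 μ = ∫ ω, |X 1 ω| ^ 4 ∂P := by
    have : ∀ y : ℝ, |y| ^ 4 = y ^ 4 := fun y => by
      rw [← abs_pow, abs_of_nonneg (by positivity)]
    simp_rw [this]
    exact hmap (fun y => y ^ 4) (by fun_prop)
  have hSm : Measurable (SN w X N) := by
    unfold SN
    apply Measurable.const_mul
    apply Finset.measurable_sum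
    intro n hn
    rw [Finset.mem_Ico] at hn
    exact (hX n hn.1).const_mul _
  set ν : Measure ℝ := P.map (SN w X N) with hν
  have hνp : IsProbabilityMeasure ν := Measure.isProbabilityMeasure_map hSm.aemeasurable
  have hsum : SN w X N = fun ω => ∑ k ∈ Finset.range (N - 1), th w N (k + 1) * X (k + 1) ω := by
    funext ω
    unfold SN
    rw [Finset.sum_Ico_eq_sum_range, Finset.mul_sum]
    refine Finset.sum_congr rfl fun k _ => ?_
    rw [add_comm 1 k, th]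
    ring
  have hcf : ∀ t : ℝ, charFun ν t = ∏ n ∈ Finset.Ico 1 N, charFun μ (th w N n * t) := by
    intro t
    have hp := probj P (fun n => X (n + 1)) (fun n => hX _ (by omega)) hind
      (fun n => hid (n + 1) (by omega)) (Finset.range (N - 1)) (fun k => th w N (k + 1)) t
    rw [hν, hsum, hp, Finset.prod_Ico_eq_prod_range]
    refine Finset.prod_congr rfl fun k _ => ?_
    rw [add_comm 1 k]
  have hfin := H μ hMom N ν hN hA hcf x
  have hreal : P.real {ω | SN w X N ω ≤ x} = ν.real (Iic x) := by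
    rw [hν, map_measureReal_apply hSm measurableSet_Iic]
    rfl
  rw [hreal, GGc_eq _ _ (by omega), ← hm4, ← hbe]
  exact hfin

end Pool.Agent.Q293.EW
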