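import Pool.Agent.Q293.EW.Stm

/-! # The logarithm of the characteristic function near `0` -/

set_option autoImplicit false

namespace Pool.Agent.Q293.EW

open MeasureTheory ProbabilityTheory Set Filter Topology Complex

theorem exp_taylor (y : ℝ) : ‖cexp (y * I) - (1 + y * I - (y : ℂ) ^ 2 / 2 - (y : ℂ) ^ 3 / 6 * I +
    (y : ℂ) ^ 4 / 24)‖ ≤ 4 * |y| ^ 5 := by
  have hI2 : (I : ℂ) ^ 2 = -1 := I_sq
  have hI3 : (I : ℂ) ^ 3 = -I := by rw [pow_succ, hI2]; ring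
  have hI4 : (I : ℂ) ^ 4 = 1 := by rw [pow_succ, hI3]; simp
  rcases le_total |y| 1 with hy | hy
  · have hn : ‖(y : ℂ) * I‖ = |y| := by simp
    have h1 := Complex.exp_bound (x := (y : ℂ) * I) (by rw [hn]; exact hy) (n := 5) (by norm_num)
    rw [hn] at h1
    have h2 : ∑ m ∈ Finset.range 5, ((y : ℂ) * I) ^ m / (m.factorial : ℂ) =
        1 + y * I - (y : ℂ) ^ 2 / 2 - (y : ℂ) ^ 3 / 6 * I + (y : ℂ) ^ 4 / 24 := by
      simp only [Finset.sum_range_succ, Finset.sum_range_zero, Nat.factorial, mul_pow, hI2, hI3,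
        hI4]
      push_cast
      ring
    rw [h2] at h1
    refine h1.trans ?_
    have h3 : 0 ≤ |y| ^ 5 := by positivity
    have h4 : ((Nat.succ 5 : ℕ) : ℝ) * ((Nat.factorial 5 : ℕ) * ((5 : ℕ) : ℝ))⁻¹ ≤ 4 := by
      norm_num [Nat.factorial]
    calc |y| ^ 5 * _ ≤ |y| ^ 5 * 4 := mul_le_mul_of_nonneg_left h4 h3
      _ = 4 * |y| ^ 5 := by ring
  · have h1 : ‖cexp (y * I)‖ = 1 := Complex.norm_exp_ofReal_mul_I y
    have h2 : ‖(1 : ℂ) + y * I - (y : ℂ) ^ 2 / 2 - (y : ℂ) ^ 3 / 6 * I + (y : ℂ) ^ 4 / 24‖ ≤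
        1 + |y| + |y| ^ 2 / 2 + |y| ^ 3 / 6 + |y| ^ 4 / 24 := by
      refine (norm_add_le _ _).trans (add_le_add ?_ (by simp))
      refine (norm_sub_le _ _).trans (add_le_add ?_ (by simp))
      refine (norm_sub_le _ _).trans (add_le_add ?_ (by simp))
      refine (norm_add_le _ _).trans (add_le_add (by simp) (by simp))
    have h3 : ∀ k ≤ 5, |y| ^ k ≤ |y| ^ 5 := fun k hk => pow_le_pow_right₀ hy hk
    have e0 := h3 0 (by norm_num)
    have e1 := h3 1 (by norm_num)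
    have e2 := h3 2 (by norm_num)
    have e3 := h3 3 (by norm_num)
    have e4 := h3 4 (by norm_num)
    rw [pow_zero] at e0
    rw [pow_one] at e1
    refine (norm_sub_le _ _).trans ?_
    rw [h1]
    linarith

theorem Mom.int_pow {μ : Measure ℝ} [IsProbabilityMeasure μ] (h : Mom μ) {k : ℕ} (hk : k ≤ 5) :
    Integrable (fun x : ℝ => x ^ k) μ := by
  refine Integrable.mono' ((integrable_const (1 : ℝ)).add h.int5)
    (by fun_prop) (Filter.Eventually.of_forall fun x => ?_)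
  simp only [Pi.add_apply]
  rw [Real.norm_eq_abs, abs_pow]
  have h0 : 0 ≤ |x| := abs_nonneg x
  rcases le_total |x| 1 with hx | hx
  · have := pow_le_one₀ (n := k) h0 hx
    have h5 : 0 ≤ |x| ^ 5 := by positivity
    linarith
  · have := pow_le_pow_right₀ hx hk
    linarith

theorem charFun_taylor {μ : Measure ℝ} [IsProbabilityMeasure μ] (h : Mom μ) (u : ℝ) :
    ‖charFun μ u - (1 - (u : ℂ) ^ 2 / 2 + (m4 μ : ℂ) * (u : ℂ) ^ 4 / 24)‖ ≤
      4 * be μ * |u| ^ 5 := by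
  have hint : ∀ k ≤ 5, Integrable (fun x : ℝ => ((x : ℂ)) ^ k) μ := by
    intro k hk
    have := (h.int_pow hk).ofReal (𝕜 := ℂ)
    simpa using this
  have hval : ∀ k : ℕ, ∫ x, ((x : ℂ)) ^ k ∂μ = ((∫ x, x ^ k ∂μ : ℝ) : ℂ) := by
    intro k
    have h1 := integral_complex_ofReal (μ := μ) (f := fun x : ℝ => x ^ k)
    rw [← h1]
    refine integral_congr_ae (Filter.Eventually.of_forall fun x => ?_)
    simp
  have hexp : Integrable (fun x : ℝ => cexp (u * x * I)) μ := by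
    refine Integrable.mono' (integrable_const (1 : ℝ)) (by fun_prop)
      (Filter.Eventually.of_forall fun x => ?_)
    have : ((u : ℂ) * x * I) = ((u * x : ℝ) : ℂ) * I := by push_cast; ring
    rw [this, Complex.norm_exp_ofReal_mul_I]
  set P : ℝ → ℂ := fun x => 1 + ((u * x : ℝ) : ℂ) * I - ((u * x : ℝ) : ℂ) ^ 2 / 2 -
    ((u * x : ℝ) : ℂ) ^ 3 / 6 * I + ((u * x : ℝ) : ℂ) ^ 4 / 24 with hP
  have hPe : P = fun x : ℝ => 1 + (u * I) * (x : ℂ) ^ 1 + (-(u : ℂ) ^ 2 / 2) * (x : ℂ) ^ 2 +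
      (-(u : ℂ) ^ 3 / 6 * I) * (x : ℂ) ^ 3 + ((u : ℂ) ^ 4 / 24) * (x : ℂ) ^ 4 := by
    funext x
    rw [hP]
    push_cast
    ring
  have i1 := (hint 1 (by norm_num)).const_mul ((u : ℂ) * I)
  have i2 := (hint 2 (by norm_num)).const_mul (-(u : ℂ) ^ 2 / 2)
  have i3 := (hint 3 (by norm_num)).const_mul (-(u : ℂ) ^ 3 / 6 * I)
  have i4 := (hint 4 (by norm_num)).const_mul ((u : ℂ) ^ 4 / 24)
  have i0 : Integrable (fun _ : ℝ => (1 : ℂ)) μ := integrable_const _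
  have hPi : Integrable P μ := by
    rw [hPe]
    exact (((i0.add i1).add i2).add i3).add i4
  have hPv : ∫ x, P x ∂μ = 1 - (u : ℂ) ^ 2 / 2 + (m4 μ : ℂ) * (u : ℂ) ^ 4 / 24 := by
    have e : ∫ x, P x ∂μ = ∫ x, ((1 : ℂ) + (u * I) * (x : ℂ) ^ 1 + (-(u : ℂ) ^ 2 / 2) * (x : ℂ) ^ 2 +
      (-(u : ℂ) ^ 3 / 6 * I) * (x : ℂ) ^ 3 + ((u : ℂ) ^ 4 / 24) * (x : ℂ) ^ 4) ∂μ := by rw [hPe]
    have j1 : Integrable (fun x : ℝ => (1 : ℂ) + (u * I) * (x : ℂ) ^ 1) μ := i0.add i1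
    have j2 : Integrable (fun x : ℝ => (1 : ℂ) + (u * I) * (x : ℂ) ^ 1 +
      (-(u : ℂ) ^ 2 / 2) * (x : ℂ) ^ 2) μ := j1.add i2
    have j3 : Integrable (fun x : ℝ => (1 : ℂ) + (u * I) * (x : ℂ) ^ 1 +
      (-(u : ℂ) ^ 2 / 2) * (x : ℂ) ^ 2 + (-(u : ℂ) ^ 3 / 6 * I) * (x : ℂ) ^ 3) μ := j2.add i3
    rw [e, integral_add j3 i4, integral_add j2 i3,
      integral_add j1 i2, integral_add i0 i1, integral_const_mul, integral_const_mul,
      integral_const_mul, integral_const_mul, hval, hval, hval, hval, h.m2, h.m3]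
    have e1 : ∫ x : ℝ, x ^ 1 ∂μ = 0 := by simpa using h.m1
    rw [e1, m4]
    simp
    ring
  have hcf : charFun μ u = ∫ x, cexp (u * x * I) ∂μ := charFun_apply_real u
  rw [hcf, ← hPv, ← integral_sub hexp hPi]
  refine (norm_integral_le_integral_norm _).trans ?_
  have hb : ∫ x, 4 * (|u| ^ 5 * |x| ^ 5) ∂μ = 4 * be μ * |u| ^ 5 := by
    rw [integral_const_mul, integral_const_mul, be]
    ring
  rw [← hb]
  refine integral_mono (hexp.sub hPi).norm ((h.int5.const_mul _).const_mul _) fun x => ?_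
  have h1 := exp_taylor (u * x)
  have h2 : ((u : ℂ) * x * I) = ((u * x : ℝ) : ℂ) * I := by push_cast; ring
  simp only [h2]
  refine h1.trans (le_of_eq ?_)
  rw [abs_mul, mul_pow]

theorem log5 : S_Log := by
  refine ⟨1 / 1000, 10, by norm_num, by norm_num, ?_⟩
  intro μ _ h hbe hm4 u hu
  set b : ℝ := be μ with hb
  set B : ℝ := b ^ (1 / 3 : ℝ) with hB
  have hb0 : 0 ≤ b := by linarith
  have hB0 : 0 ≤ B := Real.rpow_nonneg hb0 _
  have hB3 : B ^ 3 = b := by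
    rw [hB, ← Real.rpow_natCast, ← Real.rpow_mul hb0]
    norm_num
  have hB2 : B ^ 2 = b ^ (2 / 3 : ℝ) := by
    rw [hB, ← Real.rpow_natCast, ← Real.rpow_mul hb0]
    norm_num
  have hB1 : 1 ≤ B := Real.one_le_rpow hbe (by norm_num)
  set v : ℝ := |u| with hv
  have hv0 : 0 ≤ v := abs_nonneg u
  have hw : B * v ≤ 1 / 10 := by
    have h1 : (B * v) ^ 3 ≤ (1 / 10) ^ 3 := by
      rw [mul_pow, hB3]
      linarith
    exact le_of_pow_le_pow_left₀ (by norm_num) (by norm_num) h1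
  have hv1 : v ≤ 1 / 10 := by nlinarith
  have hm40 : 0 ≤ m4 μ := integral_nonneg fun x => by positivity
  have hm4b : m4 μ ≤ B ^ 2 := by rw [hB2]; exact hm4
  have hm4b' : m4 μ ≤ b := by
    refine hm4b.trans ?_
    rw [← hB3]
    exact pow_le_pow_right₀ hB1 (by norm_num)
  -- the remainder
  set r : ℂ := charFun μ u - (1 - (u : ℂ) ^ 2 / 2 + (m4 μ : ℂ) * (u : ℂ) ^ 4 / 24) with hr
  have hrn : ‖r‖ ≤ 4 * b * v ^ 5 := charFun_taylor h u
  set e : ℂ := (m4 μ : ℂ) * (u : ℂ) ^ 4 / 24 + r with he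
  set z : ℂ := -(u : ℂ) ^ 2 / 2 + e with hz
  have hcz : charFun μ u = 1 + z := by
    rw [hz, he, hr]
    ring
  have hen : ‖e‖ ≤ m4 μ * v ^ 4 / 24 + 4 * b * v ^ 5 := by
    refine (norm_add_le _ _).trans (add_le_add (le_of_eq ?_) hrn)
    simp [abs_of_nonneg hm40, hv]
  have hb5 : b * v ^ 5 = B ^ 3 * v ^ 3 * v ^ 2 := by rw [hB3]; ring
  have he1 : ‖e‖ ≤ v ^ 2 / 4 := by
    refine hen.trans ?_
    have h1 : m4 μ * v ^ 4 ≤ (1 / 100) * v ^ 2 := by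
      calc m4 μ * v ^ 4 ≤ B ^ 2 * v ^ 4 := mul_le_mul_of_nonneg_right hm4b (by positivity)
        _ = (B * v) ^ 2 * v ^ 2 := by ring
        _ ≤ (1 / 10) ^ 2 * v ^ 2 := mul_le_mul_of_nonneg_right
            (pow_le_pow_left₀ (by positivity) hw 2) (by positivity)
        _ = (1 / 100) * v ^ 2 := by norm_num
    have h2 : b * v ^ 5 ≤ (1 / 1000) * v ^ 2 := by
      rw [hb5]
      calc B ^ 3 * v ^ 3 * v ^ 2 = (B * v) ^ 3 * v ^ 2 := by ring
        _ ≤ (1 / 10) ^ 3 * v ^ 2 := mul_le_mul_of_nonneg_right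
            (pow_le_pow_left₀ (by positivity) hw 3) (by positivity)
        _ = (1 / 1000) * v ^ 2 := by norm_num
    nlinarith [sq_nonneg v]
  have he2 : ‖e‖ ≤ b * v ^ 3 := by
    refine hen.trans ?_
    have h1 : m4 μ * v ^ 4 ≤ b * v ^ 3 * (1 / 10) := by
      calc m4 μ * v ^ 4 ≤ b * v ^ 4 := mul_le_mul_of_nonneg_right hm4b' (by positivity)
        _ = b * v ^ 3 * v := by ring
        _ ≤ b * v ^ 3 * (1 / 10) := mul_le_mul_of_nonneg_left hv1 (by positivity)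
    have h2 : b * v ^ 5 ≤ b * v ^ 3 * (1 / 10) := by
      calc b * v ^ 5 = b * v ^ 3 * v ^ 2 := by ring
        _ ≤ b * v ^ 3 * (1 / 10) := mul_le_mul_of_nonneg_left (by nlinarith) (by positivity)
    have h3 : 0 ≤ b * v ^ 3 := by positivity
    linarith
  have hzn : ‖z‖ ≤ v ^ 2 := by
    refine (norm_add_le _ _).trans ?_
    have h1 : ‖-(u : ℂ) ^ 2 / 2‖ = v ^ 2 / 2 := by simp [hv]
    rw [h1]
    nlinarith [sq_nonneg v]
  have hzs : ‖z‖ ≤ 1 / 100 := hzn.trans (by nlinarith)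
  have hz1 : (1 : ℂ) + z ≠ 0 := by
    intro h0
    have : z = -1 := by linear_combination h0
    rw [this] at hzs
    norm_num at hzs
  have hL := Complex.norm_log_sub_logTaylor_le 2 (z := z) (by linarith)
  have hT : logTaylor (2 + 1) z = z - z ^ 2 / 2 := by
    simp only [logTaylor, Finset.sum_range_succ, Finset.sum_range_zero]
    norm_num
    ring
  rw [hT] at hL
  have hL' : ‖log (1 + z) - (z - z ^ 2 / 2)‖ ≤ ‖z‖ ^ 3 := by
    refine hL.trans ?_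
    have h1 : (1 - ‖z‖)⁻¹ ≤ 2 := by
      rw [inv_le_comm₀ (by linarith) (by norm_num)]
      linarith
    have h2 : 0 ≤ ‖z‖ ^ 3 := by positivity
    have h3 : ‖z‖ ^ (2 + 1) * (1 - ‖z‖)⁻¹ ≤ ‖z‖ ^ 3 * 2 := mul_le_mul_of_nonneg_left h1 h2
    have h4 : ‖z‖ ^ (2 + 1) * (1 - ‖z‖)⁻¹ / (2 + 1) ≤ ‖z‖ ^ 3 * 2 / 3 := by
      norm_num
      norm_num at h3
      linarith
    push_cast
    linarith
  refine ⟨log (1 + z) + (u : ℂ) ^ 2 / 2 - (m4 μ - 3 : ℝ) * (u : ℂ) ^ 4 / 24, ?_, ?_⟩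
  · rw [hcz]
    have h1 : -(u : ℂ) ^ 2 / 2 + (m4 μ - 3 : ℝ) * (u : ℂ) ^ 4 / 24 +
        (log (1 + z) + (u : ℂ) ^ 2 / 2 - (m4 μ - 3 : ℝ) * (u : ℂ) ^ 4 / 24) = log (1 + z) := by
      ring
    rw [h1, exp_log hz1]
  · have h1 : log (1 + z) + (u : ℂ) ^ 2 / 2 - (m4 μ - 3 : ℝ) * (u : ℂ) ^ 4 / 24 =
        (log (1 + z) - (z - z ^ 2 / 2)) + r + ((u : ℂ) ^ 2 * e - e ^ 2) / 2 := by
      rw [hz, he]
      push_cast
      ring
    rw [h1]
    have h2 : ‖((u : ℂ) ^ 2 * e - e ^ 2) / 2‖ ≤ (v ^ 2 * ‖e‖ + ‖e‖ ^ 2) / 2 := by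
      rw [norm_div]
      have h3 : ‖(u : ℂ) ^ 2 * e - e ^ 2‖ ≤ v ^ 2 * ‖e‖ + ‖e‖ ^ 2 := by
        refine (norm_sub_le _ _).trans (le_of_eq ?_)
        rw [norm_mul, norm_pow, norm_pow]
        simp [hv]
      have h4 : ‖(2 : ℂ)‖ = 2 := by simp
      rw [h4]
      linarith
    have h5 : ‖(log (1 + z) - (z - z ^ 2 / 2)) + r + ((u : ℂ) ^ 2 * e - e ^ 2) / 2‖ ≤
        ‖z‖ ^ 3 + 4 * b * v ^ 5 + (v ^ 2 * ‖e‖ + ‖e‖ ^ 2) / 2 :=
      (norm_add_le _ _).trans (add_le_add ((norm_add_le _ _).trans (add_le_add hL' hrn)) h2)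
    refine h5.trans ?_
    have h6 : ‖z‖ ^ 3 ≤ b * v ^ 5 := by
      calc ‖z‖ ^ 3 ≤ (v ^ 2) ^ 3 := pow_le_pow_left₀ (norm_nonneg _) hzn 3
        _ = v ^ 5 * v := by ring
        _ ≤ v ^ 5 * b := mul_le_mul_of_nonneg_left (by linarith) (by positivity)
        _ = b * v ^ 5 := by ring
    have h7 : v ^ 2 * ‖e‖ ≤ b * v ^ 5 := by
      calc v ^ 2 * ‖e‖ ≤ v ^ 2 * (b * v ^ 3) := mul_le_mul_of_nonneg_left he2 (by positivity)
        _ = b * v ^ 5 := by ring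
    have h8 : ‖e‖ ^ 2 ≤ b * v ^ 5 := by
      calc ‖e‖ ^ 2 = ‖e‖ * ‖e‖ := by ring
        _ ≤ (v ^ 2 / 4) * (b * v ^ 3) := mul_le_mul he1 he2 (norm_nonneg _) (by positivity)
        _ = b * v ^ 5 / 4 := by ring
        _ ≤ b * v ^ 5 := by
          have : 0 ≤ b * v ^ 5 := by positivity
          linarith
    have h9 : 0 ≤ b * v ^ 5 := by positivity
    linarith

end Pool.Agent.Q293.EW
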