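import Pool.Agent.Q293.EW.Stm

set_option autoImplicit false

namespace Pool.Agent.Q293.EW

open MeasureTheory ProbabilityTheory Set Filter Topology

lemma int_pow (μ : Measure ℝ) [IsProbabilityMeasure μ] (hμ : Mom μ) (k : ℕ) (hk : k ≤ 5) :
    Integrable (fun x : ℝ => x ^ k) μ := by
  have h : Integrable (fun x : ℝ => 1 + |x| ^ 5) μ := (integrable_const 1).add hμ.int5
  refine h.mono' (by fun_prop) (Eventually.of_forall fun x => ?_)
  rw [Real.norm_eq_abs, abs_pow]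
  rcases le_total |x| 1 with h1 | h1
  · have : |x| ^ k ≤ 1 := pow_le_one₀ (abs_nonneg x) h1
    have : 0 ≤ |x| ^ 5 := by positivity
    linarith
  · have : |x| ^ k ≤ |x| ^ 5 := pow_le_pow_right₀ h1 hk
    linarith

theorem lyap : S_Lyap := by
  intro μ _ hμ
  have i2 := int_pow μ hμ 2 (by norm_num)
  have i4 := int_pow μ hμ 4 (by norm_num)
  have i5 := hμ.int5
  have hb1 : 1 ≤ be μ := by
    have h : ∫ x, x ^ 2 ∂μ ≤ ∫ x, (3 / 5 + (2 / 5) * |x| ^ 5) ∂μ := by
      apply integral_mono i2 ((integrable_const _).add (i5.const_mul _))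
      intro x
      show x ^ 2 ≤ 3 / 5 + (2 / 5) * |x| ^ 5
      have h0 := abs_nonneg x
      rw [← sq_abs]
      set y := |x|
      nlinarith [mul_nonneg h0 (sq_nonneg (y - 1)), sq_nonneg (y - 1), mul_nonneg (pow_nonneg h0 3) (sq_nonneg (y - 1)), mul_nonneg (pow_nonneg h0 2) (sq_nonneg (y - 1))]
    rw [hμ.m2, integral_add (integrable_const _) (i5.const_mul _), integral_const_mul] at h
    simp at h
    unfold be
    linarith
  refine ⟨hb1, ?_⟩
  have hb : 0 < be μ := by linarith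
  set l := be μ ^ (1 / 3 : ℝ) with hl
  have hl0 : 0 < l := by positivity
  have hl2 : l ^ 2 = be μ ^ (2 / 3 : ℝ) := by
    rw [hl, ← Real.rpow_natCast, ← Real.rpow_mul hb.le]; norm_num
  have hl3 : l ^ 3 = be μ := by
    rw [hl, ← Real.rpow_natCast, ← Real.rpow_mul hb.le]; norm_num
  have h : ∫ x, x ^ 4 ∂μ ≤ ∫ x, (l ^ 2 / 3 * x ^ 2 + 2 / (3 * l) * |x| ^ 5) ∂μ := by
    apply integral_mono i4 ((i2.const_mul _).add (i5.const_mul _))
    intro x
    show x ^ 4 ≤ l ^ 2 / 3 * x ^ 2 + 2 / (3 * l) * |x| ^ 5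
    have h0 := abs_nonneg x
    rw [← sq_abs x, show x ^ 4 = |x| ^ 4 by rw [← abs_pow, abs_of_nonneg (by positivity)]]
    set y := |x|
    have e : l ^ 2 / 3 * y ^ 2 + 2 / (3 * l) * y ^ 5 - y ^ 4 =
        y ^ 2 * ((l - y) ^ 2 * (l + 2 * y)) / (3 * l) := by
      field_simp; ring
    have : 0 ≤ y ^ 2 * ((l - y) ^ 2 * (l + 2 * y)) / (3 * l) := by positivity
    linarith
  rw [integral_add (i2.const_mul _) (i5.const_mul _), integral_const_mul, integral_const_mul,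
    hμ.m2] at h
  rw [← hl2]
  have e : l ^ 2 / 3 * 1 + 2 / (3 * l) * (∫ x, |x| ^ 5 ∂μ) = l ^ 2 := by
    have : (∫ x, |x| ^ 5 ∂μ) = l ^ 3 := by rw [hl3]; rfl
    rw [this]; field_simp; ring
  rw [e] at h
  exact h

end Pool.Agent.Q293.EW
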