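import Pool.Agent.Q293.EW.Stm

/-! # The product of the characteristic functions for small `t` -/

set_option autoImplicit false

namespace Pool.Agent.Q293.EW

open MeasureTheory ProbabilityTheory Set Filter Topology Complex

theorem exp_two (z : ℂ) : ‖cexp z - 1 - z‖ ≤ ‖z‖ ^ 2 * Real.exp ‖z‖ := by
  have h := Complex.norm_exp_sub_sum_le_norm_mul_exp z 2
  simp only [Finset.sum_range_succ, Finset.sum_range_zero] at h
  norm_num at h
  rwa [← sub_sub] at h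

theorem pow_mid {T : ℝ} (hT : 0 ≤ T) {k : ℕ} (h4 : 4 ≤ k) (h10 : k ≤ 10) :
    T ^ k ≤ T ^ 4 + T ^ 10 := by
  have h1 : 0 ≤ T ^ 4 := by positivity
  have h2 : 0 ≤ T ^ 10 := by positivity
  rcases le_total T 1 with h | h
  · have := pow_le_pow_of_le_one hT h h4
    linarith
  · have := pow_le_pow_right₀ h h10
    linarith

theorem small : S_Small := by
  rintro ⟨c', K', hc', hK', hlog⟩ K₀ hK₀
  set L : ℝ := K₀ * (1 + K') with hL
  have hL0 : 0 < L := by positivity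
  set X : ℝ := 1 / (2 + 8 * L) with hX
  have hX0 : 0 < X := by positivity
  have hX1 : X ≤ 1 := by
    rw [hX, div_le_one (by positivity)]
    linarith
  refine ⟨min (X ^ 3) (c' / K₀ ^ 3), 1 + 8 * L ^ 2 + 2 * L, lt_min (by positivity) (by positivity),
    by positivity, ?_⟩
  intro μ _ hmom hbe hm4 s θ N hN hθ hθ2 hθ5 hθ4 δ hδ hδ1 t ht
  set b : ℝ := be μ with hb
  have hb0 : 0 ≤ b := by linarith
  set B : ℝ := b ^ (1 / 3 : ℝ) with hB
  have hB0 : 0 ≤ B := Real.rpow_nonneg hb0 _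
  have hB3 : B ^ 3 = b := by
    rw [hB, ← Real.rpow_natCast, ← Real.rpow_mul hb0]
    norm_num
  have hB2 : B ^ 2 = b ^ (2 / 3 : ℝ) := by
    rw [hB, ← Real.rpow_natCast, ← Real.rpow_mul hb0]
    norm_num
  have hB1 : 1 ≤ B := Real.one_le_rpow hbe (by norm_num)
  have hN1 : (1 : ℝ) ≤ (N : ℝ) := by exact_mod_cast hN
  have hN0 : (0 : ℝ) ≤ (N : ℝ) := by linarith
  set S : ℝ := √(N : ℝ) with hS
  have hS2 : S ^ 2 = N := Real.sq_sqrt hN0
  have hS1 : 1 ≤ S := Real.one_le_sqrt.2 hN1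
  have hS0 : 0 < S := by linarith
  have hS3 : (N : ℝ) ^ (3 / 2 : ℝ) = S ^ 3 := by
    rw [hS, Real.sqrt_eq_rpow, ← Real.rpow_natCast, ← Real.rpow_mul hN0]
    norm_num
  set D : ℝ := B / S with hD
  have hD0 : 0 ≤ D := by positivity
  have hD3 : D ^ 3 = δ := by rw [hδ, hS3, hD, div_pow, hB3]
  have hδ0 : 0 ≤ δ := by rw [← hD3]; positivity
  have hD1 : D ≤ 1 := by
    have : D ^ 3 ≤ 1 ^ 3 := by rw [hD3, one_pow]; exact hδ1
    exact le_of_pow_le_pow_left₀ (by norm_num) (by norm_num) this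
  set T : ℝ := |t| with hT
  have hT0 : 0 ≤ T := abs_nonneg t
  have hT2 : t ^ 2 = T ^ 2 := (sq_abs t).symm
  have hT4 : t ^ 4 = T ^ 4 := by
    rw [hT, show (4 : ℕ) = 2 * 2 from rfl, pow_mul, pow_mul, sq_abs]
  have hT10 : t ^ 10 = T ^ 10 := by
    rw [hT, show (10 : ℕ) = 2 * 5 from rfl, pow_mul, pow_mul, sq_abs]
  have hx3 : (T * D) ^ 3 ≤ X ^ 3 := by
    rw [mul_pow, hD3]
    exact ht.trans (min_le_left _ _)
  have hx : T * D ≤ X := le_of_pow_le_pow_left₀ (by norm_num) hX0.le hx3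
  have hx0 : 0 ≤ T * D := by positivity
  -- the logarithms
  have hρ : ∀ n ∈ s, ∃ ρ : ℂ, charFun μ (θ n * t) =
      cexp (-((θ n * t : ℝ) : ℂ) ^ 2 / 2 + (m4 μ - 3 : ℝ) * ((θ n * t : ℝ) : ℂ) ^ 4 / 24 + ρ) ∧
      ‖ρ‖ ≤ K' * b * |θ n * t| ^ 5 := by
    intro n hn
    refine hlog μ hmom hbe hm4 (θ n * t) ?_
    have h1 : |θ n * t| ^ 3 * b ≤ (K₀ / S) ^ 3 * T ^ 3 * b := by
      rw [abs_mul, mul_pow]
      gcongr
      exact hθ n hn
    refine h1.trans ?_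
    have h2 : (K₀ / S) ^ 3 * T ^ 3 * b = K₀ ^ 3 * (T ^ 3 * δ) := by
      rw [← hD3, hD, div_pow, div_pow, hB3]
      ring
    rw [h2]
    have h3 : T ^ 3 * δ ≤ c' / K₀ ^ 3 := ht.trans (min_le_right _ _)
    calc K₀ ^ 3 * (T ^ 3 * δ) ≤ K₀ ^ 3 * (c' / K₀ ^ 3) :=
          mul_le_mul_of_nonneg_left h3 (by positivity)
      _ = c' := by field_simp
  classical
  choose! ρ hρ1 hρ2 using hρ
  set k : ℝ := m4 μ - 3 with hk
  have hm40 : 0 ≤ m4 μ := integral_nonneg fun x => by positivity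
  have hkB : |k| ≤ 4 * B ^ 2 := by
    rw [← hB2] at hm4
    have : 1 ≤ B ^ 2 := one_le_pow₀ hB1
    rw [hk, abs_le]
    constructor <;> linarith
  set z : ℂ := (k * t ^ 4 * (∑ n ∈ s, θ n ^ 4) / 24 : ℝ) + ∑ n ∈ s, ρ n with hz
  have hprod : ∏ n ∈ s, charFun μ (θ n * t) = cexp ((-t ^ 2 / 2 : ℝ) + z) := by
    rw [Finset.prod_congr rfl hρ1, ← Complex.exp_sum]
    congr 1
    rw [Finset.sum_add_distrib, hz, ← add_assoc]
    congr 1
    have h1 : ∀ n ∈ s, -((θ n * t : ℝ) : ℂ) ^ 2 / 2 + (k : ℂ) * ((θ n * t : ℝ) : ℂ) ^ 4 / 24 =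
        ((-t ^ 2 / 2 * θ n ^ 2 + k * t ^ 4 / 24 * θ n ^ 4 : ℝ) : ℂ) := by
      intro n _
      push_cast
      ring
    rw [Finset.sum_congr rfl h1, ← Complex.ofReal_sum, ← Complex.ofReal_add]
    congr 1
    rw [Finset.sum_add_distrib, ← Finset.mul_sum, ← Finset.mul_sum, hθ2]
    ring
  set q : ℝ := k * t ^ 4 / (8 * N) with hq
  set ε : ℂ := z - (q : ℂ) with hε
  have hεn : ‖ε‖ ≤ L * δ * (T ^ 4 + T ^ 5) := by
    have h1 : ε = ((k * t ^ 4 / 24 * (∑ n ∈ s, θ n ^ 4 - 3 / N) : ℝ) : ℂ) + ∑ n ∈ s, ρ n := by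
      rw [hε, hz, hq]
      push_cast
      field_simp
      ring
    have h2 : ‖((k * t ^ 4 / 24 * (∑ n ∈ s, θ n ^ 4 - 3 / N) : ℝ) : ℂ)‖ ≤ K₀ * δ * T ^ 4 := by
      rw [Complex.norm_real, Real.norm_eq_abs, abs_mul, abs_div, abs_mul, hT4,
        abs_of_nonneg (by positivity : 0 ≤ T ^ 4)]
      have h3 : |k| * T ^ 4 / |(24 : ℝ)| * |∑ n ∈ s, θ n ^ 4 - 3 / N| ≤
          (4 * B ^ 2) * T ^ 4 / 24 * (K₀ / (N : ℝ) ^ 2) := by
        rw [abs_of_pos (by norm_num : (0 : ℝ) < 24)]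
        gcongr
      refine h3.trans ?_
      have h4 : (N : ℝ) ^ 2 = S ^ 4 := by rw [← hS2]; ring
      have h5 : B ^ 2 / S ^ 4 ≤ δ := by
        rw [← hD3, hD, div_pow, div_le_div_iff₀ (by positivity) (by positivity)]
        have h6 : 0 ≤ B ^ 2 * S ^ 3 := by positivity
        have h7 : 1 ≤ B * S := one_le_mul_of_one_le_of_one_le hB1 hS1
        calc B ^ 2 * S ^ 3 = B ^ 2 * S ^ 3 * 1 := by ring
          _ ≤ B ^ 2 * S ^ 3 * (B * S) := mul_le_mul_of_nonneg_left h7 h6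
          _ = B ^ 3 * S ^ 4 := by ring
      rw [h4]
      calc 4 * B ^ 2 * T ^ 4 / 24 * (K₀ / S ^ 4) = (B ^ 2 / S ^ 4) * (K₀ * T ^ 4 / 6) := by
            field_simp
            ring
        _ ≤ δ * (K₀ * T ^ 4 / 6) := mul_le_mul_of_nonneg_right h5 (by positivity)
        _ ≤ K₀ * δ * T ^ 4 := by
            have h8 : 0 ≤ K₀ * δ * T ^ 4 := by positivity
            have h9 : δ * (K₀ * T ^ 4 / 6) = K₀ * δ * T ^ 4 / 6 := by ring
            rw [h9]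
            linarith
    have h3 : ‖∑ n ∈ s, ρ n‖ ≤ K₀ * K' * δ * T ^ 5 := by
      calc ‖∑ n ∈ s, ρ n‖ ≤ ∑ n ∈ s, K' * b * |θ n * t| ^ 5 :=
            norm_sum_le_of_le _ fun n hn => hρ2 n hn
        _ = K' * b * T ^ 5 * ∑ n ∈ s, |θ n| ^ 5 := by
            rw [Finset.mul_sum]
            refine Finset.sum_congr rfl fun n _ => ?_
            rw [abs_mul, mul_pow]
            ring
        _ ≤ K' * b * T ^ 5 * (K₀ / S ^ 3) := by
            rw [← hS3]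
            exact mul_le_mul_of_nonneg_left hθ5 (by positivity)
        _ = K₀ * K' * δ * T ^ 5 := by
            rw [← hD3, hD, div_pow, hB3]
            ring
    rw [h1]
    refine (norm_add_le _ _).trans ((add_le_add h2 h3).trans ?_)
    have h4 : 0 ≤ K₀ * δ * T ^ 5 := by positivity
    have h5 : 0 ≤ K₀ * K' * δ * T ^ 4 := by positivity
    have h6 : L * δ * (T ^ 4 + T ^ 5) = K₀ * δ * T ^ 4 + K₀ * K' * δ * T ^ 5 +
        (K₀ * δ * T ^ 5 + K₀ * K' * δ * T ^ 4) := by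
      rw [hL]
      ring
    rw [h6]
    linarith
  have hqn : |q| ≤ T ^ 4 * D ^ 2 / 2 := by
    rw [hq, abs_div, abs_mul, hT4, abs_of_nonneg (by positivity : 0 ≤ T ^ 4),
      abs_of_nonneg (by positivity : (0 : ℝ) ≤ 8 * N), ← hS2, hD, div_pow]
    rw [div_le_iff₀ (by positivity)]
    calc |k| * T ^ 4 ≤ 4 * B ^ 2 * T ^ 4 := mul_le_mul_of_nonneg_right hkB (by positivity)
      _ = T ^ 4 * (B ^ 2 / S ^ 2) / 2 * (8 * S ^ 2) := by
        field_simp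
        ring
  have hzn' : ‖z‖ ≤ |q| + ‖ε‖ := by
    have h1 : z = (q : ℂ) + ε := by rw [hε]; ring
    rw [h1]
    refine (norm_add_le _ _).trans (add_le_add (le_of_eq ?_) le_rfl)
    rw [Complex.norm_real, Real.norm_eq_abs]
  have hzn : ‖z‖ ≤ T ^ 2 / 4 := by
    refine hzn'.trans ((add_le_add hqn hεn).trans ?_)
    rw [← hD3]
    have h1 : T ^ 4 * D ^ 2 / 2 + L * D ^ 3 * (T ^ 4 + T ^ 5) =
        T ^ 2 * ((T * D) ^ 2 / 2 + L * ((T * D) ^ 2 * D + (T * D) ^ 3)) := by ring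
    rw [h1]
    have h2 : (T * D) ^ 2 ≤ X := by
      calc (T * D) ^ 2 ≤ X ^ 2 := pow_le_pow_left₀ hx0 hx 2
        _ ≤ X ^ 1 := pow_le_pow_of_le_one hX0.le hX1 (by norm_num)
        _ = X := pow_one X
    have h3 : (T * D) ^ 2 * D ≤ X := by
      calc (T * D) ^ 2 * D ≤ X * 1 := mul_le_mul h2 hD1 hD0 hX0.le
        _ = X := mul_one X
    have h4 : (T * D) ^ 3 ≤ X := by
      refine hx3.trans ?_
      calc X ^ 3 ≤ X ^ 1 := pow_le_pow_of_le_one hX0.le hX1 (by norm_num)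
        _ = X := pow_one X
    have h5 : (T * D) ^ 2 / 2 + L * ((T * D) ^ 2 * D + (T * D) ^ 3) ≤ 1 / 4 := by
      have h6 : X * (2 + 8 * L) = 1 := by
        rw [hX]
        field_simp
      have h7 : L * ((T * D) ^ 2 * D + (T * D) ^ 3) ≤ L * (X + X) :=
        mul_le_mul_of_nonneg_left (add_le_add h3 h4) hL0.le
      have h8 : X * (2 + 8 * L) = 2 * X + 4 * (L * (X + X)) := by ring
      linarith
    calc T ^ 2 * _ ≤ T ^ 2 * (1 / 4) := mul_le_mul_of_nonneg_left h5 (by positivity)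
      _ = T ^ 2 / 4 := by ring
  -- the final estimate
  have hW0 : 0 ≤ T ^ 4 + T ^ 10 := by positivity
  have hW5 := pow_mid hT0 (k := 5) (by norm_num) (by norm_num)
  have hW8 := pow_mid hT0 (k := 8) (by norm_num) (by norm_num)
  have hεW : ‖ε‖ ≤ 2 * L * δ * (T ^ 4 + T ^ 10) := by
    refine hεn.trans ?_
    have h1 : T ^ 4 + T ^ 5 ≤ 2 * (T ^ 4 + T ^ 10) := by
      have : 0 ≤ T ^ 10 := by positivity
      linarith
    calc L * δ * (T ^ 4 + T ^ 5) ≤ L * δ * (2 * (T ^ 4 + T ^ 10)) :=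
          mul_le_mul_of_nonneg_left h1 (by positivity)
      _ = _ := by ring
  have hz2 : ‖z‖ ^ 2 ≤ (1 + 8 * L ^ 2) * δ * (T ^ 4 + T ^ 10) := by
    have h1 : ‖z‖ ^ 2 ≤ 2 * |q| ^ 2 + 2 * ‖ε‖ ^ 2 := by
      have h2 : ‖z‖ ^ 2 ≤ (|q| + ‖ε‖) ^ 2 := pow_le_pow_left₀ (norm_nonneg _) hzn' 2
      have h3 := sq_nonneg (|q| - ‖ε‖)
      have h4 : (|q| + ‖ε‖) ^ 2 = 2 * |q| ^ 2 + 2 * ‖ε‖ ^ 2 - (|q| - ‖ε‖) ^ 2 := by ring
      linarith
    have h2 : |q| ^ 2 ≤ δ * (T ^ 4 + T ^ 10) / 4 := by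
      have h3 : |q| ^ 2 ≤ (T ^ 4 * D ^ 2 / 2) ^ 2 := pow_le_pow_left₀ (abs_nonneg _) hqn 2
      have h4 : (T ^ 4 * D ^ 2 / 2) ^ 2 = T ^ 8 * (D ^ 3 * D) / 4 := by ring
      have h5 : D ^ 3 * D ≤ δ := by
        rw [hD3]
        calc δ * D ≤ δ * 1 := mul_le_mul_of_nonneg_left hD1 hδ0
          _ = δ := mul_one δ
      have h6 : T ^ 8 * (D ^ 3 * D) ≤ (T ^ 4 + T ^ 10) * δ :=
        mul_le_mul hW8 h5 (by positivity) hW0
      rw [h4] at h3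
      linarith
    have h3 : ‖ε‖ ^ 2 ≤ 4 * L ^ 2 * δ * (T ^ 4 + T ^ 10) := by
      have h4 : ‖ε‖ ^ 2 ≤ (L * δ * (T ^ 4 + T ^ 5)) ^ 2 := pow_le_pow_left₀ (norm_nonneg _) hεn 2
      refine h4.trans ?_
      have h5 : (T ^ 4 + T ^ 5) ^ 2 ≤ 4 * (T ^ 4 + T ^ 10) := by
        have h6 : (T ^ 4 + T ^ 5) ^ 2 ≤ 2 * T ^ 8 + 2 * T ^ 10 := by
          have h8 := sq_nonneg (T ^ 4 - T ^ 5)
          have h9 : (T ^ 4 + T ^ 5) ^ 2 = 2 * T ^ 8 + 2 * T ^ 10 - (T ^ 4 - T ^ 5) ^ 2 := by ring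
          linarith
        have h7 : 0 ≤ T ^ 4 := by positivity
        linarith
      have h6 : δ ^ 2 ≤ δ := by
        calc δ ^ 2 = δ * δ := by ring
          _ ≤ δ * 1 := mul_le_mul_of_nonneg_left hδ1 hδ0
          _ = δ := mul_one δ
      calc (L * δ * (T ^ 4 + T ^ 5)) ^ 2 = L ^ 2 * (δ ^ 2 * (T ^ 4 + T ^ 5) ^ 2) := by ring
        _ ≤ L ^ 2 * (δ * (4 * (T ^ 4 + T ^ 10))) :=
            mul_le_mul_of_nonneg_left (mul_le_mul h6 h5 (by positivity) hδ0) (by positivity)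
        _ = _ := by ring
    have h4 : 0 ≤ δ * (T ^ 4 + T ^ 10) := by positivity
    have h5 : (1 + 8 * L ^ 2) * δ * (T ^ 4 + T ^ 10) =
        δ * (T ^ 4 + T ^ 10) + 2 * (4 * L ^ 2 * δ * (T ^ 4 + T ^ 10)) := by ring
    rw [h5]
    linarith
  have hsplit : cexp ((-t ^ 2 / 2 : ℝ) + z) - ((gc (k / (8 * N)) t : ℝ) : ℂ) =
      (Real.exp (-t ^ 2 / 2) : ℂ) * ((cexp z - 1 - z) + ε) := by
    rw [Complex.exp_add, ← Complex.ofReal_exp, gc, hε, hq]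
    push_cast
    ring
  rw [hprod, hsplit, norm_mul, Complex.norm_real, Real.norm_eq_abs, Real.abs_exp, hT2, hT4, hT10]
  have hA : ‖cexp z - 1 - z‖ ≤ (1 + 8 * L ^ 2) * δ * (T ^ 4 + T ^ 10) * Real.exp (T ^ 2 / 4) := by
    refine (exp_two z).trans ?_
    exact mul_le_mul hz2 (Real.exp_le_exp.2 hzn) (Real.exp_pos _).le (by positivity)
  have hC : ‖ε‖ ≤ 2 * L * δ * (T ^ 4 + T ^ 10) * Real.exp (T ^ 2 / 4) := by
    refine hεW.trans ?_
    have h1 : 1 ≤ Real.exp (T ^ 2 / 4) := Real.one_le_exp (by positivity)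
    exact le_mul_of_one_le_right (by positivity) h1
  have hsum := (norm_add_le (cexp z - 1 - z) ε).trans (add_le_add hA hC)
  have hexp : Real.exp (-T ^ 2 / 2) * Real.exp (T ^ 2 / 4) = Real.exp (-T ^ 2 / 4) := by
    rw [← Real.exp_add]
    congr 1
    ring
  calc Real.exp (-T ^ 2 / 2) * ‖cexp z - 1 - z + ε‖
      ≤ Real.exp (-T ^ 2 / 2) * ((1 + 8 * L ^ 2) * δ * (T ^ 4 + T ^ 10) * Real.exp (T ^ 2 / 4) +
        2 * L * δ * (T ^ 4 + T ^ 10) * Real.exp (T ^ 2 / 4)) :=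
        mul_le_mul_of_nonneg_left hsum (Real.exp_pos _).le
    _ = (1 + 8 * L ^ 2 + 2 * L) * δ * (T ^ 4 + T ^ 10) *
        (Real.exp (-T ^ 2 / 2) * Real.exp (T ^ 2 / 4)) := by ring
    _ = (1 + 8 * L ^ 2 + 2 * L) * δ * (T ^ 4 + T ^ 10) * Real.exp (-T ^ 2 / 4) := by rw [hexp]

end Pool.Agent.Q293.EW
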